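import Pool.Agent.H363Z.Univ

set_option autoImplicit false

/-!
Comparison with a description of the diagram group by lists of tuples.
-/

namespace Pool.Agent.H363Z.Br

variable {A : Type}

/-- tuples -/
abbrev Tu (A : Type) : Type := List A × (List A × List A) × List A × Bool

/-- tuple of an edge -/
def tu (e : Step A) : Tu A := (e.pre, (e.lhs, e.rhs), e.suf, e.fwd)

/-- edge of a tuple -/
def ut (s : Tu A) : Step A := ⟨s.1, s.2.1.1, s.2.1.2, s.2.2.1, s.2.2.2⟩

theorem ut_tu (e : Step A) : ut (tu e) = e := rfl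

theorem tu_ut (s : Tu A) : tu (ut s) = s := rfl

theorem map_tu_ut (l : List (Tu A)) : (l.map ut).map tu = l := by
  simp [Function.comp_def, tu_ut]

theorem map_ut_tu (l : List (Step A)) : (l.map tu).map ut = l := by
  simp [Function.comp_def, ut_tu]

variable (P : Pres A)

/-- paths as lists of tuples -/
def path (l : List (Tu A)) : Prop := (∀ s ∈ l, s.2.1 ∈ P.rel) ∧
  ∀ (i : ℕ) (s t : Tu A), l[i]? = some s → l[i+1]? = some t → (ut s).tgt = (ut t).src

/-- loops as lists of tuples -/
def loop (w : List A) (l : List (Tu A)) : Prop :=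
  path P l ∧ (∀ s ∈ l.head?, (ut s).src = w) ∧ (∀ s ∈ l.getLast?, (ut s).tgt = w)

/-- moves on lists of tuples -/
def move (a b : List (Tu A)) : Prop := path P a ∧ path P b ∧
  ((∃ (p q : List (Tu A)) (x u v y : List A) (c : Bool),
      a = p ++ q ∧ b = p ++ [(x, (u, v), y, c), (x, (u, v), y, !c)] ++ q) ∨
    (∃ (p q : List (Tu A)) (x u₁ v₁ y u₂ v₂ z : List A),
      a = p ++ [(x, (u₁, v₁), y ++ u₂ ++ z, true), (x ++ v₁ ++ y, (u₂, v₂), z, true)] ++ q ∧
      b = p ++ [(x ++ u₁ ++ y, (u₂, v₂), z, true), (x, (u₁, v₁), y ++ v₂ ++ z, true)] ++ q))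

variable {P}

theorem path_cons (s : Tu A) (l : List (Tu A)) :
    path P (s :: l) ↔ s.2.1 ∈ P.rel ∧ (∀ t ∈ l.head?, (ut s).tgt = (ut t).src) ∧ path P l := by
  constructor
  · rintro ⟨h1, h2⟩
    refine ⟨h1 s (by simp), fun t ht => h2 0 s t rfl ?_, fun t ht => h1 t (by simp [ht]),
      fun i a b ha hb => h2 (i + 1) a b ha hb⟩
    cases l with
    | nil => simp at ht
    | cons b l => simpa using ht
  · rintro ⟨h1, h2, h3, h4⟩
    refine ⟨fun t ht => ?_, fun i a b ha hb => ?_⟩
    · rcases List.mem_cons.1 ht with rfl | ht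
      exacts [h1, h3 t ht]
    · cases i with
      | zero =>
        obtain rfl : s = a := by simpa using ha
        refine h2 b ?_
        cases l with
        | nil => simp at hb
        | cons c l => simpa using hb
      | succ i => exact h4 i a b ha hb

theorem of_isPath {x y : List A} {l : List (Step A)} (h : IsPath P x l y) :
    path P (l.map tu) ∧ (∀ s ∈ (l.map tu).head?, (ut s).src = x) ∧
      (∀ s ∈ (l.map tu).getLast?, (ut s).tgt = y) := by
  induction h with
  | nil x => exact ⟨⟨by simp, by simp⟩, by simp, by simp⟩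
  | cons e l y he hl ih =>
    obtain ⟨h1, h2, h3⟩ := ih
    refine ⟨(path_cons _ _).2 ⟨he, fun t ht => (h2 t ht).symm, h1⟩, ?_, ?_⟩
    · intro s hs
      obtain rfl : tu e = s := by simpa using hs
      rfl
    · intro s hs
      cases l with
      | nil =>
        obtain rfl : tu e = s := by simpa using hs
        exact hl.nil_inv
      | cons e' l => exact h3 s (by simpa using hs)

theorem to_isPath {y : List A} : ∀ {x : List A} {l : List (Tu A)}, path P l →
    (∀ s ∈ l.head?, (ut s).src = x) → (∀ s ∈ l.getLast?, (ut s).tgt = y) → (l = [] → x = y) →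
    IsPath P x (l.map ut) y
  | x, [], _, _, _, h => h rfl ▸ IsPath.nil _
  | x, s :: l, h1, h2, h3, _ => by
    obtain ⟨k1, k2, k3⟩ := (path_cons _ _).1 h1
    rw [← h2 s rfl]
    refine IsPath.cons _ _ _ k1 (to_isPath k3 (fun t ht => (k2 t ht).symm) (fun t ht => h3 t ?_) ?_)
    · cases l with
      | nil => simp at ht
      | cons c l => simpa using ht
    · rintro rfl
      exact h3 s rfl

theorem loop_iff {w : List A} {l : List (Tu A)} : loop P w l ↔ IsPath P w (l.map ut) w :=
  ⟨fun h => to_isPath h.1 h.2.1 h.2.2 (fun _ => rfl), fun h => by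
    have := of_isPath h
    rwa [map_tu_ut] at this⟩

theorem ev_of_move {a b : List (Tu A)} (h : move P a b) : ev P (a.map ut) = ev P (b.map ut) := by
  obtain ⟨h1, -, ⟨p, q, x, u, v, y, c, rfl, rfl⟩ | ⟨p, q, x, u, v, y, u', v', z, rfl, rfl⟩⟩ := h
  · cases c <;> simp [st, ut]
  · have k1 : (u, v) ∈ P.rel := h1.1 (x, (u, v), y ++ u' ++ z, true) (by simp)
    have k2 : (u', v') ∈ P.rel := h1.1 (x ++ v ++ y, (u', v'), z, true) (by simp)
    have := gen_sq k1 k2 x y z
    simp only [List.map_append, ev_append, List.map_cons, List.map_nil, ev_cons, ev_nil, st, ut,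
      cond_true, mul_one, this]

variable (P) in
/-- equivalence in every context -/
def R (x y : List A) (m m' : List (Step A)) : Prop :=
  IsPath P x m y ∧ IsPath P x m' y ∧ ∀ z z' l r, IsPath P z l x → IsPath P y r z' →
    Quot.mk (move P) ((l ++ m ++ r).map tu) = Quot.mk (move P) ((l ++ m' ++ r).map tu)

theorem R.refl {x y : List A} {m : List (Step A)} (h : IsPath P x m y) : R P x y m m :=
  ⟨h, h, fun _ _ _ _ _ _ => rfl⟩

theorem R.symm {x y : List A} {m m' : List (Step A)} (h : R P x y m m') : R P x y m' m :=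
  ⟨h.2.1, h.1, fun z z' l r h1 h2 => (h.2.2 z z' l r h1 h2).symm⟩

theorem R.trans {x y : List A} {m m' m'' : List (Step A)} (h : R P x y m m')
    (h' : R P x y m' m'') : R P x y m m'' :=
  ⟨h.1, h'.2.1, fun z z' l r h1 h2 => (h.2.2 z z' l r h1 h2).trans (h'.2.2 z z' l r h1 h2)⟩

theorem R.append {x y z : List A} {m m' n n' : List (Step A)} (h : R P x y m m')
    (h' : R P y z n n') : R P x z (m ++ n) (m' ++ n') := by
  refine ⟨h.1.append h'.1, h.2.1.append h'.2.1, fun a b l r h1 h2 => ?_⟩
  have e1 := h.2.2 a b l (n ++ r) h1 (h'.1.append h2)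
  have e2 := h'.2.2 a b (l ++ m') r (h1.append h.2.1) h2
  simp only [List.append_assoc] at e1 e2 ⊢
  exact e1.trans e2

theorem R.cancel {e : Step A} (he : (e.lhs, e.rhs) ∈ P.rel) : R P e.src e.src [e, e.rev] [] := by
  have h1 : IsPath P e.src [e, e.rev] e.src := by
    refine IsPath.cons e _ _ he ?_
    have := IsPath.single (P := P) (e := e.rev) he
    rwa [e.rev_src, e.rev_tgt] at this
  refine ⟨h1, IsPath.nil _, fun z z' l r k1 k2 => (Quot.sound ?_).symm⟩
  refine ⟨(of_isPath ((k1.append (IsPath.nil _)).append k2)).1,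
    (of_isPath ((k1.append h1).append k2)).1,
    Or.inl ⟨l.map tu, r.map tu, e.pre, e.lhs, e.rhs, e.suf, e.fwd, by simp, by simp [tu, Step.rev]⟩⟩

theorem R.rev_cancel {x y : List A} {m : List (Step A)} (h : IsPath P x m y) :
    R P x x (m ++ revPath m) [] := by
  induction h with
  | nil x => exact R.refl (IsPath.nil x)
  | cons e l y he _ ih =>
    have h1 := IsPath.single (P := P) (e := e.rev) he
    rw [e.rev_src, e.rev_tgt] at h1
    have := ((R.refl (IsPath.single he)).append ih).append (R.refl h1)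
    rw [revPath_cons]
    refine R.trans ?_ (R.cancel he)
    simpa using this

theorem revPath_rev (m : List (Step A)) : revPath (revPath m) = m := by
  simp [revPath, Function.comp_def, Step.rev_rev]

theorem R.rev_cancel' {x y : List A} {m : List (Step A)} (h : IsPath P x m y) :
    R P y y (revPath m ++ m) [] := by
  have := R.rev_cancel h.rev
  rwa [revPath_rev] at this

theorem R.turn {x y z z' : List A} {f1 f2 g1 g2 : List (Step A)} (h1 : IsPath P x f1 z)
    (h2 : IsPath P z f2 y) (h3 : IsPath P x g1 z') (h4 : IsPath P z' g2 y)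
    (h : R P x y (f1 ++ f2) (g1 ++ g2)) : R P z' z (g2 ++ revPath f2) (revPath g1 ++ f1) := by
  have a1 := (R.rev_cancel' h3).symm.append (R.refl (h4.append h2.rev))
  have a2 := ((R.refl h3.rev).append h.symm).append (R.refl h2.rev)
  have a3 := (R.refl (h3.rev.append h1)).append (R.rev_cancel h2)
  simp only [List.nil_append, List.append_nil, List.append_assoc] at a1 a2 a3
  exact (a1.trans a2).trans a3

theorem R.rev {x y : List A} {m m' : List (Step A)} (h : R P x y m m') :
    R P y x (revPath m) (revPath m') := by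
  have := R.turn (f1 := []) (f2 := m) (g1 := m') (g2 := []) (IsPath.nil x) h.1 h.2.1
    (IsPath.nil y) (by simpa using h)
  simpa using this

theorem R.swap {u v p q : List A} (h : (u, v) ∈ P.rel) (h' : (p, q) ∈ P.rel) (a b c : List A)
    (s t : Bool) : R P (a ++ cond s u v ++ b ++ cond t p q ++ c)
      (a ++ cond s v u ++ b ++ cond t q p ++ c)
      [⟨a, u, v, b ++ cond t p q ++ c, s⟩, ⟨a ++ cond s v u ++ b, p, q, c, t⟩]
      [⟨a ++ cond s u v ++ b, p, q, c, t⟩, ⟨a, u, v, b ++ cond t q p ++ c, s⟩] := by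
  have tt : R P (a ++ u ++ b ++ p ++ c) (a ++ v ++ b ++ q ++ c)
      [⟨a, u, v, b ++ p ++ c, true⟩, ⟨a ++ v ++ b, p, q, c, true⟩]
      [⟨a ++ u ++ b, p, q, c, true⟩, ⟨a, u, v, b ++ q ++ c, true⟩] := by
    have h1 := sq_path₁ h h' a b c true true
    have h2 := sq_path₂ h h' a b c true true
    refine ⟨h1, h2, fun z z' l r k1 k2 => Quot.sound ?_⟩
    exact ⟨(of_isPath ((k1.append h1).append k2)).1, (of_isPath ((k1.append h2).append k2)).1,
      Or.inr ⟨l.map tu, r.map tu, a, u, v, b, p, q, c, by simp [tu], by simp [tu]⟩⟩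
  have e1 := IsPath.single (P := P) (e := ⟨a, u, v, b ++ p ++ c, true⟩) h
  have e2 := IsPath.single (P := P) (e := ⟨a ++ v ++ b, p, q, c, true⟩) h'
  have e3 := IsPath.single (P := P) (e := ⟨a ++ u ++ b, p, q, c, true⟩) h'
  have e4 := IsPath.single (P := P) (e := ⟨a, u, v, b ++ q ++ c, true⟩) h
  simp only [Step.src, Step.tgt, List.append_assoc, cond_true] at e1 e2 e3 e4 tt
  have tf := R.turn e1 e2 e3 e4 tt
  cases s <;> cases t
  · simpa [revPath, Step.rev] using tt.rev.symm
  · simpa [revPath, Step.rev] using tf.rev.symm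
  · simpa [revPath, Step.rev] using tf
  · simpa using tt

theorem quot_of_move {w : List A} (γ δ : Loop P w) (h : Move γ.1 δ.1) :
    Quot.mk (move P) (γ.1.map tu) = Quot.mk (move P) (δ.1.map tu) := by
  obtain ⟨γ, hγ⟩ := γ
  obtain ⟨δ, hδ⟩ := δ
  simp only at h ⊢
  rcases h with ⟨_, _, ⟨l, r, a, u, v, b, p, q, c, s, t⟩⟩ | ⟨l, r, e⟩
  · obtain ⟨z, k1, k2⟩ := hγ.split
    obtain ⟨rfl, k3, k4⟩ := k2.cons_inv
    obtain ⟨-, k5, k6⟩ := k4.cons_inv
    have := (R.swap k3 k5 a b c s t).2.2 w w l r (by simpa [Step.src] using k1)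
      (by simpa [Step.tgt] using k6)
    simpa using this
  · obtain ⟨z, k1, k2⟩ := hγ.split
    obtain ⟨rfl, k3, k4⟩ := k2.cons_inv
    obtain ⟨-, -, k6⟩ := k4.cons_inv
    rw [e.rev_tgt] at k6
    have := (R.cancel k3).2.2 w w l r k1 k6
    simpa using this

/-- the element of the diagram group given by a loop of tuples -/
def el {w : List A} {l : List (Tu A)} (h : loop P w l) : DiagramGroup P w :=
  DiagramGroup.mk ⟨l.map ut, loop_iff.1 h⟩

theorem el_eq_iff {w : List A} {l l' : List (Tu A)} (h : loop P w l) (h' : loop P w l') :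
    el h = el h' ↔ Quot.mk (move P) l = Quot.mk (move P) l' := by
  constructor
  · intro e
    have := congrArg (Quot.lift (fun γ : Loop P w => Quot.mk (move P) (γ.1.map tu))
      quot_of_move) e
    simpa only [el, DiagramGroup.mk, map_tu_ut] using this
  · intro e
    apply toU_injective
    exact congrArg (Quot.lift (fun l => ev P (l.map ut)) (fun _ _ => ev_of_move)) e

theorem loop_append {w : List A} {l l' : List (Tu A)} (h : loop P w l) (h' : loop P w l') :
    loop P w (l ++ l') := by
  rw [loop_iff] at h h' ⊢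
  rw [List.map_append]
  exact h.append h'

theorem el_append {w : List A} {l l' : List (Tu A)} (h : loop P w l) (h' : loop P w l') :
    el (loop_append h h') = el h * el h' :=
  congrArg DiagramGroup.mk (Subtype.ext (List.map_append ..))

theorem hom_out {w : List A} {G : Type} [Group G] (f : List (Tu A) → G)
    (h1 : ∀ p q, loop P w p → loop P w q → f (p ++ q) = f p * f q)
    (h2 : ∀ p q, loop P w p → loop P w q → (f p = f q ↔ Quot.mk (move P) p = Quot.mk (move P) q)) :
    ∃ φ : DiagramGroup P w →* G, Function.Injective φ := by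
  have hl : ∀ γ : Loop P w, loop P w (γ.1.map tu) := fun γ => loop_iff.2 (by
    rw [map_ut_tu]; exact γ.2)
  refine ⟨MonoidHom.mk' (Quot.lift (fun γ : Loop P w => f (γ.1.map tu))
    (fun γ δ h => (h2 _ _ (hl γ) (hl δ)).2 (quot_of_move γ δ h))) ?_, ?_⟩
  · rintro ⟨γ⟩ ⟨δ⟩
    exact (congrArg f (List.map_append ..)).trans (h1 _ _ (hl γ) (hl δ))
  · rintro ⟨γ⟩ ⟨δ⟩ e
    have := (el_eq_iff (hl γ) (hl δ)).2 ((h2 _ _ (hl γ) (hl δ)).1 e)
    simp only [el, map_ut_tu] at this
    exact this

theorem hom_in {w : List A} {G : Type} [Group G] (g : G → List (Tu A)) (h0 : ∀ a, loop P w (g a))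
    (h1 : ∀ a b, Quot.mk (move P) (g (a * b)) = Quot.mk (move P) (g a ++ g b))
    (h2 : ∀ a b, Quot.mk (move P) (g a) = Quot.mk (move P) (g b) → a = b) :
    ∃ φ : G →* DiagramGroup P w, Function.Injective φ :=
  ⟨MonoidHom.mk' (fun a => el (h0 a)) (fun a b => by
    rw [← el_append, el_eq_iff]; exact h1 a b),
    fun a b e => h2 a b ((el_eq_iff (h0 a) (h0 b)).1 e)⟩

end Pool.Agent.H363Z.Br
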