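import Pool.Agent.H363Z.Univ

set_option autoImplicit false

/-!
The abelianisation of a diagram group is torsion free.
-/

namespace Pool.Agent.H363Z

universe u

variable {A : Type u} {P : Pres A}

/-- equality modulo the presentation -/
def eqv (P : Pres A) : Setoid (List A) where
  r x y := ∃ g, Arr P x g y
  iseqv := ⟨fun x => ⟨1, Arr.refl x⟩, fun ⟨g, h⟩ => ⟨g⁻¹, h.inv⟩,
    fun ⟨g, h⟩ ⟨g', h'⟩ => ⟨g * g', h.mul h'⟩⟩

/-- chosen representatives -/
noncomputable def nf (P : Pres A) (x : List A) : List A := (Quotient.mk (eqv P) x).out

theorem nf_eq {x y : List A} {g : UG P} (h : Arr P x g y) : nf P x = nf P y := by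
  unfold nf
  rw [Quotient.sound (s := eqv P) ⟨g, h⟩]

theorem exists_arr_nf (x : List A) : ∃ g, Arr P x g (nf P x) :=
  (eqv P).symm (Quotient.mk_out (s := eqv P) x)

/-- chosen arrows to the representatives -/
noncomputable def kap (P : Pres A) (x : List A) : UG P := (exists_arr_nf (P := P) x).choose

theorem kap_arr (x : List A) : Arr P x (kap P x) (nf P x) := (exists_arr_nf (P := P) x).choose_spec

/-- reading a word from left to right -/
noncomputable def fin (P : Pres A) (s : List A) : List A → List A
  | [] => s
  | x :: v => fin P (nf P (s ++ [x])) v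

/-- the arrow that reads a word from left to right -/
noncomputable def run (P : Pres A) (s : List A) : List A → UG P
  | [] => 1
  | x :: v => ctx P [] v (kap P (s ++ [x])) * run P (nf P (s ++ [x])) v

theorem run_arr (s v : List A) : Arr P (s ++ v) (run P s v) (fin P s v) := by
  induction v generalizing s with
  | nil => simpa [run, fin] using Arr.refl s
  | cons x v ih =>
    refine Arr.mul (((kap_arr (s ++ [x])).ctx [] v).of_eq ?_ ?_) (ih (nf P (s ++ [x])))
    · simp
    · simp

theorem fin_append (s v v' : List A) : fin P s (v ++ v') = fin P (fin P s v) v' := by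
  induction v generalizing s with
  | nil => rfl
  | cons x v ih => exact ih _

theorem run_append (s v v' : List A) :
    run P s (v ++ v') = ctx P [] v' (run P s v) * run P (fin P s v) v' := by
  induction v generalizing s with
  | nil => simp [run, fin]
  | cons x v ih =>
    simp only [List.cons_append, run, fin, ih, map_mul, ctx_ctx, List.nil_append, mul_assoc]

theorem nf_nf (x : List A) : nf P (nf P x) = nf P x := (nf_eq (kap_arr x)).symm

theorem fin_eq_nf (s : List A) {v : List A} (hv : v ≠ []) : fin P s v = nf P (s ++ v) := by
  obtain ⟨v', x, rfl⟩ := List.eq_nil_or_concat v |>.resolve_left hv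
  rw [List.concat_eq_append, fin_append]
  change nf P (fin P s v' ++ [x]) = _
  have := ((run_arr (P := P) s v').ctx [] [x])
  have h2 := (nf_eq this).symm
  simpa only [List.nil_append, List.append_assoc] using h2

theorem fin_rel {u v : List A} (h : (u, v) ∈ P.rel) (s b : List A) :
    fin P s (u ++ b) = fin P s (v ++ b) := by
  have hu : u ++ b ≠ [] := by simp [(P.ne_nil _ h).1]
  have hv : v ++ b ≠ [] := by simp [(P.ne_nil _ h).2]
  rw [fin_eq_nf s hu, fin_eq_nf s hv, ← List.append_assoc, ← List.append_assoc]
  exact nf_eq (Arr.gen h s b)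

/-- the loop attached to a relation applied after a normalised word -/
noncomputable def mu (P : Pres A) (s u v : List A) : UG P :=
  (run P s u)⁻¹ * gen P s u v [] * run P s v

theorem mu_arr {u v : List A} (h : (u, v) ∈ P.rel) (s : List A) :
    Arr P (fin P s u) (mu P s u v) (fin P s u) := by
  have h1 := fin_rel h s []
  simp only [List.append_nil] at h1
  refine (((run_arr s u).inv.mul ((Arr.gen h s []).of_eq ?_ ?_)).mul (run_arr s v)).of_eq rfl
    h1.symm <;> simp

theorem gen_decomp {u v : List A} (h : (u, v) ∈ P.rel) (a b : List A) :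
    gen P a u v b = run P [] (a ++ u ++ b) *
      ((run P (fin P (fin P [] a) u) b)⁻¹ * ctx P [] b (mu P (fin P [] a) u v) *
        run P (fin P (fin P [] a) u) b) * (run P [] (a ++ v ++ b))⁻¹ := by
  have h1 := fin_rel h (fin P [] a) []
  simp only [List.append_nil] at h1
  have h2 := interchange₀ (run_arr (P := P) [] a) (Arr.gen h [] b)
  simp only [List.nil_append, ctx_gen, List.append_nil] at h2
  rw [List.append_assoc, List.append_assoc, run_append, run_append, run_append, run_append, ← h1]
  unfold mu
  simp only [map_mul, map_inv, ctx_gen, List.nil_append]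
  rw [eq_mul_inv_iff_mul_eq, ← mul_assoc, ← h2]
  group

theorem of_ctx_suf {t b b' : List A} {m h : UG P} (hm : Arr P t m t) (hb : Arr P b h b') :
    Abelianization.of (ctx P [] b m) = Abelianization.of (ctx P [] b' m) := by
  have := congrArg Abelianization.of (interchange₀ hm hb)
  rw [map_mul, map_mul, mul_comm] at this
  exact mul_left_cancel this

/-- index set of the free abelian group -/
abbrev Idx (A : Type u) : Type u := List A ⊕ (List A × List A × List A × List A)

/-- boundary and hyperplane class -/
noncomputable def theta (P : Pres A) : UG P →* Multiplicative (Idx A →₀ ℤ) :=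
  UG.lift (fun a u v b => Multiplicative.ofAdd
    (Finsupp.single (Sum.inl (a ++ u ++ b)) 1 - Finsupp.single (Sum.inl (a ++ v ++ b)) 1 +
      Finsupp.single (Sum.inr (fin P [] a, u, v, nf P b)) 1)) (by
    intro u v p q h h' a b c
    have e1 : nf P (b ++ p ++ c) = nf P (b ++ q ++ c) := nf_eq (Arr.gen h' b c)
    have e2 : fin P [] (a ++ v ++ b) = fin P [] (a ++ u ++ b) := by
      rw [List.append_assoc, List.append_assoc, fin_append, fin_append [] a (u ++ b),
        fin_rel h]
    simp only [← ofAdd_add, e1, e2]
    simp only [List.append_assoc]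
    congr 1
    abel)

/-- values of the left inverse -/
noncomputable def xiV (P : Pres A) : Idx A → Additive (Abelianization (UG P))
  | Sum.inl x => Additive.ofMul (Abelianization.of (run P [] x))
  | Sum.inr (s, u, v, b) => Additive.ofMul (Abelianization.of (ctx P [] b (mu P s u v)))

/-- the left inverse -/
noncomputable def xi (P : Pres A) : Multiplicative (Idx A →₀ ℤ) →* Abelianization (UG P) :=
  AddMonoidHom.toMultiplicativeLeft (Finsupp.linearCombination ℤ (xiV P)).toAddMonoidHom

theorem xi_theta (g : UG P) : xi P (theta P g) = Abelianization.of g := by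
  have : (xi P).comp (theta P) = Abelianization.of := by
    apply UG.hom_ext
    intro a u v b h
    rw [MonoidHom.comp_apply]
    unfold theta
    rw [UG.lift_gen _ _ h]
    conv_rhs => rw [gen_decomp h a b]
    obtain ⟨k, hk⟩ := exists_arr_nf (P := P) b
    simp only [map_mul, map_inv, of_ctx_suf (mu_arr h (fin P [] a)) hk]
    simp [xi, xiV, div_eq_mul_inv, mul_comm, mul_left_comm, mul_assoc]
  exact DFunLike.congr_fun this g

theorem UG.torsionFree {g : UG P} {n : ℕ} (hn : n ≠ 0) (h : g ^ n ∈ commutator (UG P)) :
    g ∈ commutator (UG P) := by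
  have h1 : theta P (g ^ n) = 1 := Abelianization.commutator_subset_ker _ h
  have h2 : theta P g = 1 := by
    rw [map_pow] at h1
    have h3 : n • (theta P g).toAdd = 0 := by
      rw [← toAdd_pow, h1, toAdd_one]
    rcases smul_eq_zero.1 h3 with h4 | h4
    · exact absurd h4 hn
    · exact Multiplicative.toAdd.injective h4
  have h3 := xi_theta g
  rw [h2, map_one] at h3
  rw [← Abelianization.ker_of]
  exact h3.symm

/-- The abelianisation of a diagram group is torsion free. -/
theorem DiagramGroup.torsionFree {w : List A} {g : DiagramGroup P w} {n : ℕ} (hn : n ≠ 0)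
    (h : g ^ n ∈ commutator (DiagramGroup P w)) : g ∈ commutator (DiagramGroup P w) := by
  have h1 : toU P w g ^ n ∈ commutator (UG P) := by
    rw [← map_pow]
    have := Subgroup.mem_map_of_mem (toU P w) h
    rw [commutator, Subgroup.map_commutator] at this
    exact Subgroup.commutator_mono le_top le_top this
  have h2 := Subgroup.mem_map_of_mem (ret P w) (UG.torsionFree hn h1)
  rw [ret_toU, commutator, Subgroup.map_commutator] at h2
  exact Subgroup.commutator_mono le_top le_top h2

/-- A group with torsion in its abelianisation is not a diagram group. -/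
theorem not_diagram {G : Type*} [Group G] {g : G} {n : ℕ} (hn : n ≠ 0)
    (h : g ^ n ∈ commutator G) (h' : g ∉ commutator G) (w : List A) :
    IsEmpty (G ≃* DiagramGroup P w) := by
  refine ⟨fun e => h' ?_⟩
  have h1 : e g ^ n ∈ commutator (DiagramGroup P w) := by
    rw [← map_pow]
    have := Subgroup.mem_map_of_mem e.toMonoidHom h
    rw [commutator, Subgroup.map_commutator] at this
    exact Subgroup.commutator_mono le_top le_top this
  have h2 := Subgroup.mem_map_of_mem e.symm.toMonoidHom (DiagramGroup.torsionFree hn h1)
  rw [commutator, Subgroup.map_commutator] at h2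
  have h3 := Subgroup.commutator_mono le_top le_top h2
  simpa [commutator] using h3

end Pool.Agent.H363Z
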