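import Pool.Agent.H363Z.BurDefs
import Pool.Agent.H363Z.TorsionFree

set_option autoImplicit false

/-!
Decorated words: a model of the universal cover of the Squier complex.
-/

namespace Pool.Agent.H363Z

universe u

variable {A : Type u} {P : Pres A}

/-- labels of cells -/
abbrev Lab (A : Type u) : Type u := List A × List A × List A × List A

/-- the label of an edge -/
noncomputable def lab (P : Pres A) (e : Step A) : Lab A := (nf P e.pre, e.lhs, e.rhs, nf P e.suf)

/-- the word read by an edge -/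
def Step.sp (e : Step A) : List A := cond e.fwd e.lhs e.rhs

/-- the word written by an edge -/
def Step.tp (e : Step A) : List A := cond e.fwd e.rhs e.lhs

theorem Step.src_eq (e : Step A) : e.src = e.pre ++ e.sp ++ e.suf := rfl

theorem Step.tgt_eq (e : Step A) : e.tgt = e.pre ++ e.tp ++ e.suf := rfl

theorem sp_ne {e : Step A} (he : (e.lhs, e.rhs) ∈ P.rel) : e.sp ≠ [] := by
  have := P.ne_nil _ he
  unfold Step.sp; cases e.fwd; exacts [this.2, this.1]

theorem tp_ne {e : Step A} (he : (e.lhs, e.rhs) ∈ P.rel) : e.tp ≠ [] := by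
  have := P.ne_nil _ he
  unfold Step.tp; cases e.fwd; exacts [this.1, this.2]

theorem nf_cond {p q : List A} (h : (p, q) ∈ P.rel) (b c : List A) (t : Bool) :
    nf P (b ++ cond t p q ++ c) = nf P (b ++ cond t q p ++ c) :=
  nf_eq (Arr.st (e := ⟨b, p, q, c, t⟩) h)

theorem swap_path {l l' : List (Step A)} (h : Swap l l') {x y : List A} :
    IsPath P x l y ↔ IsPath P x l' y := by
  rcases h with ⟨l, r, a, u, v, b, p, q, c, s, t⟩
  constructor
  · intro h
    obtain ⟨z, k1, k2⟩ := h.split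
    obtain ⟨rfl, k3, k4⟩ := k2.cons_inv
    obtain ⟨-, k5, k6⟩ := k4.cons_inv
    have := sq_path₂ k3 k5 a b c s t
    simp only [Step.src, Step.tgt, List.append_assoc] at this k1 k6 ⊢
    exact k1.append (this.append k6)
  · intro h
    obtain ⟨z, k1, k2⟩ := h.split
    obtain ⟨rfl, k3, k4⟩ := k2.cons_inv
    obtain ⟨-, k5, k6⟩ := k4.cons_inv
    have := sq_path₁ k5 k3 a b c s t
    simp only [Step.src, Step.tgt, List.append_assoc] at this k1 k6 ⊢
    exact k1.append (this.append k6)

theorem eqv_swap {l l' : List (Step A)} (h : Relation.EqvGen Swap l l') {x y : List A} :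
    (IsPath P x l y ↔ IsPath P x l' y) ∧ l.length = l'.length ∧
      (IsPath P x l y → ev P l = ev P l') := by
  induction h with
  | rel l l' h =>
    refine ⟨swap_path h, ?_, fun hl => ev_swap hl.valid h⟩
    rcases h with ⟨l, r, a, u, v, b, p, q, c, s, t⟩
    simp
  | refl l => exact ⟨Iff.rfl, rfl, fun _ => rfl⟩
  | symm l l' _ ih => exact ⟨ih.1.symm, ih.2.1.symm, fun h => (ih.2.2 (ih.1.2 h)).symm⟩
  | trans l l' l'' _ _ ih ih' =>
    exact ⟨ih.1.trans ih'.1, ih.2.1.trans ih'.2.1, fun h => (ih.2.2 h).trans (ih'.2.2 (ih.1.1 h))⟩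

theorem eqv_right {l l' : List (Step A)} (h : Relation.EqvGen Swap l l') (m : List (Step A)) :
    Relation.EqvGen Swap (l ++ m) (l' ++ m) := by
  induction h with
  | rel l l' h =>
    rcases h with ⟨l, r, a, u, v, b, p, q, c, s, t⟩
    refine Relation.EqvGen.rel _ _ ?_
    simpa only [List.append_assoc, List.cons_append] using Swap.mk l (r ++ m) a u v b p q c s t
  | refl l => exact Relation.EqvGen.refl _
  | symm l l' _ ih => exact ih.symm _ _
  | trans l l' l'' _ _ ih ih' => exact ih.trans _ _ _ ih'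

theorem exists_reduced {w : List A} (g : DiagramGroup P w) :
    ∃ γ : Loop P w, Reduced γ.1 ∧ DiagramGroup.mk γ = g := by
  classical
  have hex : ∃ n, ∃ γ : Loop P w, γ.1.length = n ∧ DiagramGroup.mk γ = g := by
    obtain ⟨γ⟩ := g
    exact ⟨_, γ, rfl, rfl⟩
  obtain ⟨γ, h1, h2⟩ := Nat.find_spec hex
  refine ⟨γ, ?_, h2⟩
  rintro _ h p q e rfl
  obtain ⟨k1, k2, k3⟩ := eqv_swap (P := P) h (x := w) (y := w)
  obtain ⟨z, a1, a2⟩ := (k1.1 γ.2).split
  obtain ⟨rfl, -, a3⟩ := a2.cons_inv
  obtain ⟨-, -, a4⟩ := a3.cons_inv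
  rw [e.rev_tgt] at a4
  have := Nat.find_min' hex ⟨⟨p ++ q, a1.append a4⟩, rfl, by
    rw [← h2]
    apply toU_injective
    rw [toU_mk, toU_mk, k3 γ.2]
    simp [st_rev]⟩
  rw [← h1, k2] at this
  simp at this

/-- histories of letters -/
inductive Hist (A : Type u)
  | base
  | nil
  | cons (x : A) (h t : Hist A)
  | cell (κ : Lab A) (f : Bool) (k : ℕ) (inp : Hist A)

/-- decorated words -/
abbrev St (A : Type u) : Type u := List (A × Hist A)

/-- coding a decorated word -/
def enc : St A → Hist A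
  | [] => Hist.nil
  | x :: s => Hist.cons x.1 x.2 (enc s)

theorem enc_inj : ∀ {s t : St A}, enc s = enc t → s = t
  | [], [], _ => rfl
  | [], _ :: _, h => by simp [enc] at h
  | _ :: _, [], h => by simp [enc] at h
  | x :: s, y :: t, h => by
    simp only [enc, Hist.cons.injEq] at h
    rw [Prod.ext h.1 h.2.1, enc_inj h.2.2]

/-- output letters of a cell -/
def outs (κ : Lab A) (f : Bool) (inp : Hist A) : ℕ → List A → St A
  | _, [] => []
  | k, x :: v => (x, Hist.cell κ f k inp) :: outs κ f inp (k + 1) v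

theorem outs_fst (κ : Lab A) (f : Bool) (inp : Hist A) :
    ∀ (k : ℕ) (v : List A), (outs κ f inp k v).map Prod.fst = v
  | _, [] => rfl
  | k, x :: v => by simp [outs, outs_fst κ f inp (k + 1) v]

theorem outs_len (κ : Lab A) (f : Bool) (inp : Hist A) (k : ℕ) (v : List A) :
    (outs κ f inp k v).length = v.length := by
  rw [← List.length_map Prod.fst, outs_fst]

theorem outs_get (κ : Lab A) (f : Bool) (inp : Hist A) : ∀ (k : ℕ) (v : List A) (i : ℕ)
    (x : A × Hist A), (outs κ f inp k v)[i]? = some x → x.2 = Hist.cell κ f (k + i) inp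
  | _, [], _, _, h => by simp [outs] at h
  | k, y :: v, 0, x, h => by
    simp only [outs, List.getElem?_cons_zero, Option.some.injEq] at h
    rw [← h]; rfl
  | k, y :: v, i + 1, x, h => by
    simp only [outs, List.getElem?_cons_succ] at h
    rw [outs_get κ f inp (k + 1) v i x h]
    congr 1
    omega

theorem outs_inj {κ : Lab A} {f : Bool} {i j : Hist A} {v : List A} (hv : v ≠ [])
    (h : outs κ f i 0 v = outs κ f j 0 v) : i = j := by
  cases v with
  | nil => exact absurd rfl hv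
  | cons x v => simp only [outs, List.cons.injEq, Prod.mk.injEq, Hist.cell.injEq] at h; exact h.1.2.2.2.2

/-- the block is the output of the inverse cell -/
def Ann (κ : Lab A) (f : Bool) (s t : St A) : Prop :=
  s = outs κ (!f) (enc t) 0 (cond f κ.2.1 κ.2.2.1) ∧ t.map Prod.fst = cond f κ.2.2.1 κ.2.1

open Classical in
/-- the local action -/
noncomputable def loc (κ : Lab A) (f : Bool) (s : St A) : St A :=
  if h : ∃ t, Ann κ f s t then h.choose else outs κ f (enc s) 0 (cond f κ.2.2.1 κ.2.1)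

theorem loc_ann {κ : Lab A} {f : Bool} {s t : St A} (hu : cond f κ.2.1 κ.2.2.1 ≠ [])
    (h : Ann κ f s t) : loc κ f s = t := by
  have h' : ∃ t, Ann κ f s t := ⟨t, h⟩
  rw [loc, dif_pos h']
  exact enc_inj (outs_inj hu (h'.choose_spec.1.symm.trans h.1))

theorem loc_cre {κ : Lab A} {f : Bool} {s : St A} (h : ¬ ∃ t, Ann κ f s t) :
    loc κ f s = outs κ f (enc s) 0 (cond f κ.2.2.1 κ.2.1) := by
  rw [loc, dif_neg h]

theorem loc_fst (κ : Lab A) (f : Bool) (s : St A) :
    (loc κ f s).map Prod.fst = cond f κ.2.2.1 κ.2.1 := by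
  unfold loc
  split_ifs with h
  · exact h.choose_spec.2
  · exact outs_fst ..

/-- reduced histories -/
def Val : Hist A → Prop
  | Hist.base => True
  | Hist.nil => True
  | Hist.cons _ h t => Val h ∧ Val t
  | Hist.cell κ f _ inp => Val inp ∧ ∀ s t, inp = enc s → ¬ Ann κ f s t

theorem val_append (s t : St A) : Val (enc (s ++ t)) ↔ Val (enc s) ∧ Val (enc t) := by
  induction s with
  | nil => simp [enc, Val]
  | cons x s ih => simp [enc, Val, ih, and_assoc]

theorem val_outs {κ : Lab A} {f : Bool} {inp : Hist A} (h : Val (Hist.cell κ f 0 inp)) :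
    ∀ (k : ℕ) (v : List A), Val (enc (outs κ f inp k v))
  | _, [] => trivial
  | k, _ :: v => ⟨h, val_outs h (k + 1) v⟩

theorem val_of_outs {κ : Lab A} {f : Bool} {inp : Hist A} {v : List A} (hv : v ≠ [])
    (h : Val (enc (outs κ f inp 0 v))) : Val (Hist.cell κ f 0 inp) := by
  cases v with
  | nil => exact absurd rfl hv
  | cons x v => exact h.1

theorem loc_val {κ : Lab A} {f : Bool} {s : St A} (hu : cond f κ.2.1 κ.2.2.1 ≠ [])
    (hs : Val (enc s)) : Val (enc (loc κ f s)) := by
  by_cases h : ∃ t, Ann κ f s t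
  · obtain ⟨t, h⟩ := h
    rw [loc_ann hu h]
    rw [h.1] at hs
    exact (val_of_outs hu hs).1
  · rw [loc_cre h]
    exact val_outs ⟨hs, fun s' t e h' => h ⟨t, enc_inj e ▸ h'⟩⟩ _ _

theorem loc_loc {κ : Lab A} {f : Bool} {s : St A} (hu : cond f κ.2.1 κ.2.2.1 ≠ [])
    (hv : cond f κ.2.2.1 κ.2.1 ≠ []) (hs : Val (enc s))
    (hs' : s.map Prod.fst = cond f κ.2.1 κ.2.2.1) : loc κ (!f) (loc κ f s) = s := by
  by_cases h : ∃ t, Ann κ f s t
  · obtain ⟨t, h⟩ := h
    rw [loc_ann hu h]
    have h1 := h.1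
    rw [h1] at hs
    rw [loc_cre (fun ⟨t', h'⟩ => (val_of_outs hu hs).2 t t' rfl h'), h1]
    cases f <;> rfl
  · rw [loc_cre h]
    refine loc_ann (by cases f <;> exact hv) ⟨?_, ?_⟩
    · cases f <;> rfl
    · cases f <;> exact hs'

/-- the part of a decorated word read by an edge -/
def mid (e : Step A) (s : St A) : St A := (s.drop e.pre.length).take e.sp.length

variable (P) in
/-- the action of an edge -/
noncomputable def act (s : St A) (e : Step A) : St A :=
  s.take e.pre.length ++ loc (lab P e) e.fwd (mid e s) ++ s.drop (e.pre.length + e.sp.length)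

theorem mid_eq {e : Step A} {s1 s2 : St A} (s3 : St A) (h1 : s1.map Prod.fst = e.pre)
    (h2 : s2.map Prod.fst = e.sp) : mid e (s1 ++ s2 ++ s3) = s2 := by
  rw [mid, ← h1, ← h2]; simp

theorem act_eq {e : Step A} {s1 s2 : St A} (s3 : St A) (h1 : s1.map Prod.fst = e.pre)
    (h2 : s2.map Prod.fst = e.sp) :
    act P (s1 ++ s2 ++ s3) e = s1 ++ loc (lab P e) e.fwd s2 ++ s3 := by
  rw [act, mid_eq s3 h1 h2, ← h1, ← h2]
  simp [List.drop_append]

theorem split_st {s : St A} {a b c : List A} (h : s.map Prod.fst = a ++ b ++ c) :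
    ∃ s1 s2 s3, s = s1 ++ s2 ++ s3 ∧ s1.map Prod.fst = a ∧ s2.map Prod.fst = b ∧
      s3.map Prod.fst = c := by
  obtain ⟨s', s3, rfl, h1, h3⟩ := List.map_eq_append_iff.1 h
  obtain ⟨s1, s2, rfl, h1, h2⟩ := List.map_eq_append_iff.1 h1
  exact ⟨s1, s2, s3, rfl, h1, h2, h3⟩

/-- decorated word over a given word -/
def Over (s : St A) (x : List A) : Prop := s.map Prod.fst = x ∧ Val (enc s)

theorem Over.act {s : St A} {e : Step A} (he : (e.lhs, e.rhs) ∈ P.rel) (h : Over s e.src) :
    Over (act P s e) e.tgt := by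
  obtain ⟨s1, s2, s3, rfl, h1, h2, h3⟩ := split_st h.1
  rw [act_eq s3 h1 h2]
  have hv := h.2
  rw [val_append, val_append] at hv
  refine ⟨by simp [h1, h3, loc_fst, Step.tgt, lab], ?_⟩
  rw [val_append, val_append]
  exact ⟨⟨hv.1.1, loc_val (sp_ne he) hv.1.2⟩, hv.2⟩

theorem Over.acts {s : St A} {x y : List A} {l : List (Step A)} (hl : IsPath P x l y)
    (h : Over s x) : Over (l.foldl (Pool.Agent.H363Z.act P) s) y := by
  induction hl generalizing s with
  | nil x => exact h
  | cons e l y he _ ih => exact ih (h.act he)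

theorem acts_move {s : St A} {x y : List A} {l l' : List (Step A)} (hl : IsPath P x l y)
    (h : Over s x) (hm : Move l l') : l.foldl (act P) s = l'.foldl (act P) s := by
  rcases hm with ⟨_, _, ⟨l, r, a, u, v, b, p, q, c, f, t⟩⟩ | ⟨l, r, e⟩
  · obtain ⟨z, k1, k2⟩ := hl.split
    obtain ⟨rfl, k3, k4⟩ := k2.cons_inv
    obtain ⟨-, k5, -⟩ := k4.cons_inv
    simp only [List.foldl_append, List.foldl_cons]
    congr 1
    have h1 := (h.acts k1).1
    generalize l.foldl (act P) s = s' at h1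
    obtain ⟨s1, s2, s', rfl, e1, e2, e3⟩ := split_st h1
    obtain ⟨s3, s4, s5, rfl, e3, e4, e5⟩ := split_st e3
    have l1 : lab P ⟨a, u, v, b ++ cond t q p ++ c, f⟩ = lab P ⟨a, u, v, b ++ cond t p q ++ c, f⟩ := by
      simp only [lab, nf_cond k5 b c t]
    have l2 : lab P ⟨a ++ cond f v u ++ b, p, q, c, t⟩ = lab P ⟨a ++ cond f u v ++ b, p, q, c, t⟩ := by
      simp only [lab, nf_cond k3 a b f]
    rw [act_eq (e := ⟨a, u, v, b ++ cond t p q ++ c, f⟩) _ e1 e2]
    have a1 := act_eq (P := P) (e := ⟨a ++ cond f v u ++ b, p, q, c, t⟩)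
      (s1 := s1 ++ loc (lab P ⟨a, u, v, b ++ cond t p q ++ c, f⟩) f s2 ++ s3) s5
      (by simp [e1, e3, loc_fst, lab]) e4
    have a2 := act_eq (P := P) (e := ⟨a ++ cond f u v ++ b, p, q, c, t⟩)
      (s1 := s1 ++ s2 ++ s3) s5 (by simp [e1, e2, e3]) e4
    have a3 := act_eq (P := P) (e := ⟨a, u, v, b ++ cond t q p ++ c, f⟩)
      (s3 ++ loc (lab P ⟨a ++ cond f u v ++ b, p, q, c, t⟩) t s4 ++ s5) e1 e2
    simp only [List.append_assoc] at a1 a2 a3 l1 l2 ⊢
    rw [a1, a2, a3, l1, l2]
  · obtain ⟨z, k1, k2⟩ := hl.split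
    obtain ⟨rfl, k3, -⟩ := k2.cons_inv
    simp only [List.foldl_append, List.foldl_cons]
    congr 1
    have h1 := h.acts k1
    generalize l.foldl (act P) s = s' at h1
    obtain ⟨s1, s2, s3, rfl, e1, e2, e3⟩ := split_st h1.1
    have hv := h1.2
    rw [val_append, val_append] at hv
    rw [act_eq (e := e) _ e1 e2, act_eq (e := e.rev) _ e1 (by
      rw [loc_fst]; rcases e with ⟨_, _, _, _, _ | _⟩ <;> rfl)]
    congr 2
    exact loc_loc (sp_ne k3) (tp_ne k3) hv.1.2 e2

/-- the initial decoration -/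
def init (w : List A) : St A := w.map (fun x => (x, Hist.base))

theorem init_over (w : List A) : Over (init w) w := by
  refine ⟨by simp [init, Function.comp_def], ?_⟩
  induction w with
  | nil => trivial
  | cons x w ih => exact ⟨trivial, ih⟩

theorem acts_eq {w : List A} {γ δ : Loop P w} (h : DiagramGroup.mk γ = DiagramGroup.mk δ) :
    γ.1.foldl (act P) (init w) = δ.1.foldl (act P) (init w) :=
  congrArg (Quot.lift (fun γ : Loop P w => γ.1.foldl (act P) (init w))
    (fun γ _ h => acts_move γ.2 (init_over w) h)) h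

end Pool.Agent.H363Z
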