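import Pool.Agent.H363Z.BurA

set_option autoImplicit false

/-!
Reduced diagrams are minimal and their cells occur in every equivalent diagram.
-/

namespace Pool.Agent.H363Z

universe u

variable {A : Type u} {P : Pres A}

/-- labels occurring in a history -/
def labs : Hist A → Set (Lab A)
  | Hist.base => ∅
  | Hist.nil => ∅
  | Hist.cons _ h t => labs h ∪ labs t
  | Hist.cell κ _ _ inp => insert κ (labs inp)

/-- number of cells in a history -/
def wt : Hist A → ℕ
  | Hist.base => 0
  | Hist.nil => 0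
  | Hist.cons _ h t => wt h + wt t
  | Hist.cell _ _ k inp => if k = 0 then wt inp + 1 else 0

theorem labs_append (s t : St A) : labs (enc (s ++ t)) = labs (enc s) ∪ labs (enc t) := by
  induction s with
  | nil => simp [enc, labs]
  | cons x s ih => simp [enc, labs, ih, Set.union_assoc]

theorem wt_append (s t : St A) : wt (enc (s ++ t)) = wt (enc s) + wt (enc t) := by
  induction s with
  | nil => simp [enc, wt]
  | cons x s ih => simp [enc, wt, ih, add_assoc]

theorem labs_outs (κ : Lab A) (f : Bool) (inp : Hist A) : ∀ (k : ℕ) {v : List A}, v ≠ [] →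
    labs (enc (outs κ f inp k v)) = insert κ (labs inp)
  | _, [], h => absurd rfl h
  | _, [_], _ => by simp [outs, enc, labs]
  | k, x :: y :: v, _ => by
    have := labs_outs κ f inp (k + 1) (v := y :: v) (by simp)
    rw [outs, enc, labs, this]
    simp [labs]

theorem wt_outs_succ (κ : Lab A) (f : Bool) (inp : Hist A) : ∀ (k : ℕ) (v : List A),
    wt (enc (outs κ f inp (k + 1) v)) = 0
  | _, [] => rfl
  | k, x :: v => by simp [outs, enc, wt, wt_outs_succ κ f inp (k + 1) v]

theorem wt_outs (κ : Lab A) (f : Bool) (inp : Hist A) {v : List A} (hv : v ≠ []) :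
    wt (enc (outs κ f inp 0 v)) = wt inp + 1 := by
  cases v with
  | nil => exact absurd rfl hv
  | cons x v => simp [outs, enc, wt, wt_outs_succ]

variable (P) in
/-- the edge creates a new cell -/
def Cre (s : St A) (e : Step A) : Prop := ¬ ∃ t, Ann (lab P e) e.fwd (mid e s) t

theorem act_bound {s : St A} {e : Step A} (he : (e.lhs, e.rhs) ∈ P.rel) (h : Over s e.src) :
    wt (enc (act P s e)) ≤ wt (enc s) + 1 ∧
      labs (enc (act P s e)) ⊆ insert (lab P e) (labs (enc s)) ∧
      (Cre P s e → wt (enc (act P s e)) = wt (enc s) + 1 ∧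
        labs (enc (act P s e)) = insert (lab P e) (labs (enc s))) := by
  obtain ⟨s1, s2, s3, rfl, h1, h2, h3⟩ := split_st h.1
  have hc : Cre P (s1 ++ s2 ++ s3) e →
      wt (enc (act P (s1 ++ s2 ++ s3) e)) = wt (enc (s1 ++ s2 ++ s3)) + 1 ∧
      labs (enc (act P (s1 ++ s2 ++ s3) e)) = insert (lab P e) (labs (enc (s1 ++ s2 ++ s3))) := by
    intro hc
    rw [Cre, mid_eq s3 h1 h2] at hc
    have hv : cond e.fwd (lab P e).2.2.1 (lab P e).2.1 ≠ [] := tp_ne he
    rw [act_eq s3 h1 h2, loc_cre hc]
    simp only [wt_append, labs_append, wt_outs _ _ _ hv, labs_outs _ _ _ _ hv]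
    refine ⟨by omega, ?_⟩
    ext κ
    simp only [Set.mem_union, Set.mem_insert_iff]
    tauto
  by_cases hc' : Cre P (s1 ++ s2 ++ s3) e
  · exact ⟨(hc hc').1.le, (hc hc').2.subset, hc⟩
  · refine ⟨?_, ?_, hc⟩ <;>
    · rw [Cre, mid_eq s3 h1 h2, not_not] at hc'
      obtain ⟨t, ht⟩ := hc'
      have hu : cond e.fwd (lab P e).2.1 (lab P e).2.2.1 ≠ [] := sp_ne he
      rw [act_eq s3 h1 h2, loc_ann hu ht, ht.1]
      simp only [wt_append, labs_append, wt_outs _ _ _ hu, labs_outs _ _ _ _ hu]
      first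
        | omega
        | (intro κ; simp only [Set.mem_union, Set.mem_insert_iff]; tauto)

theorem acts_bound {s : St A} {x y : List A} {l : List (Step A)} (hl : IsPath P x l y)
    (h : Over s x) : wt (enc (l.foldl (act P) s)) ≤ wt (enc s) + l.length ∧
      ∀ κ ∈ labs (enc (l.foldl (act P) s)), κ ∈ labs (enc s) ∨ ∃ e ∈ l, lab P e = κ := by
  induction hl generalizing s with
  | nil x => exact ⟨le_rfl, fun κ h => Or.inl h⟩
  | cons e l y he _ ih =>
    obtain ⟨h1, h2⟩ := ih (h.act he)
    obtain ⟨h3, h4, -⟩ := act_bound he h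
    refine ⟨by simp only [List.foldl_cons, List.length_cons]; omega, fun κ hκ => ?_⟩
    rcases h2 κ hκ with h5 | ⟨e', h5, h6⟩
    · rcases h4 h5 with rfl | h5
      · exact Or.inr ⟨e, by simp, rfl⟩
      · exact Or.inl h5
    · exact Or.inr ⟨e', by simp [h5], h6⟩

variable (P) in
/-- all edges create new cells -/
def AllCre : St A → List (Step A) → Prop
  | _, [] => True
  | s, e :: l => Cre P s e ∧ AllCre (act P s e) l

theorem allCre_snoc (s : St A) (l : List (Step A)) (e : Step A) :
    AllCre P s (l ++ [e]) ↔ AllCre P s l ∧ Cre P (l.foldl (act P) s) e := by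
  induction l generalizing s with
  | nil => simp [AllCre]
  | cons f l ih => simp [AllCre, ih, and_assoc]

theorem acts_cre {s : St A} {x y : List A} {l : List (Step A)} (hl : IsPath P x l y)
    (h : Over s x) (hc : AllCre P s l) :
    wt (enc (l.foldl (act P) s)) = wt (enc s) + l.length ∧
      labs (enc s) ⊆ labs (enc (l.foldl (act P) s)) ∧
      ∀ e ∈ l, lab P e ∈ labs (enc (l.foldl (act P) s)) := by
  induction hl generalizing s with
  | nil x => exact ⟨rfl, subset_rfl, by simp⟩
  | cons e l y he _ ih =>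
    obtain ⟨h1, h2, h3⟩ := ih (h.act he) hc.2
    obtain ⟨h4, h5⟩ := (act_bound he h).2.2 hc.1
    rw [h5] at h2
    refine ⟨by simp only [List.foldl_cons, List.length_cons]; omega,
      (Set.subset_insert _ _).trans h2, fun e' he' => ?_⟩
    rcases List.mem_cons.1 he' with rfl | he'
    · exact h2 (Set.mem_insert _ _)
    · exact h3 e' he'

theorem split3 {α : Type u} {r1 O r3 s1 O' s3 : List α} (hO : O ≠ []) (hO' : O' ≠ [])
    (h : r1 ++ O ++ r3 = s1 ++ O' ++ s3) :
    (∃ m, s1 = r1 ++ O ++ m ∧ r3 = m ++ O' ++ s3) ∨ (∃ m, r1 = s1 ++ O' ++ m ∧ s3 = m ++ O ++ r3) ∨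
    ∃ i j x, O[i]? = some x ∧ O'[j]? = some x ∧ r1.length + i = s1.length + j := by
  by_cases h1 : (r1 ++ O).length ≤ s1.length
  · left
    rw [List.append_assoc s1] at h
    rcases List.append_eq_append_iff.1 h with ⟨m, e1, e2⟩ | ⟨m, e1, e2⟩
    · exact ⟨m, e1, by rw [e2, List.append_assoc]⟩
    · have : m = [] := by
        rw [e1, List.length_append] at h1
        exact List.length_eq_zero_iff.1 (by omega)
      subst this
      exact ⟨[], by simpa using e1.symm, by simpa using e2.symm⟩
  by_cases h2 : (s1 ++ O').length ≤ r1.length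
  · right; left
    rw [List.append_assoc r1] at h
    rcases List.append_eq_append_iff.1 h.symm with ⟨m, e1, e2⟩ | ⟨m, e1, e2⟩
    · exact ⟨m, e1, by rw [e2, List.append_assoc]⟩
    · have : m = [] := by
        rw [e1, List.length_append] at h2
        exact List.length_eq_zero_iff.1 (by omega)
      subst this
      exact ⟨[], by simpa using e1.symm, by simpa using e2.symm⟩
  right; right
  rw [List.length_append] at h1 h2
  have l1 := List.length_pos_iff.2 hO
  have l2 := List.length_pos_iff.2 hO'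
  have key : ∀ {r O t : List α} {i : ℕ}, i < O.length → (r ++ O ++ t)[r.length + i]? = O[i]? := by
    intro r O t i hi
    rw [List.append_assoc, List.getElem?_append_right (by omega), Nat.add_sub_cancel_left,
      List.getElem?_append_left hi]
  have a1 := key (r := r1) (t := r3) (O := O) (i := max r1.length s1.length - r1.length) (by omega)
  have a2 := key (r := s1) (t := s3) (O := O') (i := max r1.length s1.length - s1.length)
    (by omega)
  have e : r1.length + (max r1.length s1.length - r1.length) =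
      s1.length + (max r1.length s1.length - s1.length) := by omega
  rw [h, e, a2] at a1
  have hi : max r1.length s1.length - r1.length < O.length := by omega
  exact ⟨_, _, O[max r1.length s1.length - r1.length], List.getElem?_eq_getElem hi,
    a1.trans (List.getElem?_eq_getElem hi), e⟩

theorem snoc_inv {x y : List A} {l : List (Step A)} {e : Step A} (h : IsPath P x (l ++ [e]) y) :
    IsPath P x l e.src ∧ (e.lhs, e.rhs) ∈ P.rel ∧ y = e.tgt := by
  obtain ⟨z, k1, k2⟩ := h.split
  obtain ⟨rfl, k3, k4⟩ := k2.cons_inv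
  exact ⟨k1, k3, k4.nil_inv.symm⟩

theorem pull {w : List A} (κ : Lab A) (f : Bool) (inp : Hist A)
    (hv : cond f κ.2.2.1 κ.2.1 ≠ []) (l : List (Step A)) : ∀ {y : List A} {s1 s3 : St A},
    IsPath P w l y → AllCre P (init w) l →
    l.foldl (act P) (init w) = s1 ++ outs κ f inp 0 (cond f κ.2.2.1 κ.2.1) ++ s3 →
    ∃ l', Relation.EqvGen Swap l
      (l' ++ [⟨s1.map Prod.fst, κ.2.1, κ.2.2.1, s3.map Prod.fst, f⟩]) := by
  induction l using List.reverseRecOn with
  | nil =>
    intro y s1 s3 _ _ h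
    exfalso
    obtain ⟨x, v, hx⟩ := List.exists_cons_of_ne_nil hv
    rw [hx] at h
    have : (x, Hist.cell κ f 0 inp) ∈ init w := by
      rw [List.foldl_nil] at h
      rw [h]; simp [outs]
    simp [init] at this
  | append_singleton l g ih =>
    intro y s1 s3 hl hc h
    obtain ⟨k1, k2, -⟩ := snoc_inv hl
    obtain ⟨c1, c2⟩ := (allCre_snoc _ _ _).1 hc
    rw [List.foldl_append, List.foldl_cons, List.foldl_nil] at h
    obtain ⟨r1, r2, r3, e0, e1, e2, e3⟩ := split_st ((init_over w).acts k1).1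
    rw [e0] at h c2
    rw [Cre, mid_eq r3 e1 e2] at c2
    rw [act_eq r3 e1 e2, loc_cre c2] at h
    have hg : cond g.fwd (lab P g).2.2.1 (lab P g).2.1 ≠ [] := tp_ne k2
    have n1 : outs (lab P g) g.fwd (enc r2) 0 (cond g.fwd (lab P g).2.2.1 (lab P g).2.1) ≠ [] := by
      rw [← List.length_pos_iff, outs_len, List.length_pos_iff]; exact hg
    have n2 : outs κ f inp 0 (cond f κ.2.2.1 κ.2.1) ≠ [] := by
      rw [← List.length_pos_iff, outs_len, List.length_pos_iff]; exact hv
    rcases g with ⟨a, u, v, b, t⟩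
    simp only [Step.sp] at e1 e2 e3
    subst e1 e3
    rcases split3 n1 n2 h with ⟨m, rfl, rfl⟩ | ⟨m, rfl, rfl⟩ | ⟨i, j, x, h1, h2, h3⟩
    · obtain ⟨l', hl'⟩ := ih (s1 := r1 ++ r2 ++ m) (s3 := s3) k1 c1 (by simp [e0])
      refine ⟨l' ++ [⟨r1.map Prod.fst, u, v,
        m.map Prod.fst ++ cond f κ.2.1 κ.2.2.1 ++ s3.map Prod.fst, t⟩],
        (eqv_right hl' _).trans _ _ _ (Relation.EqvGen.symm _ _ (Relation.EqvGen.rel _ _ ?_))⟩
      have := Swap.mk l' [] (r1.map Prod.fst) u v (m.map Prod.fst) κ.2.1 κ.2.2.1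
        (s3.map Prod.fst) t f
      simpa [outs_fst, e2, lab] using this
    · obtain ⟨l', hl'⟩ := ih (s1 := s1) (s3 := m ++ r2 ++ r3) k1 c1 (by simp [e0])
      refine ⟨l' ++ [⟨s1.map Prod.fst ++ cond f κ.2.1 κ.2.2.1 ++ m.map Prod.fst, u, v,
        r3.map Prod.fst, t⟩], (eqv_right hl' _).trans _ _ _ (Relation.EqvGen.rel _ _ ?_)⟩
      have := Swap.mk l' [] (s1.map Prod.fst) κ.2.1 κ.2.2.1 (m.map Prod.fst) u v
        (r3.map Prod.fst) f t
      simpa [outs_fst, e2, lab] using this
    · have := (outs_get _ _ _ _ _ _ _ h1).symm.trans (outs_get _ _ _ _ _ _ _ h2)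
      simp only [Hist.cell.injEq, zero_add] at this
      obtain ⟨rfl, rfl, rfl, rfl⟩ := this
      rw [List.append_assoc, List.append_assoc] at h
      obtain ⟨rfl, h4⟩ := List.append_inj h (by omega)
      obtain rfl := List.append_cancel_left h4
      exact ⟨l, Relation.EqvGen.refl _⟩

theorem Reduced.allCre {w : List A} (l : List (Step A)) : ∀ {y : List A}, IsPath P w l y →
    Reduced l → AllCre P (init w) l := by
  induction l using List.reverseRecOn with
  | nil => intros; trivial
  | append_singleton l e ih =>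
    intro y hl hr
    obtain ⟨k1, k2, -⟩ := snoc_inv hl
    have hr' : Reduced l := fun l' h p q e' he => hr _ (eqv_right h [e]) p (q ++ [e]) e' (by
      rw [he]; simp)
    have c1 := ih k1 hr'
    refine (allCre_snoc _ _ _).2 ⟨c1, ?_⟩
    rintro ⟨t, ht⟩
    obtain ⟨r1, r2, r3, e0, e1, e2, e3⟩ := split_st ((init_over w).acts k1).1
    rw [e0, mid_eq r3 e1 e2] at ht
    have hu : cond (!e.fwd) (lab P e).2.2.1 (lab P e).2.1 = cond e.fwd e.lhs e.rhs := by
      cases e.fwd <;> rfl
    obtain ⟨l', hl'⟩ := pull (lab P e) (!e.fwd) (enc t) (by rw [hu]; exact sp_ne k2) l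
      (s1 := r1) (s3 := r3) k1 c1 (by rw [e0, ht.1, hu]; rfl)
    refine hr _ (eqv_right hl' [e]) l' [] e.rev ?_
    rw [e.rev_rev, e1, e3]
    simp [lab, Step.rev]

theorem init_wt (w : List A) : wt (enc (init w)) = 0 ∧ labs (enc (init w)) = ∅ := by
  induction w with
  | nil => exact ⟨rfl, rfl⟩
  | cons x w ih =>
    have e : init (x :: w) = (x, Hist.base) :: init w := rfl
    simp [e, enc, wt, labs, ih.1, ih.2]

theorem reduced_min {w : List A} {γ δ : Loop P w} (hr : Reduced γ.1)
    (h : DiagramGroup.mk γ = DiagramGroup.mk δ) :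
    γ.1.length ≤ δ.1.length ∧ ∀ e ∈ γ.1, ∃ e' ∈ δ.1, lab P e' = lab P e := by
  obtain ⟨h1, -, h2⟩ := acts_cre γ.2 (init_over w) (Reduced.allCre _ γ.2 hr)
  obtain ⟨h3, h4⟩ := acts_bound δ.2 (init_over w)
  rw [acts_eq h] at h1 h2
  refine ⟨by omega, fun e he => (h4 _ (h2 e he)).resolve_left ?_⟩
  rw [(init_wt w).2]
  exact fun h => h

end Pool.Agent.H363Z
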