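import Pool.Agent.H363Z.BurB

set_option autoImplicit false

/-!
The word length is bounded by a multiple of the number of cells.
-/

namespace Pool.Agent.H363Z

universe u

variable {A : Type u} {P : Pres A}

/-- leftmost cells come first -/
def Srt (l : List (Step A)) : Prop :=
  l.IsChain (fun e e' => e.pre.length < e'.pre.length + e'.sp.length)

theorem ins {y : List A} (l : List (Step A)) : ∀ (e : Step A), IsPath P e.src (e :: l) y → Srt l →
    ∃ l', IsPath P e.src l' y ∧ Srt l' ∧ ev P l' = ev P (e :: l) ∧ l'.length = l.length + 1 ∧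
      (∀ e' ∈ l', ∃ e'' ∈ e :: l, lab P e'' = lab P e') ∧
      ∀ h ∈ l'.head?, h = e ∨ ∃ h0 ∈ l.head?, h.pre = h0.pre ∧ h.sp = h0.sp := by
  induction l with
  | nil =>
    intro e he _
    exact ⟨[e], he, List.isChain_singleton _, rfl, rfl, fun e' h => ⟨e', h, rfl⟩,
      fun h hh => Or.inl (by simpa using hh.symm)⟩
  | cons f l ih =>
    intro e he hs
    by_cases hc : e.pre.length < f.pre.length + f.sp.length
    · exact ⟨e :: f :: l, he, List.isChain_cons_cons.2 ⟨hc, hs⟩, rfl, rfl,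
        fun e' h => ⟨e', h, rfl⟩, fun h hh => Or.inl (by simpa using hh.symm)⟩
    obtain ⟨-, k1, k2⟩ := he.cons_inv
    obtain ⟨k3, k4, k5⟩ := k2.cons_inv
    rcases e with ⟨pe, p, q, c, t⟩
    rcases f with ⟨a, u, v, sf, s⟩
    simp only [Step.src, Step.tgt, Step.sp] at hc k1 k3 k4 k5
    obtain ⟨b, rfl, rfl⟩ : ∃ b, pe = a ++ cond s u v ++ b ∧ sf = b ++ cond t q p ++ c := by
      rw [List.append_assoc pe] at k3
      rcases List.append_eq_append_iff.1 k3 with ⟨m, e1, e2⟩ | ⟨m, e1, e2⟩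
      · have : m = [] := by
          have := congrArg List.length e1
          simp only [List.length_append] at this
          exact List.length_eq_zero_iff.1 (by omega)
        subst this
        exact ⟨[], by simpa using e1.symm, by simpa using e2.symm⟩
      · exact ⟨m, e1, by rw [e2, List.append_assoc]⟩
    have hp : IsPath P (Step.src ⟨a ++ cond s v u ++ b, p, q, c, t⟩)
        (⟨a ++ cond s v u ++ b, p, q, c, t⟩ :: l) y :=
      IsPath.cons _ _ _ k1 (by simpa [Step.tgt] using k5)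
    obtain ⟨l', h1, h2, h3, h4, h5, h6⟩ := ih _ hp (List.IsChain.tail hs)
    refine ⟨⟨a, u, v, b ++ cond t p q ++ c, s⟩ :: l', ?_, ?_, ?_, by simp [h4], ?_, ?_⟩
    · have := IsPath.cons (P := P) ⟨a, u, v, b ++ cond t p q ++ c, s⟩ l' y k4
        (by simpa [Step.tgt, Step.src] using h1)
      simpa [Step.src] using this
    · rw [Srt, List.isChain_cons]
      refine ⟨fun h hh => ?_, h2⟩
      rcases h6 h hh with rfl | ⟨h0, hh0, e1, e2⟩
      · have := List.length_pos_iff.2 (sp_ne (P := P)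
          (e := ⟨a ++ cond s v u ++ b, p, q, c, t⟩) k1)
        simp only [List.length_append]
        omega
      · rw [e1, e2]
        exact (List.isChain_cons.1 hs).1 h0 hh0
    · rw [ev_cons, h3, ev_cons, ev_cons, ev_cons, ← mul_assoc, ← mul_assoc, st_sq k4 k1]
    · intro e' he'
      rcases List.mem_cons.1 he' with rfl | he'
      · exact ⟨⟨a, u, v, b ++ cond t q p ++ c, s⟩, by simp, by simp only [lab, nf_cond k1 b c t]⟩
      · obtain ⟨e'', m1, m2⟩ := h5 e' he'
        rcases List.mem_cons.1 m1 with rfl | m1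
        · exact ⟨⟨a ++ cond s u v ++ b, p, q, c, t⟩, by simp, by
            rw [← m2]; simp only [lab, nf_cond k4 a b s]⟩
        · exact ⟨e'', by simp [m1], m2⟩
    · intro h hh
      obtain rfl : _ = h := by simpa using hh
      exact Or.inr ⟨_, rfl, rfl, rfl⟩

theorem exists_srt {x y : List A} {l : List (Step A)} (h : IsPath P x l y) :
    ∃ l', IsPath P x l' y ∧ Srt l' ∧ ev P l' = ev P l ∧ l'.length = l.length ∧
      ∀ e' ∈ l', ∃ e ∈ l, lab P e = lab P e' := by
  induction h with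
  | nil x => exact ⟨[], IsPath.nil x, List.isChain_nil, rfl, rfl, by simp⟩
  | cons e l y he _ ih =>
    obtain ⟨l1, h1, h2, h3, h4, h5⟩ := ih
    obtain ⟨l2, k1, k2, k3, k4, k5, -⟩ := ins l1 e (IsPath.cons e l1 y he h1) h2
    refine ⟨l2, k1, k2, by simp [k3, h3], by simp [k4, h4], fun e' he' => ?_⟩
    obtain ⟨e'', m1, m2⟩ := k5 e' he'
    rcases List.mem_cons.1 m1 with rfl | m1
    · exact ⟨e'', by simp, m2⟩
    · obtain ⟨e3, m3, m4⟩ := h5 e'' m1
      exact ⟨e3, by simp [m3], m4.trans m2⟩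

theorem nf_nil : nf P [] = [] := by
  obtain ⟨l, hl, -⟩ := kap_arr (P := P) []
  cases l with
  | nil => exact hl.nil_inv.symm
  | cons e l =>
    obtain ⟨h1, h2, -⟩ := hl.cons_inv
    have := sp_ne h2
    rw [Step.src_eq] at h1
    simp [this] at h1

theorem fin_nil (u : List A) : fin P [] u = nf P u := by
  by_cases h : u = []
  · subst h; rw [nf_nil]; rfl
  · rw [fin_eq_nf [] h]; rfl

theorem nf_left (a b : List A) : nf P (nf P a ++ b) = nf P (a ++ b) :=
  (nf_eq ((kap_arr a).ctx [] b)).symm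

theorem nf_right (a b : List A) : nf P (a ++ nf P b) = nf P (a ++ b) := by
  simpa using (nf_eq ((kap_arr (P := P) b).ctx a [])).symm

theorem ll_arr (u : List A) : Arr P u (run P [] u) (nf P u) := fin_nil (P := P) u ▸ run_arr [] u

theorem ll_snoc (u : List A) (x : A) :
    run P [] (u ++ [x]) = ctx P [] [x] (run P [] u) * kap P (nf P u ++ [x]) := by
  rw [run_append, fin_nil]; simp [run, ctx_nil]

variable (P) in
/-- reading a word from right to left -/
noncomputable def rrun (s : List A) : List A → UG P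
  | [] => 1
  | a :: x => ctx P [a] [] (rrun s x) * kap P (a :: nf P (x ++ s))

theorem rr_arr (v : List A) : Arr P v (rrun P [] v) (nf P v) := by
  induction v with
  | nil => rw [nf_nil]; exact Arr.refl _
  | cons a v ih =>
    refine ((ih.ctx [a] []).of_eq (by simp) (by simp)).mul ((kap_arr _).of_eq rfl ?_)
    simpa using nf_right (P := P) [a] v

theorem rr_append (x v : List A) :
    rrun P [] (x ++ v) = ctx P x [] (rrun P [] v) * rrun P (nf P v) x := by
  induction x with
  | nil => simp [rrun, ctx_nil]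
  | cons a x ih => simp [rrun, ih, ctx_ctx, nf_right, mul_assoc]

variable (P) in
/-- the canonical path attached to a cut -/
noncomputable def cut (u v : List A) : UG P :=
  ctx P [] v (run P [] u) * ctx P (nf P u) [] (rrun P [] v) * kap P (nf P u ++ nf P v)

variable (P) in
/-- the element attached to a cell label -/
noncomputable def cE (κ : Lab A) : UG P :=
  (kap P (κ.1 ++ nf P (κ.2.1 ++ κ.2.2.2)))⁻¹ * ctx P κ.1 [] ((rrun P κ.2.2.2 κ.2.1)⁻¹ *
    gen P [] κ.2.1 κ.2.2.1 κ.2.2.2 * rrun P κ.2.2.2 κ.2.2.1) * kap P (κ.1 ++ nf P (κ.2.2.1 ++ κ.2.2.2))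

variable (P) in
/-- the element attached to a letter label -/
noncomputable def dE (m : List A) (x : A) (m' : List A) : UG P :=
  (kap P (m ++ nf P (x :: m')))⁻¹ * (ctx P m [] (kap P (x :: m')))⁻¹ *
    ctx P [] m' (kap P (m ++ [x])) * kap P (nf P (m ++ [x]) ++ m')

theorem cut_cell {u v : List A} (h : (u, v) ∈ P.rel) (a b : List A) :
    (cut P a (u ++ b))⁻¹ * gen P a u v b * cut P a (v ++ b) = cE P (nf P a, u, v, nf P b) := by
  have h1 := interchange₀ (ll_arr a) (Arr.gen h [] b)
  have h2 := congrArg (ctx P (nf P a) []) (interchange₀ (Arr.gen h [] []) (rr_arr b))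
  simp only [List.nil_append, List.append_nil, ctx_gen, map_mul, ctx_ctx] at h1 h2
  simp only [cut, cE, rr_append, map_mul, map_inv, ctx_ctx, ctx_gen, nf_right, List.append_nil]
  rw [← inv_mul_eq_iff_eq_mul] at h2
  rw [← h2]
  have h3 : gen P a u v b = ctx P [] (u ++ b) (run P [] a) * gen P (nf P a) u v b *
      (ctx P [] (v ++ b) (run P [] a))⁻¹ := by rw [h1]; group
  rw [h3]
  group

theorem cut_move (a : List A) (x : A) (b : List A) :
    (cut P a (x :: b))⁻¹ * cut P (a ++ [x]) b = dE P (nf P a) x (nf P b) := by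
  have h1 := interchange₀ (kap_arr (P := P) (nf P a ++ [x])) (rr_arr b)
  have e1 : nf P (x :: nf P b) = nf P (x :: b) := nf_right [x] b
  simp only [cut, dE, ll_snoc, rrun, map_mul, ctx_ctx, nf_left, e1, List.append_nil,
    List.nil_append, List.cons_append] at h1 ⊢
  rw [mul_assoc _ (ctx P [] b _), h1]
  group

theorem mem_split {x y a b : List A} {c : A} (h : x ++ y = a ++ c :: b) :
    (∃ m, a = x ++ m ∧ y = m ++ c :: b) ∨ ∃ m, x = a ++ c :: m ∧ b = m ++ y := by
  rcases List.append_eq_append_iff.1 h with ⟨m, e1, e2⟩ | ⟨m, e1, e2⟩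
  · exact Or.inl ⟨m, e1, e2⟩
  · cases m with
    | nil => exact Or.inl ⟨[], by simpa using e1.symm, by simpa using e2.symm⟩
    | cons d m =>
      simp only [List.cons_append, List.cons.injEq] at e2
      obtain ⟨rfl, rfl⟩ := e2
      exact Or.inr ⟨m, e1, rfl⟩

theorem exists_bound (u : List A) : ∀ f : List A → A → List A → ℕ,
    ∃ M, ∀ a c b, u = a ++ c :: b → f a c b ≤ M := by
  induction u with
  | nil => exact fun f => ⟨0, fun a c b h => by simp at h⟩
  | cons x u ih =>
    intro f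
    obtain ⟨M, hM⟩ := ih (fun a => f (x :: a))
    refine ⟨max M (f [] x u), fun a c b h => ?_⟩
    cases a with
    | nil =>
      simp only [List.nil_append, List.cons.injEq] at h
      obtain ⟨rfl, rfl⟩ := h
      exact le_max_right _ _
    | cons y a =>
      simp only [List.cons_append, List.cons.injEq] at h
      obtain ⟨rfl, rfl⟩ := h
      exact (hM a c b rfl).trans (le_max_left _ _)

section bound

variable (N : UG P → ℕ) (hmul : ∀ g h, N (g * h) ≤ N g + N h) (hinv : ∀ g, N g⁻¹ = N g)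
  (hone : N 1 = 0) (M : ℕ)

/-- all letters of the word have small cost -/
def OKw (x : List A) : Prop := ∀ a c b, x = a ++ c :: b → N (dE P (nf P a) c (nf P b)) ≤ M

/-- the cell label has small cost -/
def OKl (κ : Lab A) : Prop := N (cE P κ) ≤ M ∧ κ.2.1.length ≤ M ∧ κ.2.2.1.length ≤ M ∧
  (∀ a c b, κ.2.1 = a ++ c :: b → N (dE P (nf P (κ.1 ++ a)) c (nf P (b ++ κ.2.2.2))) ≤ M) ∧
  (∀ a c b, κ.2.2.1 = a ++ c :: b → N (dE P (nf P (κ.1 ++ a)) c (nf P (b ++ κ.2.2.2))) ≤ M)

theorem OKw.step {e : Step A} (he : (e.lhs, e.rhs) ∈ P.rel) (h : OKw N M e.src)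
    (h' : OKl N M (lab P e)) : OKw N M e.tgt := by
  intro a c b hx
  have hnf : ∀ p s, nf P (p ++ e.sp ++ s) = nf P (p ++ e.tp ++ s) := fun p s =>
    nf_cond he p s e.fwd
  rw [Step.tgt_eq] at hx
  rw [Step.src_eq] at h
  rcases mem_split hx with ⟨m, rfl, e2⟩ | ⟨m, e1, rfl⟩
  · rw [← hnf]
    exact h _ c b (by rw [e2]; simp)
  · rcases mem_split e1 with ⟨n, rfl, e3⟩ | ⟨n, e3, rfl⟩
    · rw [← nf_left, ← nf_right m]
      unfold Step.tp at e3
      cases hf : e.fwd <;> rw [hf] at e3
      · exact h'.2.2.2.1 n c m e3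
      · exact h'.2.2.2.2 n c m e3
    · rw [← hnf]
      exact h a c _ (by rw [e3]; simp)

theorem OKl.mono {κ : Lab A} {M' : ℕ} (h : OKl N M κ) (hM : M ≤ M') : OKl N M' κ :=
  ⟨h.1.trans hM, h.2.1.trans hM, h.2.2.1.trans hM, fun a c b e => (h.2.2.2.1 a c b e).trans hM,
    fun a c b e => (h.2.2.2.2 a c b e).trans hM⟩

theorem exists_OKl (κ : Lab A) : ∃ M, OKl N M κ := by
  obtain ⟨M1, h1⟩ := exists_bound κ.2.1
    (fun a c b => N (dE P (nf P (κ.1 ++ a)) c (nf P (b ++ κ.2.2.2))))
  obtain ⟨M2, h2⟩ := exists_bound κ.2.2.1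
    (fun a c b => N (dE P (nf P (κ.1 ++ a)) c (nf P (b ++ κ.2.2.2))))
  exact ⟨N (cE P κ) + κ.2.1.length + κ.2.2.1.length + M1 + M2, by omega, by omega, by omega,
    fun a c b e => (h1 a c b e).trans (by omega), fun a c b e => (h2 a c b e).trans (by omega)⟩

include hmul hone in
theorem head_move (m : List A) : ∀ a b : List A, OKw N M (a ++ m ++ b) →
    N ((cut P a (m ++ b))⁻¹ * cut P (a ++ m) b) ≤ M * m.length := by
  induction m with
  | nil => intro a b _; simp [hone]
  | cons x m ih =>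
    intro a b h
    have h1 := ih (a ++ [x]) b (by simpa using h)
    have h2 := h a x (m ++ b) (by simp)
    rw [← cut_move] at h2
    have h3 := hmul ((cut P a (x :: (m ++ b)))⁻¹ * cut P (a ++ [x]) (m ++ b))
      ((cut P (a ++ [x]) (m ++ b))⁻¹ * cut P (a ++ [x] ++ m) b)
    rw [mul_assoc, mul_inv_cancel_left] at h3
    simp only [List.append_assoc, List.cons_append, List.nil_append, List.length_cons] at *
    rw [Nat.mul_succ]
    omega

include hmul hinv hone in
theorem head_move' {a b a' b' : List A} (e : a ++ b = a' ++ b') (h : OKw N M (a ++ b)) {k : ℕ}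
    (hk : a.length ≤ a'.length + k) :
    N ((cut P a b)⁻¹ * cut P a' b') + M * a.length ≤ M * a'.length + 2 * (M * k) := by
  rcases List.append_eq_append_iff.1 e with ⟨m, rfl, rfl⟩ | ⟨m, rfl, rfl⟩
  · have := head_move N hmul hone M m a b' (by simpa using h)
    rw [List.length_append, Nat.mul_add]
    omega
  · have := head_move N hmul hone M m a' b h
    rw [← hinv, mul_inv_rev, inv_inv] at this
    rw [List.length_append] at hk
    have h2 := Nat.mul_le_mul_left M (show m.length ≤ k by omega)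
    rw [List.length_append, Nat.mul_add]
    omega

include hmul hinv hone in
theorem main_bound {x y : List A} {l : List (Step A)} (hl : IsPath P x l y) :
    Srt l → (∀ e ∈ l, OKl N M (lab P e)) → OKw N M x → ∀ a b, x = a ++ b →
      (∀ e ∈ l.head?, a.length ≤ e.pre.length + M) →
      N ((cut P a b)⁻¹ * ev P l * cut P [] y) + M * a.length ≤
        l.length * (M + 2 * (M * M)) + 2 * (M * y.length) := by
  induction hl with
  | nil x =>
    rintro - - hw a b rfl -
    have := head_move' N hmul hinv hone M (a := a) (b := b) (a' := []) (b' := a ++ b) rfl hw (k := (a ++ b).length)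
      (by simp)
    simpa using this
  | cons e l y he hl ih =>
    intro hs hk hw a b hx hh
    have k1 := hk e (by simp)
    have h1 := ih (List.IsChain.tail hs) (fun e' h => hk e' (by simp [h])) (hw.step N M he k1)
      e.pre (e.tp ++ e.suf) (by simp [Step.tgt_eq]) (fun e' h' => by
        have h2 := (List.isChain_cons.1 hs).1 e' h'
        have h3 := hk e' (by simp [List.mem_of_mem_head? h'])
        have h4 : e'.sp.length ≤ M := by
          unfold Step.sp; cases e'.fwd; exacts [h3.2.2.1, h3.2.1]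
        omega)
    have h2 := head_move' N hmul hinv hone M (a' := e.pre) (b' := e.sp ++ e.suf)
      (by rw [← hx]; simp [Step.src_eq]) (hx ▸ hw) (hh e rfl)
    have h3 : N ((cut P e.pre (e.sp ++ e.suf))⁻¹ * st P e * cut P e.pre (e.tp ++ e.suf)) ≤ M := by
      have := cut_cell he e.pre e.suf
      have k2 : N (cE P (nf P e.pre, e.lhs, e.rhs, nf P e.suf)) ≤ M := k1.1
      rw [← this] at k2
      rcases e with ⟨p, u, v, s, _ | _⟩
      · rw [← hinv] at k2
        simpa [st, Step.sp, Step.tp, mul_assoc] using k2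
      · exact k2
    have h4 := hmul ((cut P a b)⁻¹ * cut P e.pre (e.sp ++ e.suf))
      (((cut P e.pre (e.sp ++ e.suf))⁻¹ * st P e * cut P e.pre (e.tp ++ e.suf)) *
        ((cut P e.pre (e.tp ++ e.suf))⁻¹ * ev P l * cut P [] y))
    have h5 := hmul ((cut P e.pre (e.sp ++ e.suf))⁻¹ * st P e * cut P e.pre (e.tp ++ e.suf))
      ((cut P e.pre (e.tp ++ e.suf))⁻¹ * ev P l * cut P [] y)
    have e1 : (cut P a b)⁻¹ * cut P e.pre (e.sp ++ e.suf) *
      (((cut P e.pre (e.sp ++ e.suf))⁻¹ * st P e * cut P e.pre (e.tp ++ e.suf)) *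
        ((cut P e.pre (e.tp ++ e.suf))⁻¹ * ev P l * cut P [] y)) =
        (cut P a b)⁻¹ * ev P (e :: l) * cut P [] y := by rw [ev_cons]; group
    rw [e1] at h4
    rw [List.length_cons, Nat.succ_mul]
    omega

end bound

section word

variable {G : Type u} [Group G] {S : Set G}

theorem wl_le {l : List G} (h : ∀ x ∈ l, x ∈ S ∨ x⁻¹ ∈ S) : wordLen S l.prod ≤ l.length :=
  Nat.sInf_le ⟨l, h, rfl, rfl⟩

theorem wl_spec (hS : Subgroup.closure S = ⊤) (g : G) :
    ∃ l : List G, (∀ x ∈ l, x ∈ S ∨ x⁻¹ ∈ S) ∧ l.prod = g ∧ l.length = wordLen S g := by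
  have h1 : g ∈ (Subgroup.closure S).toSubmonoid := by rw [hS]; trivial
  rw [Subgroup.closure_toSubmonoid] at h1
  obtain ⟨l, h2, h3⟩ := Submonoid.exists_list_of_mem_closure h1
  exact Nat.sInf_mem (s := {n | ∃ l : List G, (∀ x ∈ l, x ∈ S ∨ x⁻¹ ∈ S) ∧ l.prod = g ∧
    l.length = n}) ⟨_, l, h2, h3, rfl⟩

theorem wl_mul (hS : Subgroup.closure S = ⊤) (g h : G) :
    wordLen S (g * h) ≤ wordLen S g + wordLen S h := by
  obtain ⟨l, h1, h2, h3⟩ := wl_spec hS g
  obtain ⟨l', h4, h5, h6⟩ := wl_spec hS h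
  rw [← h3, ← h6, ← h2, ← h5, ← List.prod_append, ← List.length_append]
  exact wl_le (fun x hx => (List.mem_append.1 hx).elim (h1 x) (h4 x))

theorem wl_inv (hS : Subgroup.closure S = ⊤) (g : G) : wordLen S g⁻¹ = wordLen S g := by
  have key : ∀ g : G, wordLen S g⁻¹ ≤ wordLen S g := by
    intro g
    obtain ⟨l, h1, h2, h3⟩ := wl_spec hS g
    rw [← h3, ← h2, List.prod_inv_reverse]
    refine (wl_le (fun x hx => ?_)).trans (by simp)
    obtain ⟨y, hy, rfl⟩ := List.mem_map.1 (List.mem_reverse.1 hx)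
    rw [inv_inv]
    exact (h1 y hy).symm
  exact le_antisymm (key g) (by simpa using key g⁻¹)

theorem wl_one : wordLen S (1 : G) = 0 := Nat.le_zero.1 (wl_le (l := []) (by simp))

end word

theorem burillo_nat {w : List A} (S : Finset (DiagramGroup P w))
    (hS : Subgroup.closure (S : Set (DiagramGroup P w)) = ⊤) :
    ∃ C : ℕ, ∀ γ : Loop P w, Reduced γ.1 →
      wordLen (S : Set (DiagramGroup P w)) (DiagramGroup.mk γ) ≤ C * γ.1.length ∧
      γ.1.length ≤ C * wordLen (S : Set (DiagramGroup P w)) (DiagramGroup.mk γ) := by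
  classical
  let N : UG P → ℕ := fun g => wordLen (S : Set (DiagramGroup P w)) (ret P w g)
  have hmul : ∀ g h, N (g * h) ≤ N g + N h := fun g h => by
    simp only [N, map_mul]; exact wl_mul hS _ _
  have hinv : ∀ g, N g⁻¹ = N g := fun g => by simp only [N, map_inv]; exact wl_inv hS _
  have hone : N 1 = 0 := by simp only [N, map_one]; exact wl_one
  have hpath : ∀ l : List (Step A), ∃ M, l.length ≤ M ∧ ∀ e ∈ l, OKl N M (lab P e) := by
    intro l
    induction l with
    | nil => exact ⟨0, le_rfl, by simp⟩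
    | cons e l ih =>
      obtain ⟨M, h1, h2⟩ := ih
      obtain ⟨M', h3⟩ := exists_OKl N (lab P e)
      refine ⟨M + M' + 1, by simp; omega, fun e' he' => ?_⟩
      rcases List.mem_cons.1 he' with rfl | he'
      · exact h3.mono N _ (by omega)
      · exact (h2 e' he').mono N _ (by omega)
  have hgen : ∀ T : Finset (DiagramGroup P w), ∃ M, ∀ s ∈ T, ∃ δ : Loop P w,
      DiagramGroup.mk δ = s ∧ δ.1.length ≤ M ∧ ∀ e ∈ δ.1, OKl N M (lab P e) := by
    intro T
    induction T using Finset.induction_on with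
    | empty => exact ⟨0, by simp⟩
    | insert s T _ ih =>
      obtain ⟨M, hM⟩ := ih
      obtain ⟨δ⟩ := s
      obtain ⟨M', h1, h2⟩ := hpath δ.1
      refine ⟨M + M', fun s hs => ?_⟩
      rcases Finset.mem_insert.1 hs with rfl | hs
      · exact ⟨δ, rfl, by omega, fun e he => (h2 e he).mono N _ (by omega)⟩
      · obtain ⟨δ', k1, k2, k3⟩ := hM s hs
        exact ⟨δ', k1, by omega, fun e he => (k3 e he).mono N _ (by omega)⟩
  obtain ⟨M0, hM0⟩ := hgen S
  obtain ⟨M1, hM1⟩ := exists_bound w (fun a c b => N (dE P (nf P a) c (nf P b)))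
  have hword : ∀ l : List (DiagramGroup P w), (∀ x ∈ l, x ∈ (S : Set _) ∨ x⁻¹ ∈ (S : Set _)) →
      ∃ δ : Loop P w, DiagramGroup.mk δ = l.prod ∧ δ.1.length ≤ M0 * l.length ∧
        ∀ e ∈ δ.1, OKl N M0 (lab P e) := by
    intro l
    induction l with
    | nil => exact fun _ => ⟨⟨[], IsPath.nil w⟩, rfl, by simp, by simp⟩
    | cons x l ih =>
      intro h
      obtain ⟨δ, k1, k2, k3⟩ := ih (fun y hy => h y (by simp [hy]))
      obtain ⟨δ', k4, k5, k6⟩ : ∃ δ : Loop P w, DiagramGroup.mk δ = x ∧ δ.1.length ≤ M0 ∧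
          ∀ e ∈ δ.1, OKl N M0 (lab P e) := by
        rcases h x (by simp) with hx | hx
        · exact hM0 x hx
        · obtain ⟨δ', k4, k5, k6⟩ := hM0 _ hx
          refine ⟨⟨revPath δ'.1, δ'.2.rev⟩, ?_, by simpa [revPath] using k5, fun e he => ?_⟩
          · rw [← inv_inv x, ← k4]; rfl
          · obtain ⟨e', h1, rfl⟩ := List.mem_map.1 (List.mem_reverse.1 he)
            exact k6 e' h1
      refine ⟨DiagramGroup.cat δ' δ, by rw [← DiagramGroup.mk_mul, k1, k4, List.prod_cons], ?_, ?_⟩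
      · simp only [DiagramGroup.cat, List.length_append, List.length_cons, Nat.mul_succ]
        omega
      · exact fun e he => (List.mem_append.1 he).elim (k6 e) (k3 e)
  set M := M0 + M1 with hM
  refine ⟨M0 + (M + 2 * (M * M)) + 2 * (M * w.length) + 2 * N (cut P [] w), fun γ hγ => ?_⟩
  obtain ⟨l, h1, h2, h3⟩ := wl_spec hS (DiagramGroup.mk γ)
  obtain ⟨δ, k1, k2, k3⟩ := hword l h1
  obtain ⟨k4, k5⟩ := reduced_min hγ (h2.symm.trans k1.symm)
  constructor
  · obtain ⟨l', a1, a2, a3, a4, a5⟩ := exists_srt γ.2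
    have a6 := main_bound N hmul hinv hone M a1 a2 (fun e he => by
      obtain ⟨e1, b1, b2⟩ := a5 e he
      obtain ⟨e2, b3, b4⟩ := k5 e1 b1
      rw [← b2, ← b4]
      exact (k3 e2 b3).mono N _ (by omega))
      (fun a c b e => (hM1 a c b e).trans (by omega)) [] w rfl (by simp)
    have a7 : N (ev P γ.1) = wordLen (S : Set (DiagramGroup P w)) (DiagramGroup.mk γ) := by
      simp only [N, ← toU_mk, ret_toU]
    rw [← a7]
    cases hn : γ.1 with
    | nil => simp [hone]
    | cons e l0 =>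
      rw [← hn]
      have a8 : 1 ≤ γ.1.length := by rw [hn]; simp
      have b1 := hmul (cut P [] w * ((cut P [] w)⁻¹ * ev P l' * cut P [] w)) (cut P [] w)⁻¹
      have b2 := hmul (cut P [] w) ((cut P [] w)⁻¹ * ev P l' * cut P [] w)
      have b3 : cut P [] w * ((cut P [] w)⁻¹ * ev P l' * cut P [] w) * (cut P [] w)⁻¹ =
        ev P γ.1 := by rw [a3]; group
      rw [b3, hinv] at b1
      rw [a4] at a6
      have b4 := Nat.le_mul_of_pos_right (2 * (M * w.length) + 2 * N (cut P [] w)) a8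
      rw [add_assoc, add_assoc, add_mul, add_mul, mul_comm (M + _)]
      omega
  · rw [← h3]
    exact (k4.trans k2).trans (Nat.mul_le_mul_right _ (by omega))

theorem burillo {w : List A} (S : Finset (DiagramGroup P w))
    (hS : Subgroup.closure (S : Set (DiagramGroup P w)) = ⊤) :
    ∃ C : ℝ, 1 ≤ C ∧ ∀ g : DiagramGroup P w,
      (∃ γ : Loop P w, Reduced γ.1 ∧ DiagramGroup.mk γ = g) ∧
      ∀ γ : Loop P w, Reduced γ.1 → DiagramGroup.mk γ = g →
        C⁻¹ * (wordLen (S : Set (DiagramGroup P w)) g : ℝ) ≤ γ.1.length ∧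
        (γ.1.length : ℝ) ≤ C * (wordLen (S : Set (DiagramGroup P w)) g : ℝ) := by
  obtain ⟨C, hC⟩ := burillo_nat S hS
  refine ⟨C + 1, by simp, fun g => ⟨exists_reduced g, ?_⟩⟩
  rintro γ hγ rfl
  obtain ⟨h1, h2⟩ := hC γ hγ
  have h1' : (wordLen (S : Set (DiagramGroup P w)) (DiagramGroup.mk γ) : ℝ) ≤ C * γ.1.length := by
    exact_mod_cast h1
  have h2' : (γ.1.length : ℝ) ≤ C * wordLen (S : Set (DiagramGroup P w)) (DiagramGroup.mk γ) := by
    exact_mod_cast h2
  constructor
  · rw [inv_mul_le_iff₀ (by positivity)]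
    nlinarith [Nat.cast_nonneg (α := ℝ) γ.1.length]
  · nlinarith [Nat.cast_nonneg (α := ℝ) (wordLen (S : Set (DiagramGroup P w)) (DiagramGroup.mk γ))]

end Pool.Agent.H363Z
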