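import Pool.Agent.H363Z.Defs

set_option autoImplicit false

/-!
Reduced diagrams and word length.
-/

namespace Pool.Agent.H363Z

universe u

/-- A diagram is an edge path up to crossing squares, and its cells are the edges of the path.
The diagram is reduced if it has no dipole: no path obtained by crossing squares contains an edge
followed at once by its reverse. -/
def Reduced {A : Type u} (l : List (Step A)) : Prop :=
  ∀ l', Relation.EqvGen Swap l l' → ∀ (p q : List (Step A)) (e : Step A), l' ≠ p ++ e :: e.rev :: q

/-- The word length of `g` with respect to `S`: the least length of a product of elements of `S`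
and their inverses that equals `g`. -/
noncomputable def wordLen {G : Type u} [Group G] (S : Set G) (g : G) : ℕ :=
  sInf {n | ∃ l : List G, (∀ x ∈ l, x ∈ S ∨ x⁻¹ ∈ S) ∧ l.prod = g ∧ l.length = n}

end Pool.Agent.H363Z
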