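import Mathlib

set_option autoImplicit false

/-!
Semigroup presentations, the Squier square complex and diagram groups.

The diagram group `DiagramGroup P w` is the edge-path group of the Squier square complex of `P`
at the vertex `w`: closed edge paths at `w` modulo insertion and deletion of backtracks and modulo
replacing two consecutive sides of a square by the other two sides.
-/

namespace Pool.Agent.H363Z

universe u

variable {A : Type u}

/-- A semigroup presentation over the alphabet `A`: a set of relations `u = v` between nonempty
words. -/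
structure Pres (A : Type u) where
  rel : Set (List A × List A)
  ne_nil : ∀ p ∈ rel, p.1 ≠ [] ∧ p.2 ≠ []

/-- The edge joining `pre lhs suf` and `pre rhs suf`, traversed from the first word to the second
if `fwd` is true and in the opposite direction otherwise. -/
structure Step (A : Type u) where
  pre : List A
  lhs : List A
  rhs : List A
  suf : List A
  fwd : Bool

/-- initial vertex of an oriented edge -/
def Step.src (e : Step A) : List A := e.pre ++ cond e.fwd e.lhs e.rhs ++ e.suf

/-- terminal vertex of an oriented edge -/
def Step.tgt (e : Step A) : List A := e.pre ++ cond e.fwd e.rhs e.lhs ++ e.suf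

/-- the same edge with the opposite orientation -/
def Step.rev (e : Step A) : Step A := ⟨e.pre, e.lhs, e.rhs, e.suf, !e.fwd⟩

/-- `IsPath P x l y`: the list `l` of oriented edges is an edge path from `x` to `y` in the Squier
complex of `P`. -/
inductive IsPath (P : Pres A) : List A → List (Step A) → List A → Prop
  | nil (x : List A) : IsPath P x [] x
  | cons (e : Step A) (l : List (Step A)) (y : List A) :
      (e.lhs, e.rhs) ∈ P.rel → IsPath P e.tgt l y → IsPath P e.src (e :: l) y

/-- Crossing a square: two consecutive rewritings of disjoint subwords (the relation `u = v` on the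
left, the relation `p = q` on the right, each in either direction) are performed in the other
order. -/
inductive Swap : List (Step A) → List (Step A) → Prop
  | mk (l r : List (Step A)) (a u v b p q c : List A) (s t : Bool) :
      Swap (l ++ ⟨a, u, v, b ++ cond t p q ++ c, s⟩ :: ⟨a ++ cond s v u ++ b, p, q, c, t⟩ :: r)
        (l ++ ⟨a ++ cond s u v ++ b, p, q, c, t⟩ :: ⟨a, u, v, b ++ cond t q p ++ c, s⟩ :: r)

/-- Elementary homotopies of edge paths: crossing a square, or deleting a backtrack. -/
inductive Move : List (Step A) → List (Step A) → Prop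
  | swap (l l' : List (Step A)) : Swap l l' → Move l l'
  | cancel (l r : List (Step A)) (e : Step A) : Move (l ++ e :: e.rev :: r) (l ++ r)

/-- closed edge paths at `w` -/
def Loop (P : Pres A) (w : List A) : Type u := {l : List (Step A) // IsPath P w l w}

/-- The diagram group `D(P, w)`: closed edge paths at `w` modulo homotopy. -/
def DiagramGroup (P : Pres A) (w : List A) : Type u :=
  Quot (fun γ δ : Loop P w => Move γ.1 δ.1)

theorem Step.rev_src (e : Step A) : e.rev.src = e.tgt := by
  rcases e with ⟨a, u, v, b, _ | _⟩ <;> rfl

theorem Step.rev_tgt (e : Step A) : e.rev.tgt = e.src := by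
  rcases e with ⟨a, u, v, b, _ | _⟩ <;> rfl

theorem Step.rev_rev (e : Step A) : e.rev.rev = e := by
  rcases e with ⟨a, u, v, b, _ | _⟩ <;> rfl

theorem IsPath.append {P : Pres A} {x y z : List A} {l l' : List (Step A)}
    (h : IsPath P x l y) (h' : IsPath P y l' z) : IsPath P x (l ++ l') z := by
  induction h with
  | nil x => exact h'
  | cons e l y he _ ih => exact IsPath.cons e _ z he (ih h')

/-- the reverse path -/
def revPath (l : List (Step A)) : List (Step A) := (l.map Step.rev).reverse

theorem revPath_append (l l' : List (Step A)) : revPath (l ++ l') = revPath l' ++ revPath l := by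
  simp [revPath]

theorem revPath_cons (e : Step A) (l : List (Step A)) :
    revPath (e :: l) = revPath l ++ [e.rev] := by
  simp [revPath]

theorem IsPath.rev {P : Pres A} {x y : List A} {l : List (Step A)} (h : IsPath P x l y) :
    IsPath P y (revPath l) x := by
  induction h with
  | nil x => exact IsPath.nil x
  | cons e l y he _ ih =>
    rw [revPath_cons]
    refine ih.append ?_
    rw [← e.rev_src]
    refine IsPath.cons e.rev [] _ he ?_
    rw [e.rev_tgt]
    exact IsPath.nil _

theorem Move.left {l l' : List (Step A)} (h : Move l l') (m : List (Step A)) :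
    Move (m ++ l) (m ++ l') := by
  rcases h with ⟨_, _, ⟨l, r, a, u, v, b, p, q, c, s, t⟩⟩ | ⟨l, r, e⟩
  · rw [← List.append_assoc, ← List.append_assoc]
    exact Move.swap _ _ (Swap.mk ..)
  · rw [← List.append_assoc, ← List.append_assoc]
    exact Move.cancel ..

theorem Move.right {l l' : List (Step A)} (h : Move l l') (m : List (Step A)) :
    Move (l ++ m) (l' ++ m) := by
  rcases h with ⟨_, _, ⟨l, r, a, u, v, b, p, q, c, s, t⟩⟩ | ⟨l, r, e⟩
  · have := Move.swap _ _ (Swap.mk l (r ++ m) a u v b p q c s t)
    simpa only [List.append_assoc, List.cons_append] using this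
  · have := Move.cancel l (r ++ m) e
    simpa only [List.append_assoc, List.cons_append] using this

theorem Move.rev {l l' : List (Step A)} (h : Move l l') :
    Move (revPath l) (revPath l') ∨ Move (revPath l') (revPath l) := by
  rcases h with ⟨_, _, ⟨l, r, a, u, v, b, p, q, c, s, t⟩⟩ | ⟨l, r, e⟩
  · right
    have := Swap.mk (revPath r) (revPath l) a u v b p q c (!s) (!t)
    refine Move.swap _ _ ?_
    cases s <;> cases t <;> simpa [revPath, Step.rev] using this
  · left
    have := Move.cancel (revPath r) (revPath l) e
    simpa [revPath, Step.rev_rev] using this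

namespace DiagramGroup

variable {P : Pres A} {w : List A}

/-- the class of a closed path -/
def mk (γ : Loop P w) : DiagramGroup P w := Quot.mk _ γ

/-- concatenation of closed paths -/
def cat (γ δ : Loop P w) : Loop P w := ⟨γ.1 ++ δ.1, γ.2.append δ.2⟩

instance : Mul (DiagramGroup P w) :=
  ⟨Quot.map₂ cat (fun γ _ _ h => h.left γ.1) (fun _ _ δ h => h.right δ.1)⟩

instance : One (DiagramGroup P w) := ⟨mk ⟨[], IsPath.nil w⟩⟩

instance : Inv (DiagramGroup P w) :=
  ⟨Quot.lift (fun γ : Loop P w => mk ⟨revPath γ.1, γ.2.rev⟩) (fun _ _ h =>
    h.rev.elim (fun h' => Quot.sound h') (fun h' => Eq.symm (Quot.sound h')))⟩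

theorem mk_mul (γ δ : Loop P w) : mk γ * mk δ = mk (cat γ δ) := rfl

theorem rev_cancel {x y : List A} {l : List (Step A)} (h : IsPath P x l y) :
    ∀ (p q : List (Step A)) (hp : IsPath P w p y) (hq : IsPath P y q w),
      mk ⟨p ++ (revPath l ++ (l ++ q)), hp.append (h.rev.append (h.append hq))⟩ =
        mk ⟨p ++ q, hp.append hq⟩ := by
  induction h with
  | nil x => intro p q hp hq; rfl
  | cons e l y he h ih =>
    intro p q hp hq
    rw [← ih p q hp hq]
    apply Quot.sound
    have := Move.cancel (p ++ revPath l) (l ++ q) e.rev
    simpa [revPath_cons, Step.rev_rev] using this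

instance : Group (DiagramGroup P w) := Group.ofLeftAxioms
  (by
    rintro ⟨a⟩ ⟨b⟩ ⟨c⟩
    exact congrArg mk (Subtype.ext (List.append_assoc _ _ _)))
  (by
    rintro ⟨a⟩
    rfl)
  (by
    rintro ⟨a⟩
    have := rev_cancel a.2 [] [] (IsPath.nil w) (IsPath.nil w)
    refine Eq.trans (congrArg mk (Subtype.ext ?_)) this
    simp [cat])

end DiagramGroup

end Pool.Agent.H363Z
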