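import Mathlib

set_option autoImplicit false

/-!
Group-theoretic lemmas producing torsion in abelianisations.
-/

namespace Pool.Agent.H363Z

open scoped commutatorElement

variable {G : Type*} [Group G]

/-- elements `g` of the derived subgroup with `[z, g]` in the second derived subgroup -/
def nsub (z : G) : Subgroup G where
  carrier := {g | g ∈ commutator G ∧ ⁅z, g⁆ ∈ ⁅commutator G, commutator G⁆}
  one_mem' := ⟨one_mem _, by simp⟩
  mul_mem' := by
    rintro g h ⟨hg, hg'⟩ ⟨hh, hh'⟩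
    refine ⟨mul_mem hg hh, ?_⟩
    have : ⁅z, g * h⁆ = ⁅z, g⁆ * (g * ⁅z, h⁆ * g⁻¹) := by
      simp only [commutatorElement_def]; group
    rw [this]
    exact mul_mem hg' (Subgroup.Normal.conj_mem inferInstance _ hh' g)
  inv_mem' := by
    rintro g ⟨hg, hg'⟩
    refine ⟨inv_mem hg, ?_⟩
    have : ⁅z, g⁻¹⁆ = g⁻¹ * ⁅z, g⁆⁻¹ * g⁻¹⁻¹ := by
      simp only [commutatorElement_def]; group
    rw [this]
    exact Subgroup.Normal.conj_mem inferInstance _ (inv_mem hg') g⁻¹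

theorem comm_mem (g h : G) : ⁅g, h⁆ ∈ commutator G :=
  Subgroup.commutator_mem_commutator (Subgroup.mem_top _) (Subgroup.mem_top _)

instance nsub_normal (z : G) : (nsub z).Normal := ⟨by
  rintro g ⟨hg, hg'⟩ k
  refine ⟨Subgroup.Normal.conj_mem inferInstance _ hg k, ?_⟩
  have : ⁅z, k * g * k⁻¹⁆ = k * ((z * ⁅⁅z⁻¹, k⁻¹⁆, g⁆ * z⁻¹) * ⁅z, g⁆) * k⁻¹ := by
    simp only [commutatorElement_def]; group
  rw [this]
  refine Subgroup.Normal.conj_mem inferInstance _ (mul_mem ?_ hg') k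
  exact Subgroup.Normal.conj_mem inferInstance _
    (Subgroup.commutator_mem_commutator (comm_mem _ _) hg) z⟩

theorem mem_nsub_of_commute {z g : G} (hg : g ∈ commutator G) (h : Commute z g) : g ∈ nsub z :=
  ⟨hg, by rw [commutatorElement_eq_one_iff_commute.2 h]; exact one_mem _⟩

theorem cube_mem {z tx tu a1 a2 b1 b2 : G} {SA SB : Subgroup G}
    (hAx : ∀ a ∈ SA, tx * a * tx⁻¹ ∈ SA) (hAu : ∀ a ∈ SA, tu * a * tu⁻¹ ∈ SA)
    (hBx : ∀ b ∈ SB, tx⁻¹ * b * tx ∈ SB) (hBu : ∀ b ∈ SB, tu⁻¹ * b * tu ∈ SB)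
    (hzB : ∀ b ∈ SB, Commute z b) (hzA : ∀ a ∈ SA, Commute z (tu * a * tu⁻¹))
    (hAB : ∀ a ∈ SA, ∀ b ∈ SB, Commute a b)
    (ha1 : a1 ∈ SA) (ha2 : a2 ∈ SA) (hb1 : b1 ∈ SB) (hb2 : b2 ∈ SB)
    (r1 : tu * tu * tu * tu = a1 * tu * b1) (r2 : tu * tx * tu = a2 * tx * b2) :
    ⁅z, ⁅tx, tu⁆⁆ ^ 3 ∈ ⁅commutator G, commutator G⁆ := by
  let q := QuotientGroup.mk' (nsub z)
  have hq : ∀ g, q g = 1 ↔ g ∈ nsub z := fun g => QuotientGroup.eq_one_iff g
  have hA : ∀ a ∈ SA, a ∈ commutator G → a ∈ nsub z := by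
    intro a ha hc
    have h1 := mem_nsub_of_commute (Subgroup.Normal.conj_mem inferInstance _ hc tu) (hzA a ha)
    have h2 := Subgroup.Normal.conj_mem (nsub_normal z) _ h1 tu⁻¹
    simpa [mul_assoc] using h2
  have hB : ∀ b ∈ SB, b ∈ commutator G → b ∈ nsub z := fun b hb hc =>
    mem_nsub_of_commute hc (hzB b hb)
  have cA : ∀ t, (∀ a ∈ SA, t * a * t⁻¹ ∈ SA) → ∀ a ∈ SA, Commute (q t) (q a) := by
    intro t ht a ha
    rw [← commutatorElement_eq_one_iff_commute, ← map_commutatorElement, hq]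
    exact hA _ (mul_mem (ht a ha) (inv_mem ha)) (comm_mem t a)
  have cB : ∀ t, (∀ b ∈ SB, t⁻¹ * b * t ∈ SB) → ∀ b ∈ SB, Commute (q t) (q b) := by
    intro t ht b hb
    have : Commute (q t⁻¹) (q b) := by
      rw [← commutatorElement_eq_one_iff_commute, ← map_commutatorElement, hq]
      refine hB _ ?_ (comm_mem t⁻¹ b)
      have := mul_mem (ht b hb) (inv_mem hb)
      simpa [commutatorElement_def] using this
    rw [map_inv] at this
    simpa using this.inv_left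
  have hAB' : ∀ a ∈ SA, ∀ b ∈ SB, a * b ∈ commutator G → a * b ∈ nsub z := by
    intro a ha b hb hc
    have h1 : ⁅tu, a⁆ * (a * b) = tu * a * tu⁻¹ * b := by
      simp only [commutatorElement_def]; group
    have h2 : ⁅tu, a⁆ * (a * b) ∈ nsub z := by
      refine mem_nsub_of_commute (mul_mem (comm_mem _ _) hc) ?_
      rw [h1]
      exact (hzA a ha).mul_right (hzB b hb)
    have h3 : ⁅tu, a⁆ ∈ nsub z := hA _ (mul_mem (hAu a ha) (inv_mem ha)) (comm_mem tu a)
    exact (Subgroup.mul_mem_cancel_left _ h3).1 h2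
  -- computation in the quotient
  have e1 : q tu ^ 3 = q a1 * q b1 := by
    have := congrArg q r1
    simp only [map_mul] at this
    rw [← (cA tu hAu a1 ha1).eq, mul_assoc (q tu) (q a1)] at this
    have h2 : q tu * q tu ^ 3 = q tu * (q a1 * q b1) := by
      rw [← this]; simp only [pow_succ, pow_zero, one_mul, mul_assoc]
    exact mul_left_cancel h2
  have e2 : q tx * q tu * (q tx)⁻¹ = (q tu)⁻¹ * (q a2 * q b2) := by
    have := congrArg q r2
    simp only [map_mul] at this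
    rw [mul_assoc (q a2), (cB tx hBx b2 hb2).eq, ← mul_assoc] at this
    rw [eq_inv_mul_iff_mul_eq, ← mul_assoc, ← mul_assoc, this, mul_inv_cancel_right]
  have c1 : Commute (q tu) (q a2 * q b2) := (cA tu hAu a2 ha2).mul_right (cB tu hBu b2 hb2)
  have e3 : q ⁅tx, tu⁆ = (q a2 * q b2) * ((q tu)⁻¹) ^ 2 := by
    rw [map_commutatorElement, commutatorElement_def, e2, c1.inv_left.eq, pow_two, mul_assoc]
  have e4 : q (⁅tx, tu⁆ ^ 3) = q ((a2 ^ 3 * (a1 ^ 2)⁻¹) * (b2 ^ 3 * (b1 ^ 2)⁻¹)) := by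
    have d2 : Commute (q a2) (q b2) := (hAB a2 ha2 b2 hb2).map q
    have d1 : Commute (q a1) (q b1) := (hAB a1 ha1 b1 hb1).map q
    have d3 : Commute (q a1) (q b2) := (hAB a1 ha1 b2 hb2).map q
    rw [map_pow, e3, (c1.inv_left.symm.pow_right 2).mul_pow, ← pow_mul, d2.mul_pow,
      show 2 * 3 = 3 * 2 from rfl, pow_mul, inv_pow, e1, inv_pow, d1.mul_pow]
    simp only [map_mul, map_inv, map_pow]
    rw [((d1.pow_pow 2 2).inv_inv.eq.symm ▸ mul_inv_rev (q a1 ^ 2) (q b1 ^ 2) :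
      (q a1 ^ 2 * q b1 ^ 2)⁻¹ = (q a1 ^ 2)⁻¹ * (q b1 ^ 2)⁻¹)]
    rw [mul_assoc, mul_assoc, ← mul_assoc (q b2 ^ 3), ← (d3.pow_pow 2 3).inv_left.eq, mul_assoc]
  have hc3 : ⁅tx, tu⁆ ^ 3 ∈ commutator G := pow_mem (comm_mem _ _) 3
  have m1 : (a2 ^ 3 * (a1 ^ 2)⁻¹) * (b2 ^ 3 * (b1 ^ 2)⁻¹) ∈ commutator G := by
    have h1 : (⁅tx, tu⁆ ^ 3)⁻¹ * ((a2 ^ 3 * (a1 ^ 2)⁻¹) * (b2 ^ 3 * (b1 ^ 2)⁻¹)) ∈ nsub z := by
      rw [← hq, map_mul, map_inv, e4, inv_mul_cancel]
    exact (Subgroup.mul_mem_cancel_left _ (inv_mem hc3)).1 h1.1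
  have m2 := hAB' _ (mul_mem (pow_mem ha2 3) (inv_mem (pow_mem ha1 2))) _
    (mul_mem (pow_mem hb2 3) (inv_mem (pow_mem hb1 2))) m1
  have m3 : ⁅tx, tu⁆ ^ 3 ∈ nsub z := by rw [← hq, e4, hq]; exact m2
  -- from the cube of the commutator to the cube of `[z, c]`
  have hf : ⁅z, ⁅tx, tu⁆⁆ ∈ commutator G := comm_mem _ _
  have hc : ⁅tx, tu⁆ ∈ commutator G := comm_mem _ _
  generalize ⁅tx, tu⁆ = c at m3 hf hc
  have m4 := m3.2
  let p := QuotientGroup.mk' ⁅commutator G, commutator G⁆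
  have hp : ∀ g, p g = 1 ↔ g ∈ ⁅commutator G, commutator G⁆ := fun g => QuotientGroup.eq_one_iff g
  have k1 : Commute (p c) (p ⁅z, c⁆) := by
    rw [← commutatorElement_eq_one_iff_commute, ← map_commutatorElement, hp]
    exact Subgroup.commutator_mem_commutator hc hf
  have k2 : ⁅z, c ^ 3⁆ = ⁅z, c⁆ * (c * ⁅z, c⁆ * c⁻¹) * (c * (c * ⁅z, c⁆ * c⁻¹) * c⁻¹) := by
    simp only [commutatorElement_def, pow_succ, pow_zero, one_mul]; group
  rw [← hp, k2] at m4
  rw [← hp, map_pow, ← m4]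
  simp only [map_mul, map_inv, k1.eq, mul_inv_cancel_right, pow_succ, pow_zero, one_mul]

/-- The second lemma: an index two phenomenon. -/
theorem sq_mem {H : Subgroup G} {t a b : G} (hb : ∀ h ∈ H, b * h * b⁻¹ ∈ H)
    (hb' : ∀ h ∈ H, b⁻¹ * h * b ∈ H) (ht : t ∈ H) (hab : b * a ∈ H)
    (c1 : Commute a b) (c2 : Commute a (t * b * t⁻¹)) (r : t * t * t = b * t * a) :
    ⁅t, b⁆ ^ 2 ∈ ⁅H, H⁆ := by
  -- conjugation by `b` preserves the derived subgroup of `H`
  have hK : ∀ k ∈ ⁅H, H⁆, b * k * b⁻¹ ∈ ⁅H, H⁆ := by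
    intro k hk
    have h1 : H.map (MulAut.conj b).toMonoidHom ≤ H := by
      rintro _ ⟨h, hh, rfl⟩
      exact hb h hh
    have h2 := Subgroup.mem_map_of_mem (MulAut.conj b).toMonoidHom hk
    rw [Subgroup.map_commutator] at h2
    exact Subgroup.commutator_mono h1 h1 h2
  set s := b * t * b⁻¹ with hs
  set s2 := b * s * b⁻¹ with hs2
  set m := b * a with hm
  have hsH : s ∈ H := hb t ht
  have hs2H : s2 ∈ H := hb s hsH
  have he : ⁅t, b⁆ = t * s⁻¹ := by rw [hs, commutatorElement_def]; group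
  have hmb : b * m * b⁻¹ = m := by rw [hm, mul_assoc b, mul_assoc b, c1.inv_right.eq]; group
  have r1 : t * t * t = s * m := by rw [r, hs, hm]; group
  have r2 : s * s * s = s2 * m := by
    rw [← hmb, hs2]
    calc s * s * s = b * (t * t * t) * b⁻¹ := by rw [hs]; group
      _ = _ := by rw [r1]; group
  have r3 : m * (t * s⁻¹) * m⁻¹ = s * s2⁻¹ := by
    have c3 : Commute a (t * s⁻¹) := by
      have : t * s⁻¹ = (t * b * t⁻¹) * b⁻¹ := by rw [hs]; group
      rw [this]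
      exact c2.mul_right c1.inv_right
    rw [hm, mul_assoc b, c3.eq, hs2, hs]
    group
  -- compute in the abelianisation of `H`
  let T : H := ⟨t, ht⟩
  let S : H := ⟨s, hsH⟩
  let S2 : H := ⟨s2, hs2H⟩
  let M : H := ⟨m, hab⟩
  have q1 : T * T * T = S * M := Subtype.ext r1
  have q2 : S * S * S = S2 * M := Subtype.ext r2
  have q3 : M * (T * S⁻¹) * M⁻¹ = S * S2⁻¹ := Subtype.ext r3
  have p1 := congrArg Abelianization.of q1
  have p2 := congrArg Abelianization.of q2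
  have p3 := congrArg Abelianization.of q3
  simp only [map_mul, map_inv] at p1 p2 p3
  have key : Abelianization.of ((T * S⁻¹) ^ 2) = 1 := by
    simp only [map_mul, map_inv, map_pow]
    generalize Abelianization.of T = x at *
    generalize Abelianization.of S = y at *
    generalize Abelianization.of S2 = w at *
    generalize Abelianization.of M = n at *
    apply Additive.ofMul.injective
    have p1' := congrArg Additive.ofMul p1
    have p2' := congrArg Additive.ofMul p2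
    have p3' := congrArg Additive.ofMul p3
    simp only [ofMul_mul, ofMul_inv, ofMul_pow, ofMul_one] at p1' p2' p3' ⊢
    generalize Additive.ofMul x = x at *
    generalize Additive.ofMul y = y at *
    generalize Additive.ofMul w = w at *
    generalize Additive.ofMul n = n at *
    have : 2 • (x + -y) = (x + x + x - (y + n)) - (y + y + y - (w + n)) -
        ((n + (x + -y) + -n) - (y + -w)) := by abel
    rw [this, p1', p2', p3']
    simp
  have k2 : (T * S⁻¹) ^ 2 ∈ commutator H := by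
    rw [← Abelianization.ker_of]; exact key
  have k3 := Subgroup.mem_map_of_mem H.subtype k2
  rw [Subgroup.map_subtype_commutator] at k3
  rw [he]
  exact k3

end Pool.Agent.H363Z
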