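import Pool.Agent.H363Z.TorsionFree
import Pool.Agent.H363Z.DerivedAlg

set_option autoImplicit false

/-!
A diagram group whose derived subgroup has torsion in its abelianisation.
-/

namespace Pool.Agent.H363Z.Der

open scoped commutatorElement

/-- the alphabet -/
inductive L | a | b | x | u
  deriving DecidableEq

open L

/-- the relations -/
def rels : List (List L × List L) :=
  [([a], [a, x]), ([a], [a, u]), ([b], [x, b]), ([b], [u, b]), ([u], [u, u, u, u]),
    ([x], [u, x, u]), ([u], [u, u, u, u, u, u, u])]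

/-- the presentation -/
def PB : Pres L := ⟨{p | p ∈ rels}, by
  intro p hp
  simp only [rels, Set.mem_ofPred_eq, List.mem_cons, List.not_mem_nil, or_false] at hp
  rcases hp with rfl | rfl | rfl | rfl | rfl | rfl | rfl <;> simp⟩

theorem mem_PB {p : List L × List L} : p ∈ PB.rel ↔ p ∈ rels := Iff.rfl

/-- letters of the middle alphabet -/
def Mid (s : L) : Prop := s = x ∨ s = u

theorem relA {s : L} (h : Mid s) : ([a], [a, s]) ∈ PB.rel := by
  rcases h with rfl | rfl <;> simp [mem_PB, rels]

theorem relB {s : L} (h : Mid s) : ([b], [s, b]) ∈ PB.rel := by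
  rcases h with rfl | rfl <;> simp [mem_PB, rels]

/-- loops at `a`, placed in the base word -/
def SA : Subgroup (UG PB) where
  carrier := {g | ∃ h, Arr PB [a] h [a] ∧ g = ctx PB [] [b] h}
  one_mem' := ⟨1, Arr.refl _, by simp⟩
  mul_mem' := by
    rintro _ _ ⟨g, hg, rfl⟩ ⟨h, hh, rfl⟩
    exact ⟨g * h, hg.mul hh, by simp⟩
  inv_mem' := by
    rintro _ ⟨g, hg, rfl⟩
    exact ⟨g⁻¹, hg.inv, by simp⟩

/-- loops at `b`, placed in the base word -/
def SB : Subgroup (UG PB) where
  carrier := {g | ∃ h, Arr PB [b] h [b] ∧ g = ctx PB [a] [] h}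
  one_mem' := ⟨1, Arr.refl _, by simp⟩
  mul_mem' := by
    rintro _ _ ⟨g, hg, rfl⟩ ⟨h, hh, rfl⟩
    exact ⟨g * h, hg.mul hh, by simp⟩
  inv_mem' := by
    rintro _ ⟨g, hg, rfl⟩
    exact ⟨g⁻¹, hg.inv, by simp⟩

/-- emitting a letter from `a` -/
noncomputable def l (s : L) : UG PB := gen PB [] [a] [a, s] []

/-- emitting a letter from `b` -/
noncomputable def r (s : L) : UG PB := gen PB [] [b] [s, b] []

theorem l_arr {s : L} (h : Mid s) : Arr PB [a] (l s) [a, s] := Arr.gen (relA h) [] []

theorem r_arr {s : L} (h : Mid s) : Arr PB [b] (r s) [s, b] := Arr.gen (relB h) [] []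

/-- translations -/
noncomputable def t (s : L) : UG PB := ctx PB [] [b] (l s) * (ctx PB [a] [] (r s))⁻¹

theorem t_arr {s : L} (h : Mid s) : Arr PB [a, b] (t s) [a, b] :=
  ((l_arr h).ctx [] [b]).mul ((r_arr h).ctx [a] []).inv

theorem conj_SA {s : L} (h : Mid s) : ∀ g ∈ SA, t s * g * (t s)⁻¹ ∈ SA := by
  rintro _ ⟨g, hg, rfl⟩
  refine ⟨l s * ctx PB [] [s] g * (l s)⁻¹, ((l_arr h).mul (hg.ctx [] [s])).mul (l_arr h).inv, ?_⟩
  have := interchange₀ hg (r_arr h)
  have e : ctx PB [] [s, b] g =
      (ctx PB [a] [] (r s))⁻¹ * ctx PB [] [b] g * ctx PB [a] [] (r s) := by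
    rw [mul_assoc, this, inv_mul_cancel_left]
  simp only [map_mul, map_inv, ctx_ctx, t, List.nil_append, List.cons_append, e]
  group

theorem conj_SB {s : L} (h : Mid s) : ∀ g ∈ SB, (t s)⁻¹ * g * t s ∈ SB := by
  rintro _ ⟨g, hg, rfl⟩
  refine ⟨r s * ctx PB [s] [] g * (r s)⁻¹, ((r_arr h).mul (hg.ctx [s] [])).mul (r_arr h).inv, ?_⟩
  have := interchange₀ (l_arr h) hg
  have e : ctx PB [a, s] [] g =
      (ctx PB [] [b] (l s))⁻¹ * ctx PB [a] [] g * ctx PB [] [b] (l s) := by
    rw [mul_assoc, ← this, inv_mul_cancel_left]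
  simp only [map_mul, map_inv, ctx_ctx, t, List.nil_append, List.cons_append, e]
  group

theorem comm_AB : ∀ g ∈ SA, ∀ h ∈ SB, Commute g h := by
  rintro _ ⟨g, hg, rfl⟩ _ ⟨h, hh, rfl⟩
  exact interchange₀ hg hh

/-- the loop at the letter `u` -/
noncomputable def zeta : UG PB :=
  gen PB [] [u] [u, u, u, u] [] * gen PB [] [u] [u, u, u, u] [u, u, u] *
    (gen PB [] [u] [u, u, u, u, u, u, u] [])⁻¹

theorem rel4 : ([u], [u, u, u, u]) ∈ PB.rel := by simp [mem_PB, rels]

theorem rel7 : ([u], [u, u, u, u, u, u, u]) ∈ PB.rel := by simp [mem_PB, rels]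

theorem rel3 : ([x], [u, x, u]) ∈ PB.rel := by simp [mem_PB, rels]

theorem zeta_arr : Arr PB [u] zeta [u] :=
  ((Arr.gen rel4 [] []).mul (Arr.gen rel4 [] [u, u, u])).mul (Arr.gen rel7 [] []).inv

theorem mid_u : Mid u := Or.inr rfl

theorem mid_x : Mid x := Or.inl rfl

/-- the loop placed in the base word -/
noncomputable def z : UG PB := ctx PB [] [b] (l u * ctx PB [a] [] zeta * (l u)⁻¹)

theorem z_mem : z ∈ SA :=
  ⟨_, ((l_arr mid_u).mul (zeta_arr.ctx [a] [])).mul (l_arr mid_u).inv, rfl⟩

theorem z_arr : Arr PB [a, b] z [a, b] :=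
  (((l_arr mid_u).mul (zeta_arr.ctx [a] [])).mul (l_arr mid_u).inv).ctx [] [b]

theorem z_comm : ∀ g ∈ SA, Commute z (t u * g * (t u)⁻¹) := by
  rintro _ ⟨g, hg, rfl⟩
  have := interchange₀ hg (r_arr mid_u)
  have e : ctx PB [] [u, b] g =
      (ctx PB [a] [] (r u))⁻¹ * ctx PB [] [b] g * ctx PB [a] [] (r u) := by
    rw [mul_assoc, this, inv_mul_cancel_left]
  have e2 : t u * ctx PB [] [b] g * (t u)⁻¹ =
      ctx PB [] [b] (l u) * ctx PB [] [u, b] g * (ctx PB [] [b] (l u))⁻¹ := by
    rw [e, t]; group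
  have c : Commute (ctx PB [] [u, b] g) (ctx PB [a] [b] zeta) := commute_ctx hg zeta_arr [] [] [b]
  rw [e2, z]
  simp only [map_mul, map_inv, ctx_ctx, List.nil_append]
  have := c.symm.map (MulAut.conj (ctx PB [] [b] (l u))).toMonoidHom
  simpa using this

/-- emitting a word from `a` -/
noncomputable def lw : List L → UG PB
  | [] => 1
  | s :: w => lw w * ctx PB [] w (l s)

/-- emitting a word from `b` -/
noncomputable def rw' : List L → UG PB
  | [] => 1
  | s :: w => r s * ctx PB [s] [] (rw' w)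

theorem lw_arr {w : List L} (h : ∀ s ∈ w, Mid s) : Arr PB [a] (lw w) (a :: w) := by
  induction w with
  | nil => exact Arr.refl _
  | cons s w ih =>
    exact (ih fun s' hs => h s' (by simp [hs])).mul ((l_arr (h s (by simp))).ctx [] w)

theorem rw_arr {w : List L} (h : ∀ s ∈ w, Mid s) : Arr PB [b] (rw' w) (w ++ [b]) := by
  induction w with
  | nil => exact Arr.refl _
  | cons s w ih =>
    refine (r_arr (h s (by simp))).mul
      (((ih fun s' hs => h s' (by simp [hs])).ctx [s] []).of_eq rfl ?_)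
    simp

/-- translation by a word -/
noncomputable def tw (w : List L) : UG PB := ctx PB [] [b] (lw w) * (ctx PB [a] [] (rw' w))⁻¹

theorem tw_nil : tw [] = 1 := by simp [tw, lw, rw']

theorem tw_cons {s : L} {w : List L} (hs : Mid s) (h : ∀ s ∈ w, Mid s) :
    tw (s :: w) = tw w * t s := by
  have := interchange₀ (l_arr hs) (rw_arr h)
  have e : ctx PB [] (w ++ [b]) (l s) =
      (ctx PB [a] [] (rw' w))⁻¹ * ctx PB [] [b] (l s) * ctx PB [a, s] [] (rw' w) := by
    rw [mul_assoc, this, inv_mul_cancel_left]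
  simp only [tw, lw, rw', t, map_mul, ctx_ctx, List.nil_append, List.cons_append, e]
  group

theorem tw_rel {p q : List L} (h : (p, q) ∈ PB.rel) (hp : ∀ s ∈ p, Mid s) (hq : ∀ s ∈ q, Mid s) :
    ∃ g ∈ SA, ∃ k ∈ SB, tw q = g * tw p * k := by
  have he := Arr.gen h [] []
  simp only [List.nil_append, List.append_nil] at he
  refine ⟨ctx PB [] [b] (lw q * (ctx PB [a] [] (gen PB [] p q []))⁻¹ * (lw p)⁻¹),
    ⟨_, ((lw_arr hq).mul ((he.ctx [a] []).of_eq ?_ ?_).inv).mul (lw_arr hp).inv, rfl⟩,
    ctx PB [a] [] (rw' p * ctx PB [] [b] (gen PB [] p q []) * (rw' q)⁻¹),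
    ⟨_, ((rw_arr hp).mul ((he.ctx [] [b]).of_eq ?_ ?_)).mul (rw_arr hq).inv, rfl⟩, ?_⟩
  · simp
  · simp
  · simp
  · simp
  · simp only [tw, map_mul, map_inv, ctx_ctx, List.nil_append, List.append_nil]
    group

/-- the torsion element -/
noncomputable def f : UG PB := ⁅z, ⁅t x, t u⁆⁆

theorem f_cube : f ^ 3 ∈ ⁅commutator (UG PB), commutator (UG PB)⁆ := by
  obtain ⟨a1, ha1, b1, hb1, r1⟩ := tw_rel rel4 (by simp [mid_u]) (by simp [mid_u])
  obtain ⟨a2, ha2, b2, hb2, r2⟩ := tw_rel rel3 (by simp [mid_x]) (by simp [mid_u, mid_x])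
  refine cube_mem (conj_SA mid_x) (conj_SA mid_u) (conj_SB mid_x) (conj_SB mid_u)
    (fun g hg => comm_AB z z_mem g hg) z_comm comm_AB ha1 ha2 hb1 hb2 ?_ ?_
  · rw [tw_cons mid_u (by simp [mid_u]), tw_cons mid_u (by simp [mid_u]),
      tw_cons mid_u (by simp [mid_u]), tw_cons mid_u (by simp), tw_nil] at r1
    simpa using r1
  · rw [tw_cons mid_u (by simp [mid_u, mid_x]), tw_cons mid_x (by simp [mid_u]),
      tw_cons mid_u (by simp), tw_cons mid_x (by simp), tw_nil] at r2
    simpa using r2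

theorem f_arr : Arr PB [a, b] f [a, b] := by
  have h1 : Arr PB [a, b] ⁅t x, t u⁆ [a, b] :=
    (((t_arr mid_x).mul (t_arr mid_u)).mul (t_arr mid_x).inv).mul (t_arr mid_u).inv
  exact ((z_arr.mul h1).mul z_arr.inv).mul h1.inv

/-- a metabelian group of order 54: upper triangular matrices over the field with 3 elements -/
@[ext] structure W where
  s : ℤˣ
  c : ZMod 3
  m : ZMod 3
  e : ZMod 3
  deriving DecidableEq

/-- the sign as a scalar -/
def sg (s : ℤˣ) : ZMod 3 := ((s : ℤ) : ZMod 3)

theorem sg_mul (s s' : ℤˣ) : sg (s * s') = sg s * sg s' := by simp [sg]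

theorem sg_one : sg 1 = 1 := by simp [sg]

theorem sg_sq (s : ℤˣ) : sg s * sg s = 1 := by rw [← sg_mul, Int.units_mul_self, sg_one]

instance : Mul W := ⟨fun p q => ⟨p.s * q.s, sg p.s * q.c + p.c, sg p.s * q.m + p.c * q.e + p.m,
  p.e + q.e⟩⟩

instance : One W := ⟨⟨1, 0, 0, 0⟩⟩

instance : Inv W := ⟨fun p => ⟨p.s, -(sg p.s * p.c), sg p.s * (p.c * p.e - p.m), -p.e⟩⟩

theorem W.mul_def (p q : W) : p * q = ⟨p.s * q.s, sg p.s * q.c + p.c,
  sg p.s * q.m + p.c * q.e + p.m, p.e + q.e⟩ := rfl

theorem W.one_def : (1 : W) = ⟨1, 0, 0, 0⟩ := rfl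

theorem W.inv_def (p : W) : p⁻¹ = ⟨p.s, -(sg p.s * p.c), sg p.s * (p.c * p.e - p.m), -p.e⟩ := rfl

instance : Group W := Group.ofLeftAxioms
  (by
    intro p q k
    simp only [W.mul_def, sg_mul]
    ext
    · simp [mul_assoc]
    · simp only; ring
    · simp only; ring
    · simp only; ring)
  (by
    intro p
    simp [W.mul_def, W.one_def, sg_one])
  (by
    intro p
    simp only [W.mul_def, W.one_def, W.inv_def]
    ext
    · simp
    · simp
    · simp only; ring
    · simp)

/-- the abelian quotient -/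
def W.ab : W →* ℤˣ × Multiplicative (ZMod 3) where
  toFun p := (p.s, Multiplicative.ofAdd p.e)
  map_one' := rfl
  map_mul' _ _ := rfl

theorem W.metabelian : ⁅commutator W, commutator W⁆ = ⊥ := by
  rw [Subgroup.commutator_eq_bot_iff_le_centralizer]
  intro p hp
  rw [Subgroup.mem_centralizer_iff]
  intro q hq
  have h1 : W.ab p = 1 := Abelianization.commutator_subset_ker _ hp
  have h2 : W.ab q = 1 := Abelianization.commutator_subset_ker _ hq
  have h3 : p.s = 1 := congrArg Prod.fst h1
  have h4 : p.e = 0 := congrArg Prod.snd h1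
  have h5 : q.s = 1 := congrArg Prod.fst h2
  have h6 : q.e = 0 := congrArg Prod.snd h2
  simp only [W.mul_def, h3, h4, h5, h6, sg_one]
  ext
  · rfl
  · simp only; ring
  · simp only; ring
  · rfl

/-- images of the letters -/
def th : L → W
  | x => ⟨-1, 0, 0, 0⟩
  | u => ⟨1, 1, 0, 0⟩
  | _ => 1

/-- image of a word -/
def thw (w : List L) : W := (w.map th).prod

theorem thw_append (v w : List L) : thw (v ++ w) = thw v * thw w := by simp [thw]

/-- the lamp -/
def z0 : W := ⟨1, 0, 0, 1⟩

/-- words that start with the only `a` and contain no `b` -/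
def good (w : List L) : Prop := w.head? = some a ∧ w.count a = 1 ∧ w.count b = 0

instance : DecidablePred good := fun w => by unfold good; infer_instance

/-- the lamp at a position -/
def lamp (w : List L) : W := if good w then thw w * z0 * (thw w)⁻¹ else 1

theorem lamp_form (w : List L) : (lamp w).s = 1 ∧ (lamp w).c = 0 := by
  unfold lamp
  split_ifs
  · generalize thw w = p
    simp only [W.mul_def, W.inv_def, z0]
    refine ⟨by simp, ?_⟩
    simp only [mul_one, mul_zero, zero_add, mul_neg, ← mul_assoc, sg_sq]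
    ring
  · exact ⟨rfl, rfl⟩

theorem lamp_comm (v w : List L) : lamp v * lamp w = lamp w * lamp v := by
  obtain ⟨h1, h2⟩ := lamp_form v
  obtain ⟨h3, h4⟩ := lamp_form w
  simp only [W.mul_def, h1, h2, h3, h4, sg_one]
  ext
  · rfl
  · rfl
  · simp only; ring
  · simp only; ring

/-- the value on an edge -/
def phiE (w p q : List L) : W :=
  if p = [a] then (if w = [] then (thw q)⁻¹ else 1)
  else if q = [u, u, u, u, u, u, u] then lamp w else 1

theorem lamp_rel {p q : List L} (h : (p, q) ∈ rels) (v w : List L) :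
    phiE v p q * lamp (v ++ q ++ w) = lamp (v ++ p ++ w) * phiE v p q := by
  have same : ∀ p q : List L, thw p = thw q → (good (v ++ p ++ w) ↔ good (v ++ q ++ w)) →
      lamp (v ++ p ++ w) = lamp (v ++ q ++ w) := by
    intro p q h1 h2
    unfold lamp
    simp only [thw_append, h1, h2]
  have bad : ∀ p : List L, ¬ good (v ++ p ++ w) → lamp (v ++ p ++ w) = 1 := by
    intro p hp
    unfold lamp
    rw [if_neg hp]
  have caseA : ∀ s, Mid s → phiE v [a] [a, s] * lamp (v ++ [a, s] ++ w) =
      lamp (v ++ [a] ++ w) * phiE v [a] [a, s] := by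
    intro s hs
    rcases v with _ | ⟨y, v⟩
    · have hg : good ([] ++ [a, s] ++ w) ↔ good ([] ++ [a] ++ w) := by
        rcases hs with rfl | rfl <;> simp [good]
      have h1 : thw ([] ++ [a, s] ++ w) = thw [a, s] * thw ([] ++ [a] ++ w) := by
        simp [thw, th]
      unfold lamp phiE
      rw [if_pos rfl, if_pos rfl, h1]
      by_cases h2 : good ([] ++ [a] ++ w)
      · rw [if_pos h2, if_pos (hg.2 h2)]; group
      · rw [if_neg h2, if_neg (fun h3 => h2 (hg.1 h3))]; group
    · rw [bad, bad]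
      · simp
      · rintro ⟨h1, h2, _⟩
        simp only [List.cons_append, List.head?_cons, Option.some.injEq] at h1
        subst h1
        simp at h2
      · rintro ⟨h1, h2, _⟩
        simp only [List.cons_append, List.head?_cons, Option.some.injEq] at h1
        subst h1
        simp at h2
  have caseB : ∀ s, phiE v [b] [s, b] * lamp (v ++ [s, b] ++ w) =
      lamp (v ++ [b] ++ w) * phiE v [b] [s, b] := by
    intro s
    rw [bad, bad]
    · simp
    · rintro ⟨_, _, h⟩; simp [List.count_cons] at h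
    · rintro ⟨_, _, h⟩; simp [List.count_cons] at h
  simp only [rels, List.mem_cons, List.not_mem_nil, or_false, Prod.mk.injEq] at h
  rcases h with ⟨rfl, rfl⟩ | ⟨rfl, rfl⟩ | ⟨rfl, rfl⟩ | ⟨rfl, rfl⟩ | ⟨rfl, rfl⟩ | ⟨rfl, rfl⟩ |
    ⟨rfl, rfl⟩
  · exact caseA x mid_x
  · exact caseA u mid_u
  · exact caseB x
  · exact caseB u
  · rw [same [u, u, u, u] [u] (by decide) (by cases v <;> simp [good, List.count_cons])]
    simp [phiE]
  · rw [same [u, x, u] [x] (by decide) (by cases v <;> simp [good, List.count_cons])]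
    simp [phiE]
  · rw [same [u, u, u, u, u, u, u] [u] (by decide) (by cases v <;> simp [good, List.count_cons])]
    simp only [phiE, List.cons.injEq, reduceCtorEq, and_true, if_false, if_true]
    exact lamp_comm _ _

/-- the homomorphism to the metabelian group -/
def phi : UG PB →* W :=
  UG.lift (fun w p q _ => phiE w p q) (by
    intro p q p' q' h h' v m w
    have hp := (PB.ne_nil _ h).1
    have hq := (PB.ne_nil _ h).2
    simp only at hp hq
    have key := lamp_rel h v m
    have e : ∀ k : List L, k ≠ [] → phiE (v ++ k ++ m) p' q' =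
        if p' ≠ [a] ∧ q' = [u, u, u, u, u, u, u] then lamp (v ++ k ++ m) else 1 := by
      intro k hk
      unfold phiE
      by_cases h1 : p' = [a]
      · simp [h1, hk]
      · simp [h1]
    simp only [e p hp, e q hq]
    split_ifs
    · exact key
    · simp)

theorem phi_gen {p q : List L} (h : (p, q) ∈ PB.rel) (v w : List L) :
    phi (gen PB v p q w) = phiE v p q := UG.lift_gen _ _ h v w

theorem phi_f : phi f ≠ 1 := by
  simp only [f, z, t, l, r, zeta, map_commutatorElement, map_mul, map_inv, ctx_gen,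
    phi_gen (relA mid_x), phi_gen (relA mid_u), phi_gen (relB mid_x), phi_gen (relB mid_u),
    phi_gen rel4, phi_gen rel7, commutatorElement_def]
  decide

theorem f_not_mem : f ∉ ⁅commutator (UG PB), commutator (UG PB)⁆ := by
  intro h
  have h1 := Subgroup.mem_map_of_mem phi h
  rw [Subgroup.map_commutator] at h1
  have h2 : (commutator (UG PB)).map phi ≤ commutator W := by
    rw [commutator, Subgroup.map_commutator]
    exact Subgroup.commutator_mono le_top le_top
  have h3 := Subgroup.commutator_mono h2 h2 h1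
  rw [W.metabelian] at h3
  exact phi_f h3

theorem map_comm_le {G H : Type*} [Group G] [Group H] (k : G →* H) :
    (commutator G).map k ≤ commutator H := by
  rw [commutator, Subgroup.map_commutator]
  exact Subgroup.commutator_mono le_top le_top

theorem main : ∃ g : commutator (DiagramGroup PB [a, b]),
    g ^ 3 ∈ commutator (commutator (DiagramGroup PB [a, b])) ∧
    g ∉ commutator (commutator (DiagramGroup PB [a, b])) := by
  have hf : f ∈ commutator (UG PB) := comm_mem _ _
  have key : ∀ g : commutator (DiagramGroup PB [a, b]),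
      g ∈ commutator (commutator (DiagramGroup PB [a, b])) ↔
        (g : DiagramGroup PB [a, b]) ∈
          ⁅commutator (DiagramGroup PB [a, b]), commutator (DiagramGroup PB [a, b])⁆ := by
    intro g
    rw [← Subgroup.map_subtype_commutator]
    exact (Subgroup.mem_map_iff_mem (Subgroup.subtype_injective _)).symm
  refine ⟨⟨ret PB [a, b] f, map_comm_le _ (Subgroup.mem_map_of_mem _ hf)⟩, ?_, ?_⟩
  · rw [key]
    have h1 := Subgroup.mem_map_of_mem (ret PB [a, b]) f_cube
    rw [Subgroup.map_commutator, map_pow] at h1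
    exact Subgroup.commutator_mono (map_comm_le _) (map_comm_le _) h1
  · rw [key]
    intro h
    have h1 := Subgroup.mem_map_of_mem (toU PB [a, b]) h
    rw [Subgroup.map_commutator, f_arr.toU_ret] at h1
    exact f_not_mem (Subgroup.commutator_mono (map_comm_le _) (map_comm_le _) h1)

instance : Fintype L := ⟨{a, b, x, u}, by intro s; cases s <;> simp⟩

universe v

theorem final : ∃ (A : Type) (P : Pres A) (w : List A), Finite A ∧ P.rel.Finite ∧
      (∀ p ∈ P.rel, (p.2, p.1) ∉ P.rel) ∧ w ≠ [] ∧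
      ∀ (B : Type v) (Q : Pres B) (v : List B), v ≠ [] →
        IsEmpty (commutator (DiagramGroup P w) ≃* DiagramGroup Q v) := by
  refine ⟨L, PB, [a, b], inferInstance, List.finite_toSet rels, ?_, by simp, ?_⟩
  · intro p hp
    rw [mem_PB] at hp ⊢
    revert p
    decide
  · intro B Q v _
    obtain ⟨g, h1, h2⟩ := main
    exact not_diagram (by norm_num) h1 h2 v

end Pool.Agent.H363Z.Der
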