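import Pool.Agent.H363Z.Univ

set_option autoImplicit false

/-!
The projection to leftmost cells and the cocycle given by rightmost cells.
-/

namespace Pool.Agent.H363Z

theorem free_comm {α : Type} {a b : FreeGroup α} (h : Commute a b) :
    ∃ m n : ℤ, (m ≠ 0 ∨ n ≠ 0) ∧ a ^ m * b ^ n = 1 := by
  classical
  let H := Subgroup.closure ({a, b} : Set (FreeGroup α))
  have hc : ∀ x y : H, x * y = y * x := by
    have := Subgroup.isMulCommutative_closure (k := ({a, b} : Set (FreeGroup α))) (by
      rintro x (rfl | rfl) y (rfl | rfl)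
      exacts [rfl, h.eq, h.symm.eq, rfl])
    exact fun x y => this.is_comm.comm x y
  have hs : ∀ s t : IsFreeGroup.Generators H, s = t := by
    intro s t
    by_contra hne
    have := congrArg (IsFreeGroup.lift (fun x : IsFreeGroup.Generators H =>
      if x = s then Equiv.swap (0 : Fin 3) 1 else Equiv.swap 1 2))
      (hc (IsFreeGroup.of s) (IsFreeGroup.of t))
    simp only [map_mul, IsFreeGroup.lift_of, if_true, if_neg (Ne.symm hne)] at this
    revert this
    decide
  obtain ⟨z, hz⟩ : ∃ z : H, ∀ s, IsFreeGroup.of s = z := by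
    by_cases hn : Nonempty (IsFreeGroup.Generators H)
    · obtain ⟨s⟩ := hn
      exact ⟨IsFreeGroup.of s, fun t => by rw [hs t s]⟩
    · exact ⟨1, fun s => absurd ⟨s⟩ hn⟩
  have key : (zpowersHom H z).comp (IsFreeGroup.lift (fun _ => Multiplicative.ofAdd (1 : ℤ))) =
      MonoidHom.id H := IsFreeGroup.ext_hom (fun s => by
        rw [MonoidHom.comp_apply, IsFreeGroup.lift_of]; simp [hz])
  have ha := congrArg Subtype.val
    (DFunLike.congr_fun key ⟨a, Subgroup.subset_closure (by simp)⟩)
  have hb := congrArg Subtype.val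
    (DFunLike.congr_fun key ⟨b, Subgroup.subset_closure (by simp)⟩)
  simp only [MonoidHom.comp_apply, zpowersHom_apply, MonoidHom.id_apply,
    SubgroupClass.coe_zpow] at ha hb
  generalize Multiplicative.toAdd _ = i at ha
  generalize Multiplicative.toAdd _ = j at hb
  by_cases hi : i = 0
  · exact ⟨1, 0, Or.inl one_ne_zero, by simp [← ha, hi]⟩
  · refine ⟨j, -i, Or.inr (neg_ne_zero.2 hi), ?_⟩
    rw [← ha, ← hb, ← zpow_mul, ← zpow_mul, ← zpow_add]
    simp [mul_comm]

variable {A : Type} (P : Pres A)

/-- the free group on pairs of words -/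
abbrev FL (A : Type) : Type := FreeGroup (List A × List A)

open Classical in
/-- projection to the leftmost cells -/
noncomputable def lam : UG P →* FL A :=
  UG.lift (fun a u v _ => if a = [] then FreeGroup.of (u, v) else 1) (by
    intro u v p q h _ a b c
    have h1 := P.ne_nil _ h
    simp [h1.1, h1.2])

variable {P}

theorem lam_gen {u v : List A} (h : (u, v) ∈ P.rel) (b : List A) :
    lam P (gen P [] u v b) = FreeGroup.of (u, v) := by
  unfold lam; rw [UG.lift_gen _ _ h, if_pos rfl]

theorem lam_gen_ne {a : List A} (ha : a ≠ []) (u v b : List A) : lam P (gen P a u v b) = 1 := by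
  by_cases h : (u, v) ∈ P.rel
  · unfold lam; rw [UG.lift_gen _ _ h, if_neg ha]
  · rw [gen_of_not h, map_one]

theorem lam_ctx (s : List A) (g : UG P) : lam P (ctx P [] s g) = lam P g := by
  have : (lam P).comp (ctx P [] s) = lam P := by
    apply UG.hom_ext
    intro a u v b h
    rw [MonoidHom.comp_apply, ctx_gen]
    by_cases ha : a = []
    · subst ha; simp [lam_gen h]
    · simp [lam_gen_ne ha]
  exact DFunLike.congr_fun this g

theorem lam_ev {l : List (Step A)} (hv : ∀ e ∈ l, (e.lhs, e.rhs) ∈ P.rel)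
    (h : ∀ e ∈ l, e.pre = []) :
    lam P (ev P l) = FreeGroup.mk (l.map (fun e => ((e.lhs, e.rhs), e.fwd))) := by
  induction l with
  | nil => rfl
  | cons e l ih =>
    rw [ev_cons, map_mul, ih (fun e' h' => hv e' (by simp [h'])) (fun e' h' => h e' (by simp [h']))]
    have h1 := hv e (by simp)
    have h2 := h e (by simp)
    rcases e with ⟨a, u, v, b, _ | _⟩ <;> simp only at h1 h2 <;> subst h2 <;>
      simp only [st, cond_true, cond_false, map_inv, lam_gen h1] <;> rfl

theorem left_inj : ∀ (n : ℕ) {x y : List A} {l : List (Step A)}, l.length = n → IsPath P x l y →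
    (∀ e ∈ l, e.pre = []) → lam P (ev P l) = 1 → ev P l = 1 := by
  classical
  intro n
  induction n using Nat.strong_induction_on with
  | _ n ih =>
    intro x y l hn hl hp h1
    by_cases hr : FreeGroup.IsReduced (l.map (fun e => ((e.lhs, e.rhs), e.fwd)))
    · rw [lam_ev hl.valid hp, ← FreeGroup.toWord_eq_nil_iff, FreeGroup.toWord_mk,
        hr.reduce_eq, List.map_eq_nil_iff] at h1
      rw [h1, ev_nil]
    · rw [FreeGroup.IsReduced, List.isChain_iff_forall_rel_of_append_cons_cons] at hr
      push Not at hr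
      obtain ⟨a, b, l1, l2, hs, hab, hab'⟩ := hr
      obtain ⟨s1, s2, rfl, rfl, h2⟩ := List.map_eq_append_iff.1 hs
      obtain ⟨e, s3, rfl, rfl, h3⟩ := List.map_eq_cons_iff.1 h2
      obtain ⟨e', s4, rfl, rfl, rfl⟩ := List.map_eq_cons_iff.1 h3
      obtain ⟨z, k1, k2⟩ := hl.split
      obtain ⟨rfl, -, k3⟩ := k2.cons_inv
      obtain ⟨k4, -, k5⟩ := k3.cons_inv
      have p1 := hp e (by simp)
      have p2 := hp e' (by simp)
      have he : e' = e.rev := by
        rcases e with ⟨a, u, v, b, f⟩
        rcases e' with ⟨a', u', v', b', f'⟩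
        simp only [Prod.mk.injEq] at hab hab' p1 p2
        obtain ⟨rfl, rfl⟩ := hab
        subst p1 p2
        cases f <;> cases f' <;> simp_all [Step.rev, Step.src, Step.tgt]
      subst he
      rw [e.rev_tgt] at k5
      have e1 : ev P (s1 ++ e :: e.rev :: s4) = ev P (s1 ++ s4) := by simp [st_rev]
      rw [e1] at h1 ⊢
      refine ih _ ?_ rfl (k1.append k5) (fun e' h' => hp e' ?_) h1
      · rw [← hn]; simp
      · rcases List.mem_append.1 h' with h | h <;> simp [h]

variable (P) in
/-- classes of prefixes in the cover -/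
def cls : Setoid (FL A × List A) where
  r p q := ∃ g, Arr P p.2 g q.2 ∧ q.1 = p.1 * lam P g
  iseqv := ⟨fun p => ⟨1, Arr.refl _, by simp⟩, fun ⟨g, h1, h2⟩ => ⟨g⁻¹, h1.inv, by simp [h2]⟩,
    fun ⟨g, h1, h2⟩ ⟨g', h3, h4⟩ => ⟨g * g', h1.mul h3, by simp [h4, h2, mul_assoc]⟩⟩

variable (P) in
/-- the free group on classes of rightmost cells -/
abbrev FR : Type := FreeGroup (Quotient (cls P) × (List A × List A))

variable (P) in
/-- the translation action -/
def shiftAut : FL A →* MulAut (FL A → FR P) where
  toFun h :=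
    { toFun := fun f k => f (k * h)
      invFun := fun f k => f (k * h⁻¹)
      left_inv := fun f => by ext k; simp
      right_inv := fun f => by ext k; simp
      map_mul' := fun _ _ => rfl }
  map_one' := by ext f k; simp
  map_mul' := fun h h' => by ext f k; simp [mul_assoc]

theorem shiftAut_apply (h : FL A) (f : FL A → FR P) (k : FL A) :
    shiftAut P h f k = f (k * h) := rfl

variable (P) in
open Classical in
/-- the cocycle -/
noncomputable def Th : UG P →* SemidirectProduct (FL A → FR P) (FL A) (shiftAut P) :=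
  UG.lift (fun a u v s => if a = [] then SemidirectProduct.inr (FreeGroup.of (u, v))
    else if s = [] then
      SemidirectProduct.inl (fun h => FreeGroup.of (Quotient.mk (cls P) (h, a), (u, v))) else 1) (by
    intro u v p q h h' a b c
    have h1 := P.ne_nil _ h
    have h2 := P.ne_nil _ h'
    simp only [List.append_eq_nil_iff, h1.1, h1.2, h2.1, h2.2, and_false, false_and, if_false]
    by_cases hc : c = []
    · by_cases ha : a = []
      · subst ha
        simp only [hc, if_true, List.nil_append]
        ext k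
        · simp only [SemidirectProduct.mul_left, SemidirectProduct.left_inr,
            SemidirectProduct.right_inr, SemidirectProduct.left_inl, SemidirectProduct.right_inl,
            one_mul, map_one, mul_one, shiftAut_apply]
          congr 2
          refine (Quotient.sound (s := cls P) (a := (k, u ++ b))
            (b := (k * FreeGroup.of (u, v), v ++ b)) ⟨gen P [] u v b, Arr.gen h [] b, ?_⟩).symm
          rw [lam_gen h]
        · simp
      · simp only [hc, ha, if_true, if_false, one_mul, mul_one]
        congr 1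
        funext k
        congr 2
        refine (Quotient.sound (s := cls P) (a := (k, a ++ u ++ b))
          (b := (k, a ++ v ++ b)) ⟨gen P a u v b, Arr.gen h a b, ?_⟩).symm
        rw [lam_gen_ne ha, mul_one]
    · simp [hc])

theorem Th_left {u v : List A} (h : (u, v) ∈ P.rel) (s : List A) :
    Th P (gen P [] u v s) = SemidirectProduct.inr (FreeGroup.of (u, v)) := by
  unfold Th; rw [UG.lift_gen _ _ h, if_pos rfl]

theorem Th_right {u v : List A} (h : (u, v) ∈ P.rel) {a : List A} (ha : a ≠ []) :
    Th P (gen P a u v []) = SemidirectProduct.inl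
      (fun h => FreeGroup.of (Quotient.mk (cls P) (h, a), (u, v))) := by
  unfold Th; rw [UG.lift_gen _ _ h, if_neg ha, if_pos rfl]

theorem Th_lam (g : UG P) : (Th P g).right = lam P g := by
  have : SemidirectProduct.rightHom.comp (Th P) = lam P := by
    apply UG.hom_ext
    intro a u v b h
    rw [MonoidHom.comp_apply]
    unfold Th lam
    rw [UG.lift_gen _ _ h, UG.lift_gen _ _ h]
    split_ifs <;> simp
  exact DFunLike.congr_fun this g

theorem Th_mul (g g' : UG P) (h : FL A) :
    (Th P (g * g')).left h = (Th P g).left h * (Th P g').left (h * lam P g) := by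
  rw [map_mul, SemidirectProduct.mul_left, Th_lam]; rfl

variable (P) in
/-- representative of a class -/
noncomputable def rp (h : FL A) (x : List A) : FL A × List A := (Quotient.mk (cls P) (h, x)).out

theorem rp_spec (h : FL A) (x : List A) :
    ∃ g, Arr P (rp P h x).2 g x ∧ h = (rp P h x).1 * lam P g :=
  Quotient.mk_out (s := cls P) (h, x)

variable (P) in
/-- chosen path from the representative -/
noncomputable def pth (h : FL A) (x : List A) : UG P := (rp_spec (P := P) h x).choose

theorem pth_arr (h : FL A) (x : List A) : Arr P (rp P h x).2 (pth P h x) x :=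
  (rp_spec h x).choose_spec.1

theorem pth_lam (h : FL A) (x : List A) : h = (rp P h x).1 * lam P (pth P h x) :=
  (rp_spec h x).choose_spec.2

variable (P) in
/-- the chosen path in the context of the last letter -/
noncomputable def pth' (h : FL A) (w : List A) : UG P :=
  ctx P [] w.getLast?.toList (pth P h w.dropLast)

theorem pth'_concat (h : FL A) (x : List A) (b : A) :
    pth' P h (x ++ [b]) = ctx P [] [b] (pth P h x) := by simp [pth']

variable (P) in
/-- the retraction -/
noncomputable def rho : FR P →* UG P :=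
  FreeGroup.lift (fun c => pth' P c.1.out.1 (c.1.out.2 ++ c.2.1) * gen P c.1.out.2 c.2.1 c.2.2 [] *
    (pth' P c.1.out.1 (c.1.out.2 ++ c.2.2))⁻¹)

variable (P) in
/-- the factorisation property -/
def Fac (w : List A) (g : UG P) (w' : List A) : Prop :=
  ∀ h, pth' P h w * g = rho P ((Th P g).left h) * pth' P (h * lam P g) w'

theorem Fac.one (w : List A) : Fac P w 1 w := fun h => by simp

theorem Fac.mul {x y z : List A} {g g' : UG P} (h1 : Fac P x g y) (h2 : Fac P y g' z) :
    Fac P x (g * g') z := fun h => by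
  rw [← mul_assoc, h1, mul_assoc, h2, Th_mul, map_mul, map_mul, mul_assoc, mul_assoc]

theorem Fac.inv {x y : List A} {g : UG P} (h1 : Fac P x g y) : Fac P y g⁻¹ x := fun h => by
  have h2 := h1 (h * (lam P g)⁻¹)
  have h3 := Th_mul g g⁻¹ (h * (lam P g)⁻¹)
  rw [mul_inv_cancel, map_one, inv_mul_cancel_right] at h3
  rw [inv_mul_cancel_right] at h2
  have h4 : (Th P g⁻¹).left h = ((Th P g).left (h * (lam P g)⁻¹))⁻¹ :=
    (eq_inv_of_mul_eq_one_right h3.symm)
  rw [h4, map_inv, map_inv, eq_inv_mul_iff_mul_eq, ← mul_assoc, ← h2, mul_inv_cancel_right]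

section

variable (W : List A → Prop)
  (hW : ∀ e : Step A, (e.lhs, e.rhs) ∈ P.rel → W e.src → e.pre = [] ∧ W e.tgt)

include hW

theorem W_path {x y : List A} {l : List (Step A)} (h : IsPath P x l y) (hx : W x) :
    W y ∧ ∀ e ∈ l, e.pre = [] := by
  induction h with
  | nil x => exact ⟨hx, by simp⟩
  | cons e l y he _ ih =>
    obtain ⟨h1, h2⟩ := hW e he hx
    obtain ⟨h3, h4⟩ := ih h2
    refine ⟨h3, fun e' h' => ?_⟩
    rcases List.mem_cons.1 h' with rfl | h'
    · exact h1
    · exact h4 e' h'

theorem W_arr {x y : List A} {g : UG P} (h : Arr P x g y) (hx : W x) : W y :=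
  let ⟨_, hl, _⟩ := h; (W_path W hW hl hx).1

theorem W_uniq {x y : List A} {g g' : UG P} (h : Arr P x g y) (h' : Arr P x g' y) (hy : W y)
    (e : lam P g = lam P g') : g = g' := by
  obtain ⟨l, hl, hl'⟩ := h.inv.mul h'
  have := left_inj _ rfl hl (W_path W hW hl hy).2 (by rw [hl']; simp [e])
  rw [hl'] at this
  exact inv_mul_eq_one.1 this

theorem pth_step {x y : List A} {g : UG P} (hg : Arr P x g y) (hy : W y) (h : FL A) :
    pth P (h * lam P g) y = pth P h x * g := by
  have e : rp P (h * lam P g) y = rp P h x := by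
    unfold rp
    rw [← Quotient.sound (s := cls P) (a := (h, x)) (b := (h * lam P g, y)) ⟨g, hg, rfl⟩]
  refine W_uniq W hW (pth_arr _ _) (e ▸ (pth_arr h x).mul hg) hy ?_
  have h1 := pth_lam (P := P) (h * lam P g) y
  have h2 := pth_lam (P := P) h x
  rw [e] at h1
  rw [map_mul]
  apply mul_left_cancel (a := (rp P h x).1)
  rw [← h1, ← mul_assoc, ← h2]

theorem fac_left {u v s : List A} (h : (u, v) ∈ P.rel) (hw : W (v ++ s)) (b : A) :
    Fac P (u ++ s ++ [b]) (gen P [] u v (s ++ [b])) (v ++ s ++ [b]) := fun k => by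
  rw [Th_left h, pth'_concat, pth'_concat, lam_gen h, ← lam_gen h s,
    pth_step W hW (x := u ++ s) (y := v ++ s) (Arr.gen h [] s) hw, map_mul, ctx_gen]
  simp

theorem fac_right {a u v : List A} {b b' : A} (h : (u ++ [b], v ++ [b']) ∈ P.rel) (ha : a ≠ [])
    (hu : W (a ++ u)) (hv : W (a ++ v)) :
    Fac P (a ++ (u ++ [b])) (gen P a (u ++ [b]) (v ++ [b']) []) (a ++ (v ++ [b'])) := fun k => by
  have key : ∀ (u : List A) (b : A), W (a ++ u) → pth' P k (a ++ (u ++ [b])) =
      pth' P (rp P k a).1 ((rp P k a).2 ++ (u ++ [b])) * ctx P [] (u ++ [b]) (pth P k a) := by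
    intro u b hu
    have h1 := pth_step W hW ((pth_arr k a).ctx [] u) hu (rp P k a).1
    rw [lam_ctx, ← pth_lam] at h1
    simp only [List.nil_append] at h1
    rw [← List.append_assoc, ← List.append_assoc, pth'_concat, pth'_concat, h1, map_mul, ctx_ctx]
    simp
  have hi := interchange₀ (pth_arr k a) (Arr.gen h [] [])
  simp only [ctx_gen, List.nil_append, List.append_nil] at hi
  rw [Th_right h ha, lam_gen_ne ha, mul_one, key u b hu, key v b' hv, mul_assoc, hi]
  simp only [SemidirectProduct.left_inl, rho, FreeGroup.lift_apply_of, rp]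
  group

end

theorem Fac.eq_one {w : List A} {g : UG P} (h : Fac P w g w) (h1 : lam P g = 1)
    (h2 : (Th P g).left 1 = 1) : g = 1 := by
  have := h 1
  rw [h1, h2] at this
  simpa using this

theorem no_big_abelian {w : List A} (hF : ∀ g, Arr P w g w → Fac P w g w)
    (κ : Multiplicative (ℤ →₀ ℤ) →* DiagramGroup P w) : ¬ Function.Injective κ := by
  intro hκ
  let k := (toU P w).comp κ
  have hk : Function.Injective k := toU_injective.comp hκ
  let x : ℤ → Multiplicative (ℤ →₀ ℤ) := fun i => Multiplicative.ofAdd (Finsupp.single i 1)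
  obtain ⟨m0, m1, hm, e1⟩ := free_comm (((Commute.all (x 0) (x 1)).map k).map (lam P))
  obtain ⟨m2, m3, hm', e2⟩ := free_comm (((Commute.all (x 2) (x 3)).map k).map (lam P))
  let ψ : (lam P).ker →* FR P :=
    { toFun := fun g => (Th P g).left 1
      map_one' := by simp
      map_mul' := fun g g' => by
        rw [Subgroup.coe_mul, Th_mul, MonoidHom.mem_ker.1 g.2, mul_one] }
  let y0 : (lam P).ker := ⟨k (x 0 ^ m0 * x 1 ^ m1), by simpa [MonoidHom.mem_ker] using e1⟩
  let y1 : (lam P).ker := ⟨k (x 2 ^ m2 * x 3 ^ m3), by simpa [MonoidHom.mem_ker] using e2⟩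
  have hy : Commute y0 y1 := Subtype.ext ((Commute.all _ _).map k).eq
  obtain ⟨n0, n1, hn, e3⟩ := free_comm (hy.map ψ)
  rw [← map_zpow, ← map_zpow, ← map_mul] at e3
  have e4 : ((y0 ^ n0 * y1 ^ n1 : (lam P).ker) : UG P) =
      k ((x 0 ^ m0 * x 1 ^ m1) ^ n0 * (x 2 ^ m2 * x 3 ^ m3) ^ n1) := by
    rw [map_mul, map_zpow, map_zpow]; rfl
  have e5 := (hF _ (e4 ▸ arr_toU _)).eq_one (y0 ^ n0 * y1 ^ n1).2 e3
  rw [e4] at e5
  have e6 := congrArg Multiplicative.toAdd (hk (e5.trans (map_one k).symm))
  simp only [x, toAdd_mul, toAdd_zpow, toAdd_ofAdd, toAdd_one] at e6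
  have c0 := DFunLike.congr_fun e6 0
  have c1 := DFunLike.congr_fun e6 1
  have c2 := DFunLike.congr_fun e6 2
  have c3 := DFunLike.congr_fun e6 3
  simp at c0 c1 c2 c3
  omega

end Pool.Agent.H363Z
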