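import Mathlib

set_option autoImplicit false

/-!
Right-angled Artin groups are residually torsion: a truncated Magnus representation.
-/

namespace Pool.Agent.H363Z.Mag

variable {V : Type} (Γ : SimpleGraph V)

/-- the relators -/
def rels : Set (FreeGroup V) := {r : FreeGroup V | ∃ s t, Γ.Adj s t ∧
  r = FreeGroup.of s * FreeGroup.of t * (FreeGroup.of s)⁻¹ * (FreeGroup.of t)⁻¹}

/-- exchanging two adjacent commuting letters -/
def CS (l l' : List V) : Prop :=
  ∃ x y a b, Γ.Adj a b ∧ l = x ++ a :: b :: y ∧ l' = x ++ b :: a :: y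

/-- traces -/
def Tr : Type := Quot (CS Γ)

variable {Γ}

/-- length of a trace -/
def len : Tr Γ → ℕ := Quot.lift List.length (by rintro _ _ ⟨x, y, a, b, -, rfl, rfl⟩; simp)

/-- adding a letter -/
def cons (v : V) : Tr Γ → Tr Γ := Quot.map (List.cons v) (by
  rintro _ _ ⟨x, y, a, b, h, rfl, rfl⟩
  exact ⟨v :: x, y, a, b, h, rfl, rfl⟩)

theorem len_cons (v : V) (m : Tr Γ) : len (cons v m) = len m + 1 := by
  obtain ⟨l⟩ := m; rfl

theorem cons_comm {u v : V} (h : Γ.Adj u v) (m : Tr Γ) : cons u (cons v m) = cons v (cons u m) := by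
  obtain ⟨l⟩ := m
  exact Quot.sound ⟨[], l, u, v, h, rfl, rfl⟩

/-- short square free traces -/
def good (k : ℕ) (m : Tr Γ) : Prop :=
  len m ≤ k ∧ ∀ x a y, Quot.mk _ (x ++ a :: a :: y) ≠ m

theorem good.of_cons {k : ℕ} {v : V} {m : Tr Γ} (h : good k (cons v m)) : good k m := by
  refine ⟨by have := h.1; rw [len_cons] at this; omega, fun x a y e => h.2 (v :: x) a y ?_⟩
  rw [← e]; rfl

theorem not_good (k : ℕ) (v : V) (m : Tr Γ) : ¬ good k (cons v (cons v m)) := by
  obtain ⟨l⟩ := m
  exact fun h => h.2 [] v l rfl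

variable (R : Type) [CommRing R] (k : ℕ)

open Classical in
/-- basis vectors, cut off -/
noncomputable def bv (m : Tr Γ) : Tr Γ →₀ R := if good k m then Finsupp.single m 1 else 0

variable (Γ) in
/-- the creation operators -/
noncomputable def X (v : V) : Module.End R (Tr Γ →₀ R) :=
  Finsupp.linearCombination R (fun m => bv R k (cons v m))

theorem X_single (v : V) (m : Tr Γ) (c : R) :
    X Γ R k v (Finsupp.single m c) = c • bv R k (cons v m) := by
  simp [X]

theorem X_bv (v : V) (m : Tr Γ) : X Γ R k v (bv R k m) = bv R k (cons v m) := by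
  by_cases h : good k m
  · rw [bv, if_pos h, X_single, one_smul]
  · rw [bv, if_neg h, map_zero, bv, if_neg (fun h' => h h'.of_cons)]

theorem X_sq (v : V) : X Γ R k v * X Γ R k v = 0 := by
  apply Finsupp.lhom_ext
  intro m c
  simp only [Module.End.mul_apply, X_single, map_smul, X_bv, LinearMap.zero_apply]
  rw [bv, if_neg (not_good k v m), smul_zero]

theorem X_comm {u v : V} (h : Γ.Adj u v) : X Γ R k u * X Γ R k v = X Γ R k v * X Γ R k u := by
  apply Finsupp.lhom_ext
  intro m c
  simp only [Module.End.mul_apply, X_single, map_smul, X_bv, cons_comm h]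

theorem ring1 {A : Type*} [Ring A] {x : A} (h : x * x = 0) : (1 + x) * (1 - x) = 1 := by
  rw [add_mul, mul_sub, mul_sub, h]; simp

theorem ring2 {A : Type*} [Ring A] {x : A} (h : x * x = 0) : (1 - x) * (1 + x) = 1 := by
  rw [sub_mul, mul_add, mul_add, h]; simp

theorem ring3 {A : Type*} [Ring A] [Algebra R A] {x : A} (h : x * x = 0) (c : R) :
    (1 + c • x) * (1 - x) = 1 + (c - 1) • x := by
  simp only [add_mul, mul_sub, one_mul, mul_one, smul_mul_assoc, h, smul_zero, sub_smul, one_smul]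
  abel

theorem ring4 {A : Type*} [Ring A] (a b : A) :
    a * b - 1 = (a - 1) * (b - 1) + (a - 1) + (b - 1) := by noncomm_ring

theorem ring5 {A : Type*} [Ring A] (a : A) : 1 + a - 1 = a := by abel

variable (Γ) in
/-- the units -/
noncomputable def U (v : V) : (Module.End R (Tr Γ →₀ R))ˣ :=
  ⟨1 + X Γ R k v, 1 - X Γ R k v, ring1 (A := Module.End R (Tr Γ →₀ R)) (X_sq R k v),
    ring2 (A := Module.End R (Tr Γ →₀ R)) (X_sq R k v)⟩

variable (Γ) in
/-- the representation -/
noncomputable def mu : PresentedGroup (rels Γ) →* (Module.End R (Tr Γ →₀ R))ˣ :=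
  PresentedGroup.toGroup (f := U Γ R k) (by
    rintro _ ⟨s, t, h, rfl⟩
    simp only [map_mul, map_inv, FreeGroup.lift_apply_of]
    have : U Γ R k s * U Γ R k t = U Γ R k t * U Γ R k s := by
      apply Units.ext
      simp only [U, Units.val_mul, add_mul, mul_add, X_comm R k h, one_mul, mul_one]
      abel
    rw [this]
    group)

theorem mu_of (v : V) : mu Γ R k (PresentedGroup.of v) = U Γ R k v := PresentedGroup.toGroup.of _

theorem U_zpow (v : V) (e : ℤ) :
    ((U Γ R k v ^ e : (Module.End R (Tr Γ →₀ R))ˣ) : Module.End R (Tr Γ →₀ R)) =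
      1 + (e : R) • X Γ R k v := by
  induction e using Int.induction_on with
  | zero => simp
  | succ n ih =>
    rw [zpow_add_one, Units.val_mul, ih]
    simp only [U, add_mul, mul_add, one_mul, mul_one, smul_mul_assoc, X_sq, smul_zero]
    push_cast
    rw [add_smul, one_smul]
    abel
  | pred n ih =>
    rw [zpow_sub_one, Units.val_mul, ih]
    rw [Int.cast_sub, Int.cast_one]
    exact ring3 R (A := Module.End R (Tr Γ →₀ R)) (X_sq R k v) _

variable (Γ) in
/-- the filtration -/
noncomputable def S (n : ℕ) : Submodule R (Tr Γ →₀ R) :=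
  Finsupp.supported R R {m | n ≤ len m ∧ (n = 0 ∨ len m ≤ k)}

/-- operators raising the filtration -/
def Raise (Y : Module.End R (Tr Γ →₀ R)) : Prop := ∀ n, ∀ f ∈ S Γ R k n, Y f ∈ S Γ R k (n + 1)

theorem S_le (n : ℕ) : S Γ R k (n + 1) ≤ S Γ R k n :=
  Finsupp.supported_mono (fun m hm => ⟨by have := hm.1; omega, by have := hm.2; omega⟩)

theorem X_maps (v : V) (A B : Set (Tr Γ)) (h : ∀ m ∈ A, good k (cons v m) → cons v m ∈ B) :
    ∀ f ∈ Finsupp.supported R R A, X Γ R k v f ∈ Finsupp.supported R R B := by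
  intro f hf
  rw [Finsupp.supported_eq_span_single] at hf
  induction hf using Submodule.span_induction with
  | mem x hx =>
    obtain ⟨m, hm, rfl⟩ := hx
    rw [X_single, one_smul, bv]
    split_ifs with hg
    · exact Finsupp.single_mem_supported _ _ (h m hm hg)
    · exact zero_mem _
  | zero => simp
  | add x y _ _ hx hy => rw [map_add]; exact add_mem hx hy
  | smul c x _ hx => rw [map_smul]; exact Submodule.smul_mem _ _ hx

theorem raise_X (v : V) : Raise R k (X Γ R k v) := fun n =>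
  X_maps R k v _ _ (fun m hm hg => ⟨by rw [len_cons]; have := hm.1; omega, Or.inr hg.1⟩)

theorem raise_mu (g : PresentedGroup (rels Γ)) :
    Raise R k ((mu Γ R k g : Module.End R (Tr Γ →₀ R)) - 1) := by
  obtain ⟨x, rfl⟩ := PresentedGroup.mk_surjective _ g
  induction x using FreeGroup.induction_on with
  | C1 => intro n f _; simp
  | of v =>
    have : (PresentedGroup.mk (rels Γ)) (FreeGroup.of v) = PresentedGroup.of v := rfl
    rw [this, mu_of]
    have e : ((U Γ R k v : _) : Module.End R (Tr Γ →₀ R)) - 1 = X Γ R k v :=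
      ring5 (A := Module.End R (Tr Γ →₀ R)) _
    rw [e]
    exact raise_X R k v
  | inv_of v _ =>
    have : (PresentedGroup.mk (rels Γ)) (FreeGroup.of v) = PresentedGroup.of v := rfl
    rw [map_inv, this, map_inv, mu_of]
    intro n f hf
    simpa [U] using raise_X R k v n f hf
  | mul x y hx hy =>
    rw [map_mul, map_mul, Units.val_mul]
    generalize ((mu Γ R k (PresentedGroup.mk (rels Γ) x) : _) : Module.End R (Tr Γ →₀ R)) = a at *
    generalize ((mu Γ R k (PresentedGroup.mk (rels Γ) y) : _) : Module.End R (Tr Γ →₀ R)) = b at *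
    intro n f hf
    have : a * b - 1 = (a - 1) * (b - 1) + (a - 1) + (b - 1) :=
      ring4 (A := Module.End R (Tr Γ →₀ R)) a b
    rw [this]
    exact add_mem (add_mem (S_le R k _ (hx _ _ (hy n f hf))) (hx n f hf)) (hy n f hf)

theorem Raise.pow {Y : Module.End R (Tr Γ →₀ R)} (h : Raise R k Y) : Y ^ (k + 1) = 0 := by
  have key : ∀ n f, (Y ^ n) f ∈ S Γ R k n := by
    intro n f
    induction n with
    | zero => intro m _; simp
    | succ n ih => rw [pow_succ']; exact h n _ ih
  refine LinearMap.ext (fun f => ?_)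
  have := key (k + 1) f
  ext m
  by_contra hm
  have h2 := this (Finsupp.mem_support_iff.2 hm)
  have h3 := h2.1
  have h4 := h2.2
  omega

theorem mu_torsion (p : ℕ) [Fact p.Prime] (g : PresentedGroup (rels Γ)) :
    mu Γ (ZMod p) k g ^ (p ^ (k + 1)) = 1 := by
  have hY := (raise_mu (ZMod p) k g).pow
  have : Nonempty (Tr Γ) := ⟨Quot.mk _ []⟩
  have : CharP (Module.End (ZMod p) (Tr Γ →₀ ZMod p)) p :=
    charP_of_injective_algebraMap (algebraMap (ZMod p) _).injective p
  apply Units.ext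
  rw [Units.val_pow_eq_pow_val, Units.val_one]
  generalize ((mu Γ (ZMod p) k g : _) : Module.End (ZMod p) (Tr Γ →₀ ZMod p)) = a at *
  have e : a = 1 + (a - 1) := by abel
  rw [e, add_pow_char_pow_of_commute p (k + 1) (Commute.one_left _), one_pow,
    pow_eq_zero_of_le (Nat.lt_pow_self (Fact.out : p.Prime).one_lt).le hY, add_zero]

variable (Γ) in
/-- the value of a list of syllables -/
def val (s : List (V × ℤ)) : PresentedGroup (rels Γ) :=
  (s.map (fun x => (PresentedGroup.of x.1 : PresentedGroup (rels Γ)) ^ x.2)).prod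

theorem val_surj (g : PresentedGroup (rels Γ)) : ∃ s, val Γ s = g := by
  obtain ⟨x, rfl⟩ := PresentedGroup.mk_surjective _ g
  induction x using FreeGroup.induction_on with
  | C1 => exact ⟨[], rfl⟩
  | of v => exact ⟨[(v, 1)], by simp [val]; rfl⟩
  | inv_of v _ => exact ⟨[(v, -1)], by simp [val]; rfl⟩
  | mul x y hx hy =>
    obtain ⟨s, hs⟩ := hx
    obtain ⟨t, ht⟩ := hy
    exact ⟨s ++ t, by rw [map_mul, ← hs, ← ht]; simp [val]⟩

theorem top_term (s : List (V × ℤ)) :
    (mu Γ R k (val Γ s) : Module.End R (Tr Γ →₀ R)) (bv R k (Quot.mk _ [])) -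
      (((s.map Prod.snd).prod : ℤ) : R) • bv R k (Quot.mk _ (s.map Prod.fst)) ∈
      Finsupp.supported R R {m | len m < s.length} := by
  induction s with
  | nil => simp [val]
  | cons x s ih =>
    have e : val Γ (x :: s) = PresentedGroup.of x.1 ^ x.2 * val Γ s := by simp [val]
    rw [e, map_mul, map_zpow, mu_of, Units.val_mul, U_zpow, Module.End.mul_apply]
    generalize (mu Γ R k (val Γ s) : Module.End R (Tr Γ →₀ R)) (bv R k (Quot.mk _ [])) = F at *
    have h1 := X_maps R k x.1 {m | len m < s.length} {m | len m < (x :: s).length}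
      (fun m hm _ => by simpa [len_cons] using hm) _ ih
    have h2 : Finsupp.supported R R {m : Tr Γ | len m < s.length} ≤
        Finsupp.supported R R {m | len m < (x :: s).length} :=
      Finsupp.supported_mono (fun m hm => by
        simp only [Set.mem_ofPred_eq, List.length_cons] at hm ⊢; omega)
    have h3 : bv R k (Quot.mk (CS Γ) (s.map Prod.fst)) ∈
        Finsupp.supported R R {m : Tr Γ | len m < (x :: s).length} := by
      rw [bv]
      split_ifs
      · exact Finsupp.single_mem_supported _ _ (by simp [len])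
      · exact zero_mem _
    rw [map_sub, map_smul, X_bv] at h1
    have h4 := add_mem (add_mem (h2 ih)
      (Submodule.smul_mem _ (((s.map Prod.snd).prod : ℤ) : R) h3)) (Submodule.smul_mem _ (x.2 : R) h1)
    convert h4 using 1
    have e2 : Quot.mk (CS Γ) ((x :: s).map Prod.fst) = cons x.1 (Quot.mk _ (s.map Prod.fst)) := rfl
    rw [e2]
    simp only [List.map_cons, List.prod_cons, Int.cast_mul, LinearMap.add_apply,
      Module.End.one_apply, LinearMap.smul_apply, smul_sub, mul_smul]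
    abel

theorem of_comm {a b : V} (h : Γ.Adj a b) :
    Commute (PresentedGroup.of a : PresentedGroup (rels Γ)) (PresentedGroup.of b) := by
  have : (PresentedGroup.mk (rels Γ)) (FreeGroup.of a * FreeGroup.of b * (FreeGroup.of a)⁻¹ *
      (FreeGroup.of b)⁻¹) = 1 := PresentedGroup.one_of_mem ⟨a, b, h, rfl⟩
  rw [map_mul, map_mul, map_mul, map_inv, map_inv, mul_inv_eq_one, mul_inv_eq_iff_eq_mul] at this
  exact this

theorem lift_cs (g : PresentedGroup (rels Γ)) {l l' : List V} (h : CS Γ l l')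
    (hl : ∃ s, s.map Prod.fst = l ∧ val Γ s = g) : ∃ s, s.map Prod.fst = l' ∧ val Γ s = g := by
  obtain ⟨x, y, a, b, hab, rfl, rfl⟩ := h
  obtain ⟨s, hs, rfl⟩ := hl
  obtain ⟨s1, s2, rfl, rfl, h2⟩ := List.map_eq_append_iff.1 hs
  obtain ⟨⟨a', e⟩, s3, rfl, rfl, h3⟩ := List.map_eq_cons_iff.1 h2
  obtain ⟨⟨b', e'⟩, s4, rfl, rfl, rfl⟩ := List.map_eq_cons_iff.1 h3
  refine ⟨s1 ++ (b', e') :: (a', e) :: s4, by simp, ?_⟩
  simp only [val, List.map_append, List.map_cons, List.prod_append, List.prod_cons]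
  rw [← mul_assoc (_ ^ e'), ← mul_assoc (_ ^ e), ((of_comm hab).zpow_zpow e e').eq]

theorem exists_rep {g : PresentedGroup (rels Γ)} (hg : g ≠ 1) :
    ∃ (k p : ℕ) (_ : Fact p.Prime), mu Γ (ZMod p) k g ≠ 1 := by
  classical
  have hex : ∃ n, ∃ s : List (V × ℤ), s.length = n ∧ val Γ s = g := by
    obtain ⟨s, hs⟩ := val_surj g
    exact ⟨_, s, rfl, hs⟩
  obtain ⟨s, hs, hsg⟩ := Nat.find_spec hex
  have hmin : ∀ s' : List (V × ℤ), val Γ s' = g → s.length ≤ s'.length := fun s' h =>
    hs ▸ Nat.find_min' hex ⟨s', rfl, h⟩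
  have hne : (s.map Prod.snd).prod ≠ 0 := by
    intro h0
    obtain ⟨⟨v, e⟩, hx, he⟩ := List.mem_map.1 (List.prod_eq_zero_iff.1 h0)
    obtain ⟨s1, s2, rfl⟩ := List.append_of_mem hx
    simp only at he
    subst he
    have := hmin (s1 ++ s2) (by rw [← hsg]; simp [val])
    simp at this
  have hgood : good s.length (Quot.mk (CS Γ) (s.map Prod.fst)) := by
    refine ⟨by simp [len], fun x a y e => ?_⟩
    have key : ∀ l l', CS Γ l l' → (∃ s, s.map Prod.fst = l ∧ val Γ s = g) =
        (∃ s, s.map Prod.fst = l' ∧ val Γ s = g) := by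
      intro l l' h
      refine propext ⟨lift_cs g h, lift_cs g ?_⟩
      obtain ⟨x, y, a, b, hab, rfl, rfl⟩ := h
      exact ⟨x, y, b, a, hab.symm, rfl, rfl⟩
    have h1 := congrArg (Quot.lift (fun l => ∃ s, s.map Prod.fst = l ∧ val Γ s = g) key) e
    have h2 := congrArg len e
    obtain ⟨s', hs', hv⟩ : ∃ s : List (V × ℤ), s.map Prod.fst = x ++ a :: a :: y ∧ val Γ s = g :=
      (Eq.to_iff h1).2 ⟨s, rfl, hsg⟩
    obtain ⟨s1, s2, rfl, rfl, h2'⟩ := List.map_eq_append_iff.1 hs'
    obtain ⟨⟨a', e1⟩, s3, rfl, rfl, h3⟩ := List.map_eq_cons_iff.1 h2'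
    obtain ⟨⟨b', e2⟩, s4, rfl, hb, rfl⟩ := List.map_eq_cons_iff.1 h3
    simp only at hb
    subst hb
    have := hmin (s1 ++ (b', e1 + e2) :: s4) (by rw [← hv]; simp [val, zpow_add, mul_assoc])
    simp [len] at h2 this
    omega
  obtain ⟨p, hp, hp'⟩ := Nat.exists_infinite_primes ((s.map Prod.snd).prod.natAbs + 1)
  have := Fact.mk hp'
  refine ⟨s.length, p, this, fun h => ?_⟩
  have h1 := top_term (Γ := Γ) (ZMod p) s.length s
  rw [hsg, h] at h1
  have h2 := (Finsupp.mem_supported' _ _).1 h1 (Quot.mk _ (s.map Prod.fst)) (by simp [len])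
  have hs0 : s ≠ [] := by
    rintro rfl
    exact hg hsg.symm
  have h3 : bv (ZMod p) s.length (Quot.mk (CS Γ) []) (Quot.mk _ (s.map Prod.fst)) = 0 := by
    rw [bv]
    split_ifs
    · refine Finsupp.single_eq_of_ne (fun e => hs0 ?_)
      have := congrArg len e
      simpa [len] using this
    · rfl
  rw [Finsupp.sub_apply, Units.val_one, Module.End.one_apply, h3, bv, if_pos hgood] at h2
  simp only [Finsupp.smul_apply, Finsupp.single_eq_same, smul_eq_mul, mul_one, zero_sub,
    neg_eq_zero] at h2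
  have h4 := (ZMod.intCast_zmod_eq_zero_iff_dvd _ p).1 h2
  have h5 := Nat.le_of_dvd (Int.natAbs_pos.2 hne) (Int.natCast_dvd.1 h4)
  omega

theorem raag_law {a b t : PresentedGroup (rels Γ)}
    (h : ∀ n : ℕ, Commute a (t ^ n * b * (t ^ n)⁻¹)) : Commute a (t⁻¹ * b * t) := by
  by_contra hc
  have hne : a * (t⁻¹ * b * t) * (t⁻¹ * b * t * a)⁻¹ ≠ 1 := fun e => hc (mul_inv_eq_one.1 e)
  obtain ⟨k, p, hp, hmu⟩ := exists_rep hne
  apply hmu
  have h1 := mu_torsion k p t
  obtain ⟨n, hn⟩ : ∃ n, p ^ (k + 1) = n + 1 :=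
    ⟨p ^ (k + 1) - 1, by have := pow_pos hp.out.pos (k + 1); omega⟩
  rw [hn, pow_succ, mul_eq_one_iff_eq_inv] at h1
  have h2 := (h n).map (mu Γ (ZMod p) k)
  simp only [map_mul, map_inv, map_pow, h1, inv_inv] at h2 ⊢
  rw [mul_inv_eq_one]
  exact h2

end Pool.Agent.H363Z.Mag
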