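import Mathlib

set_option autoImplicit false

/-!
The group `PL₊([0,1])` and Thompson's group `F`, realised as groups of permutations of the real
line that are the identity outside `[0,1]`.
-/

namespace Pool.Agent.H363Z

open Set

/-- `g` is an increasing bijection of the real line, equal to the identity outside `[0,1]`, and
piecewise linear with finitely many breakpoints: there is a finite set `B ⊆ D` such that on every
interval `[x,y]` with no point of `B` in its interior `g` is affine with slope in `S`. -/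
def IsPL (D S : Set ℝ) (g : Equiv.Perm ℝ) : Prop :=
  StrictMono g ∧ (∀ x, x ∉ Icc (0 : ℝ) 1 → g x = x) ∧
    ∃ B : Finset ℝ, (∀ b ∈ B, b ∈ D) ∧ ∀ x y : ℝ, x < y → (∀ b ∈ B, b ∉ Ioo x y) →
      ∃ s ∈ S, ∀ z ∈ Icc x y, g z = g x + s * (z - x)

/-- the dyadic rationals -/
def Dyadics : Set ℝ := {x | ∃ (m : ℤ) (e : ℕ), x = m / 2 ^ e}

/-- the integer powers of two -/
def PowTwo : Set ℝ := {s | ∃ k : ℤ, s = 2 ^ k}

/-- closure properties of the set of allowed breakpoints and the set of allowed slopes -/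
structure Adm (D S : Set ℝ) : Prop where
  one : (1 : ℝ) ∈ S
  mul : ∀ s ∈ S, ∀ t ∈ S, s * t ∈ S
  inv : ∀ s ∈ S, s⁻¹ ∈ S
  zero : (0 : ℝ) ∈ D
  aff : ∀ a ∈ D, ∀ b ∈ D, ∀ c ∈ D, ∀ s ∈ S, a + s * (b - c) ∈ D

variable {D S : Set ℝ}

theorem strictMono_inv {g : Equiv.Perm ℝ} (h : StrictMono g) : StrictMono ⇑g⁻¹ := by
  intro x y hxy
  rw [← h.lt_iff_lt]
  simpa using hxy

theorem IsPL.fix {g : Equiv.Perm ℝ} (h : IsPL D S g) {x : ℝ} (hx : x ∉ Ioo (0 : ℝ) 1) :
    g x = x := by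
  by_cases h1 : x ∈ Icc (0 : ℝ) 1
  · have hc : Continuous g := h.1.monotone.continuous_of_surjective g.surjective
    have hcl : IsClosed {y : ℝ | g y = y} := isClosed_eq hc continuous_id
    have hx' : x = 0 ∨ x = 1 := by
      by_contra hh
      push Not at hh
      exact hx ⟨lt_of_le_of_ne h1.1 hh.1.symm, lt_of_le_of_ne h1.2 hh.2⟩
    rcases hx' with rfl | rfl
    · have : closure (Iio (0 : ℝ)) ⊆ {y : ℝ | g y = y} :=
        hcl.closure_subset_iff.2 (fun y hy => h.2.1 y (fun hh => absurd hh.1 (not_le.2 hy)))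
      exact this (by simp)
    · have : closure (Ioi (1 : ℝ)) ⊆ {y : ℝ | g y = y} :=
        hcl.closure_subset_iff.2 (fun y hy => h.2.1 y (fun hh => absurd hh.2 (not_le.2 hy)))
      exact this (by simp)
  · exact h.2.1 x h1

theorem exists_last (B : Finset ℝ) {x : ℝ} (hx : 0 < x) :
    ∃ p, 0 ≤ p ∧ p < x ∧ (p = 0 ∨ p ∈ B) ∧ ∀ b ∈ B, b ∉ Ioo p x := by
  classical
  have hne : ((insert 0 B).filter (fun b => b < x)).Nonempty := ⟨0, by simp [hx]⟩
  have h1 := Finset.max'_mem _ hne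
  have h2 := fun b hb => Finset.le_max' ((insert 0 B).filter (fun b => b < x)) b hb
  rw [Finset.mem_filter, Finset.mem_insert] at h1
  refine ⟨_, h2 0 (by simp [hx]), h1.2, h1.1, fun b hb hb' => ?_⟩
  exact absurd (h2 b (by simp [hb, hb'.2])) (not_le.2 hb'.1)

theorem IsPL.mem_iff (hA : Adm D S) {g : Equiv.Perm ℝ} (h : IsPL D S g) (x : ℝ) :
    g x ∈ D ↔ x ∈ D := by
  classical
  obtain ⟨B, hB, hB'⟩ := h.2.2
  have key : ∀ n : ℕ, ∀ x : ℝ, (B.filter (fun b => b < x)).card ≤ n → (g x ∈ D ↔ x ∈ D) := by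
    intro n
    induction n using Nat.strong_induction_on with
    | _ n ih =>
      intro x hx
      by_cases h0 : 0 < x
      · obtain ⟨p, hp0, hpx, hp, hp'⟩ := exists_last B h0
        have hpD : p ∈ D := hp.elim (fun e => e ▸ hA.zero) (hB p)
        have hgp : g p ∈ D := by
          rcases hp with rfl | hp
          · rw [h.fix (by simp)]; exact hA.zero
          · have hlt : (B.filter (fun b => b < p)).card < (B.filter (fun b => b < x)).card := by
              apply Finset.card_lt_card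
              refine ⟨fun b hb => ?_, fun hh => ?_⟩
              · rw [Finset.mem_filter] at hb ⊢
                exact ⟨hb.1, hb.2.trans hpx⟩
              · have := hh (Finset.mem_filter.2 ⟨hp, hpx⟩)
                simp at this
            exact (ih _ (lt_of_lt_of_le hlt hx) p le_rfl).2 hpD
        obtain ⟨s, hs, hs'⟩ := hB' p x hpx hp'
        have e := hs' x ⟨hpx.le, le_rfl⟩
        have hs0 : s ≠ 0 := by
          rintro rfl
          have := h.1 hpx
          rw [e] at this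
          simp at this
        constructor
        · intro hgx
          have : x = p + s⁻¹ * (g x - g p) := by rw [e]; field_simp; ring
          rw [this]
          exact hA.aff _ hpD _ hgx _ hgp _ (hA.inv s hs)
        · intro hx
          rw [e]
          exact hA.aff _ hgp _ hx _ hpD _ hs
      · rw [h.fix (fun hh => h0 hh.1)]
  exact key _ x le_rfl

theorem IsPL.one (hA : Adm D S) : IsPL D S 1 :=
  ⟨strictMono_id, fun _ _ => rfl, ∅, by simp, fun x y _ _ => ⟨1, hA.one, fun z _ => by simp⟩⟩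

theorem IsPL.mul (hA : Adm D S) {g h : Equiv.Perm ℝ} (hg : IsPL D S g) (hh : IsPL D S h) :
    IsPL D S (g * h) := by
  classical
  obtain ⟨B, hB, hB'⟩ := hg.2.2
  obtain ⟨C, hC, hC'⟩ := hh.2.2
  refine ⟨hg.1.comp hh.1, fun x hx => by simp [hg.2.1 x hx, hh.2.1 x hx],
    C ∪ B.image ⇑h⁻¹, fun b hb => ?_, fun x y hxy hb => ?_⟩
  · rcases Finset.mem_union.1 hb with hb | hb
    · exact hC b hb
    · obtain ⟨c, hc, rfl⟩ := Finset.mem_image.1 hb
      rw [← hh.mem_iff hA]
      simpa using hB c hc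
  · obtain ⟨s, hs, hs'⟩ := hC' x y hxy (fun b hb' => hb b (Finset.mem_union_left _ hb'))
    obtain ⟨t, ht, ht'⟩ := hB' (h x) (h y) (hh.1 hxy) (fun b hb' hb'' => hb (h⁻¹ b)
      (Finset.mem_union_right _ (Finset.mem_image_of_mem _ hb'))
      ⟨by simpa using strictMono_inv hh.1 hb''.1, by simpa using strictMono_inv hh.1 hb''.2⟩)
    refine ⟨t * s, hA.mul _ ht _ hs, fun z hz => ?_⟩
    simp only [Equiv.Perm.mul_apply]
    rw [ht' (h z) ⟨hh.1.monotone hz.1, hh.1.monotone hz.2⟩, hs' z hz]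
    ring

theorem IsPL.inv (hA : Adm D S) {g : Equiv.Perm ℝ} (hg : IsPL D S g) : IsPL D S g⁻¹ := by
  classical
  obtain ⟨B, hB, hB'⟩ := hg.2.2
  have hm := strictMono_inv hg.1
  refine ⟨hm, fun x hx => by rw [Equiv.Perm.inv_eq_iff_eq, hg.2.1 x hx],
    B.image ⇑g, fun b hb => ?_, fun x y hxy hb => ?_⟩
  · obtain ⟨c, hc, rfl⟩ := Finset.mem_image.1 hb
    exact (hg.mem_iff hA c).2 (hB c hc)
  · obtain ⟨s, hs, hs'⟩ := hB' (g⁻¹ x) (g⁻¹ y) (hm hxy) (fun b hb' hb'' => hb (g b)
      (Finset.mem_image_of_mem _ hb')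
      ⟨by simpa using hg.1 hb''.1, by simpa using hg.1 hb''.2⟩)
    have hs0 : s ≠ 0 := by
      rintro rfl
      have := hs' (g⁻¹ y) ⟨(hm hxy).le, le_rfl⟩
      simp at this
      exact hxy.ne' this
    refine ⟨s⁻¹, hA.inv _ hs, fun z hz => ?_⟩
    have := hs' (g⁻¹ z) ⟨hm.monotone hz.1, hm.monotone hz.2⟩
    have e1 : g (g⁻¹ z) = z := by simp
    have e2 : g (g⁻¹ x) = x := by simp
    rw [e1, e2] at this
    generalize g⁻¹ z = u at this ⊢
    generalize g⁻¹ x = v at this ⊢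
    rw [this]
    field_simp
    ring

theorem adm_univ : Adm univ univ := ⟨trivial, by simp, by simp, trivial, by simp⟩

theorem adm_dyadic : Adm Dyadics PowTwo := by
  refine ⟨⟨0, by simp⟩, ?_, ?_, ⟨0, 0, by simp⟩, ?_⟩
  · rintro _ ⟨k, rfl⟩ _ ⟨l, rfl⟩
    exact ⟨k + l, by rw [zpow_add₀ two_ne_zero]⟩
  · rintro _ ⟨k, rfl⟩
    exact ⟨-k, by rw [zpow_neg]⟩
  · rintro _ ⟨a, i, rfl⟩ _ ⟨b, j, rfl⟩ _ ⟨c, l, rfl⟩ _ ⟨k, rfl⟩
    rcases Int.eq_nat_or_neg k with ⟨n, rfl | rfl⟩
    · refine ⟨a * 2 ^ (j + l) + 2 ^ (n + i) * (b * 2 ^ l - c * 2 ^ j), i + j + l, ?_⟩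
      push_cast
      simp only [zpow_natCast, pow_add]
      field_simp
    · refine ⟨a * 2 ^ (n + j + l) + 2 ^ i * (b * 2 ^ l - c * 2 ^ j), n + i + j + l, ?_⟩
      push_cast
      simp only [zpow_neg, zpow_natCast, pow_add]
      field_simp

/-- The group `PL₊([0,1])`. -/
def PLplus : Subgroup (Equiv.Perm ℝ) where
  carrier := {g | IsPL univ univ g}
  one_mem' := IsPL.one adm_univ
  mul_mem' := IsPL.mul adm_univ
  inv_mem' := IsPL.inv adm_univ

/-- Thompson's group `F`: dyadic breakpoints, slopes integer powers of two. -/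
def ThompsonF : Subgroup (Equiv.Perm ℝ) where
  carrier := {g | IsPL Dyadics PowTwo g}
  one_mem' := IsPL.one adm_dyadic
  mul_mem' := IsPL.mul adm_dyadic
  inv_mem' := IsPL.inv adm_dyadic

end Pool.Agent.H363Z
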