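import Pool.Agent.H363Z.PLDefs

set_option autoImplicit false

/-!
A law with side conditions that holds in `PL₊([0,1])`.
-/

namespace Pool.Agent.H363Z.Res

open Set Filter Topology
open scoped commutatorElement

theorem cont {g : Equiv.Perm ℝ} (hg : g ∈ PLplus) : Continuous g :=
  hg.1.monotone.continuous_of_surjective g.surjective

/-- left endpoints of the components of the support -/
def LE (h : Equiv.Perm ℝ) : Set ℝ := {l | h l = l ∧ ∃ s, l < s ∧ ∀ r ∈ Ioc l s, h r ≠ r}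

theorem LE_finite {h : Equiv.Perm ℝ} (hh : h ∈ PLplus) : (LE h).Finite := by
  classical
  obtain ⟨B, -, hB⟩ := hh.2.2
  have key : ∀ l1 ∈ LE h, ∀ l2 ∈ LE h, l1 < l2 →
      B.filter (fun b => b ≤ l1) ≠ B.filter (fun b => b ≤ l2) := by
    rintro l1 ⟨h1, s, hs, hs'⟩ l2 ⟨h2, -⟩ hl he
    obtain ⟨c, -, hc⟩ := hB l1 l2 hl (fun b hb hb' => by
      have : b ∈ B.filter (fun b => b ≤ l2) := Finset.mem_filter.2 ⟨hb, hb'.2.le⟩
      rw [← he, Finset.mem_filter] at this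
      exact absurd hb'.1 (not_lt.2 this.2))
    have e := hc l2 ⟨hl.le, le_rfl⟩
    rw [h1, h2] at e
    have hc1 : c = 1 := by
      have : (c - 1) * (l2 - l1) = 0 := by linarith
      rcases mul_eq_zero.1 this with h3 | h3
      · linarith
      · linarith
    refine hs' (min s l2) ⟨lt_min hs hl, min_le_left _ _⟩ ?_
    rw [hc _ ⟨(lt_min hs hl).le, min_le_right _ _⟩, h1, hc1]
    ring
  refine Set.Finite.of_finite_image (f := fun l => B.filter (fun b => b ≤ l))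
    (B.powerset.finite_toSet.subset ?_) ?_
  · rintro _ ⟨l, -, rfl⟩
    exact Finset.mem_coe.2 (Finset.mem_powerset.2 (Finset.filter_subset _ _))
  · intro l1 h1 l2 h2 he
    rcases lt_trichotomy l1 l2 with h | h | h
    · exact absurd he (key l1 h1 l2 h2 h)
    · exact h
    · exact absurd he.symm (key l2 h2 l1 h1 h)

theorem comm_apply {p h : Equiv.Perm ℝ} (c : Commute p h) (x : ℝ) : p (h x) = h (p x) := by
  have := DFunLike.congr_fun c.eq x
  simpa using this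

theorem LE_fix {h p : Equiv.Perm ℝ} (hh : h ∈ PLplus) (hp : p ∈ PLplus) (c : Commute p h) :
    ∀ l ∈ LE h, p l = l := by
  have hmap : ∀ l ∈ LE h, p l ∈ LE h := by
    rintro l ⟨h1, s, hs, hs'⟩
    refine ⟨by rw [← comm_apply c, h1], p s, hp.1 hs, fun r hr hr' => ?_⟩
    have hm := strictMono_inv hp.1
    refine hs' (p⁻¹ r) ⟨by simpa using hm hr.1, by simpa using hm.monotone hr.2⟩ ?_
    rw [← comm_apply c.inv_left, hr']
  have : Finite (LE h) := (LE_finite hh).to_subtype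
  let f : LE h → LE h := fun l => ⟨p l, hmap l l.2⟩
  have hf : StrictMono f := fun a b hab => hp.1 hab
  intro l hl
  have h1 : f ⟨l, hl⟩ = ⟨l, hl⟩ := le_antisymm (hf.le_id _) (hf.id_le _)
  exact congrArg Subtype.val h1

theorem exists_LE {h : Equiv.Perm ℝ} (hh : h ∈ PLplus) {s : ℝ} (hs : h s ≠ s) :
    ∃ l ∈ LE h, l < s ∧ ∀ r ∈ Ioc l s, h r ≠ r := by
  have hcl : IsClosed ({r : ℝ | h r = r} ∩ Iic s) :=
    (isClosed_eq (cont hh) continuous_id).inter isClosed_Iic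
  have hne : ({r : ℝ | h r = r} ∩ Iic s).Nonempty :=
    ⟨min s (-1), hh.2.1 _ (fun hx => by have := min_le_right s (-1); linarith [hx.1]),
      mem_Iic.2 (min_le_left _ _)⟩
  have hbd : BddAbove ({r : ℝ | h r = r} ∩ Iic s) := ⟨s, fun r hr => hr.2⟩
  have hm := hcl.csSup_mem hne hbd
  have hlt : sSup ({r : ℝ | h r = r} ∩ Iic s) < s :=
    lt_of_le_of_ne hm.2 (fun e => hs (e ▸ hm.1))
  have hno : ∀ r ∈ Ioc (sSup ({r : ℝ | h r = r} ∩ Iic s)) s, h r ≠ r := fun r hr hr' =>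
    absurd (le_csSup hbd ⟨hr', hr.2⟩) (not_le.2 hr.1)
  exact ⟨_, ⟨hm.1, s, hlt, hno⟩, hlt, hno⟩

theorem germ {p : Equiv.Perm ℝ} (hp : p ∈ PLplus) (l : ℝ) :
    ∃ c, ∀ᶠ y in 𝓝[>] l, p y = p l + c * (y - l) := by
  obtain ⟨B, -, hB⟩ := hp.2.2
  have h1 : IsClosed ((B : Set ℝ) \ {l}) := (B.finite_toSet.subset sdiff_subset).isClosed
  have h2 : ((B : Set ℝ) \ {l})ᶜ ∈ 𝓝 l := h1.isOpen_compl.mem_nhds (by simp)
  obtain ⟨u, v, h3, h4⟩ := mem_nhds_iff_exists_Ioo_subset.1 h2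
  obtain ⟨c, -, hc⟩ := hB l v h3.2 (fun b hb hb' =>
    h4 ⟨h3.1.trans hb'.1, hb'.2⟩ ⟨hb, hb'.1.ne'⟩)
  refine ⟨c, ?_⟩
  filter_upwards [Ioo_mem_nhdsGT h3.2] with y hy using hc y ⟨hy.1.le, hy.2.le⟩

theorem tends {p : Equiv.Perm ℝ} (hp : p ∈ PLplus) {l : ℝ} (hl : p l = l) :
    Tendsto p (𝓝[>] l) (𝓝[>] l) := by
  refine tendsto_nhdsWithin_iff.2 ⟨?_, ?_⟩
  · have := ((cont hp).tendsto l).mono_left (nhdsWithin_le_nhds (s := Ioi l))
    rwa [hl] at this
  · filter_upwards [self_mem_nhdsWithin] with y hy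
    have := hp.1 hy
    rwa [hl] at this

theorem disj {h p q : Equiv.Perm ℝ} (hh : h ∈ PLplus) (hp : p ∈ PLplus) (hq : q ∈ PLplus)
    (c1 : Commute p h) (c2 : Commute q h) : Equiv.Perm.Disjoint ⁅p, q⁆ h := by
  intro s
  by_contra hcon
  push Not at hcon
  obtain ⟨hk, hs⟩ := hcon
  obtain ⟨l, hl, hls, hno⟩ := exists_LE hh hs
  have hpl := LE_fix hh hp c1 l hl
  have hql := LE_fix hh hq c2 l hl
  have hpl' := LE_fix hh (inv_mem hp) c1.inv_left l hl
  have hql' := LE_fix hh (inv_mem hq) c2.inv_left l hl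
  obtain ⟨a, ha⟩ := germ hp l
  obtain ⟨b, hb⟩ := germ hq l
  have e1 : ∀ᶠ y in 𝓝[>] l, p (q y) = q (p y) := by
    filter_upwards [ha, hb, (tends hq hql).eventually ha, (tends hp hpl).eventually hb]
      with y h1 h2 h3 h4
    rw [h3, h4, h1, h2, hpl, hql]
    ring
  have e2 : ∀ᶠ y in 𝓝[>] l, ⁅p, q⁆ y = y := by
    filter_upwards [((tends (inv_mem hp) hpl').comp (tends (inv_mem hq) hql')).eventually e1]
      with y h1
    simp only [Function.comp] at h1
    simp only [commutatorElement_def, Equiv.Perm.mul_apply]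
    rw [h1]
    simp
  have ck : Commute ⁅p, q⁆ h := by
    rw [commutatorElement_def]
    exact ((c1.mul_left c2).mul_left c1.inv_left).mul_left c2.inv_left
  generalize ⁅p, q⁆ = k at hk e2 ck
  obtain ⟨v, hv, hv'⟩ := mem_nhdsGT_iff_exists_Ioo_subset.1 e2
  have hne : {r | l < r ∧ k r ≠ r}.Nonempty := ⟨s, hls, hk⟩
  have hbd : BddBelow {r | l < r ∧ k r ≠ r} := ⟨l, fun r hr => hr.1.le⟩
  have hm1 : l < sInf {r | l < r ∧ k r ≠ r} := by
    refine lt_of_lt_of_le hv (le_csInf hne (fun r hr => ?_))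
    by_contra hlt
    exact hr.2 (hv' ⟨hr.1, not_le.1 hlt⟩)
  have hm2 : sInf {r | l < r ∧ k r ≠ r} ≤ s := csInf_le hbd ⟨hls, hk⟩
  have key : ∀ g : Equiv.Perm ℝ, StrictMono g → g l = l → Commute k g →
      ¬ sInf {r | l < r ∧ k r ≠ r} < g (sInf {r | l < r ∧ k r ≠ r}) := by
    intro g hg hgl cg hlt
    obtain ⟨u, hu, hu'⟩ := exists_lt_of_csInf_lt hne hlt
    have hm := strictMono_inv hg
    have h1 : g⁻¹ u ∈ {r | l < r ∧ k r ≠ r} := by
      refine ⟨?_, fun e => hu.2 ?_⟩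
      · rw [← hg.lt_iff_lt, hgl]; simpa using hu.1
      · rw [comm_apply cg.inv_right] at e
        exact g⁻¹.injective e
    have h2 := csInf_le hbd h1
    have h3 := hm hu'
    simp only [Equiv.Perm.coe_inv, Equiv.symm_apply_apply] at h3 h2
    exact absurd h3 (not_lt.2 h2)
  rcases lt_or_gt_of_ne (hno _ ⟨hm1, hm2⟩) with h1 | h1
  · refine key h⁻¹ (strictMono_inv hh.1) (by rw [Equiv.Perm.inv_eq_iff_eq, hl.1]) ck.inv_right ?_
    simpa using strictMono_inv hh.1 h1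
  · exact key h hh.1 hl.1 ck h1

theorem no_pattern {a a' z d f : Equiv.Perm ℝ} (ha : a ∈ PLplus) (hf : f ∈ PLplus)
    (d0 : Equiv.Perm.Disjoint a a') (d1 : Equiv.Perm.Disjoint d a)
    (d2 : Equiv.Perm.Disjoint d a') (d3 : Equiv.Perm.Disjoint d z) (c : Commute f a)
    (r : d * f = f * a') {u v u' : ℝ} (h1 : u < v) (h2 : v < u') (hu : a u ≠ u) (hv : a' v ≠ v)
    (hu' : a u' ≠ u') (hJ : ∀ s ∈ Icc u u', ¬ (a s = s ∧ a' s = s ∧ z s = s)) : False := by
  obtain ⟨l, hl, hlu, hno⟩ := exists_LE ha hu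
  obtain ⟨l', hl', hlu', hno'⟩ := exists_LE ha hu'
  have hav : a v = v := (d0 v).resolve_right hv
  have h3 : v ≤ l' := by
    by_contra hlt
    exact hno' v ⟨not_le.1 hlt, h2.le⟩ hav
  have h4 : l < f v := by
    have := hf.1 (hlu.trans h1)
    rwa [LE_fix ha hf c l hl] at this
  have h5 : f v ≤ l' := by
    have := hf.1.monotone h3
    rwa [LE_fix ha hf c l' hl'] at this
  have h6 : d (f v) ≠ f v := by
    have := DFunLike.congr_fun r v
    simp only [Equiv.Perm.mul_apply] at this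
    rw [this]
    exact fun e => hv (f.injective e)
  have e1 := (d1 (f v)).resolve_left h6
  have e2 := (d2 (f v)).resolve_left h6
  have e3 := (d3 (f v)).resolve_left h6
  rcases le_total (f v) u with h7 | h7
  · exact hno _ ⟨h4, h7⟩ e1
  · exact hJ _ ⟨h7, h5.trans hlu'.le⟩ ⟨e1, e2, e3⟩

/-- permutations preserving a set -/
def Stab (J : Set ℝ) : Subgroup (Equiv.Perm ℝ) where
  carrier := {g | ∀ r, g r ∈ J ↔ r ∈ J}
  one_mem' := fun _ => Iff.rfl
  mul_mem' := fun {g h} hg hh r => (hg (h r)).trans (hh r)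
  inv_mem' := fun {g} hg r => by rw [← hg]; simp

theorem comm_on {J : Set ℝ} {α β : Equiv.Perm ℝ} (hα : α ∈ Stab J) (hβ : β ∈ Stab J)
    (h : ∀ r ∈ J, α r = r ∨ β r = r) : ∀ r ∈ J, ⁅α, β⁆ r = r := by
  have key : ∀ r ∈ J, α (β r) = β (α r) := by
    intro r hr
    by_cases h1 : α r = r
    · by_cases h2 : β r = r
      · rw [h1, h2, h1]
      · rw [h1]
        exact (h _ ((hβ r).2 hr)).resolve_right (fun e => h2 (β.injective e))
    · rw [(h r hr).resolve_left h1]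
      exact ((h _ ((hα r).2 hr)).resolve_left (fun e => h1 (α.injective e))).symm
  intro r hr
  simp only [commutatorElement_def, Equiv.Perm.mul_apply]
  rw [key _ ((inv_mem hα _).2 ((inv_mem hβ _).2 hr))]
  simp

theorem law {a a' z d f c f' : Equiv.Perm ℝ} (ha : a ∈ PLplus) (ha' : a' ∈ PLplus)
    (hz : z ∈ PLplus) (hf : f ∈ PLplus) (hf' : f' ∈ PLplus)
    (d0 : Equiv.Perm.Disjoint a a') (d1 : Equiv.Perm.Disjoint d a)
    (d2 : Equiv.Perm.Disjoint d a') (d3 : Equiv.Perm.Disjoint d z) (c0 : Commute f a)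
    (r : d * f = f * a') (c1 : Equiv.Perm.Disjoint c a)
    (c2 : Equiv.Perm.Disjoint c a') (c3 : Equiv.Perm.Disjoint c z) (c0' : Commute f' a')
    (r' : c * f' = f' * a) : ⁅⁅z * a * z⁻¹, a'⁆, ⁅z⁻¹ * a * z, a'⁆⁆ = 1 := by
  ext s
  let J : Set ℝ := {r | ∀ p ∈ uIcc s r, ¬ (a p = p ∧ a' p = p ∧ z p = p)}
  have hst : ∀ g : Equiv.Perm ℝ, StrictMono g → (∀ p, a p = p ∧ a' p = p ∧ z p = p → g p = p) →
      ∀ r ∈ J, g r ∈ J := by
    intro g hg hfix r hr p hp hp'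
    rcases uIcc_subset_uIcc_union_uIcc (b := r) hp with h1 | h1
    · exact hr p h1 hp'
    · have e := hfix p hp'
      have : p = r := by
        rcases mem_uIcc.1 h1 with h2 | h2
        · have := hg.monotone h2.1
          rw [e] at this
          exact g.injective (e.trans (le_antisymm h2.2 this))
        · have := hg.monotone h2.2
          rw [e] at this
          exact g.injective (e.trans (le_antisymm this h2.1))
      exact hr p (this ▸ right_mem_uIcc) hp'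
  have hst' : ∀ g : Equiv.Perm ℝ, StrictMono g → (∀ p, a p = p ∧ a' p = p ∧ z p = p → g p = p) →
      g ∈ Stab J := by
    intro g hg hfix r
    refine ⟨fun h => ?_, hst g hg hfix r⟩
    simpa using hst g⁻¹ (strictMono_inv hg)
      (fun p hp => by rw [Equiv.Perm.inv_eq_iff_eq, hfix p hp]) _ h
  have sa := hst' a ha.1 (fun p hp => hp.1)
  have sa' := hst' a' ha'.1 (fun p hp => hp.2.1)
  have sz := hst' z hz.1 (fun p hp => hp.2.2)
  have hconv : ∀ u ∈ J, ∀ u' ∈ J, ∀ p ∈ Icc u u', ¬ (a p = p ∧ a' p = p ∧ z p = p) := by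
    intro u hu u' hu' p hp
    rcases le_total s p with h | h
    · exact hu' p (mem_uIcc.2 (Or.inl ⟨h, hp.2⟩))
    · exact hu p (mem_uIcc.2 (Or.inr ⟨hp.1, h⟩))
  have mixed : ∀ u ∈ J, ∀ v ∈ J, ∀ u' ∈ J, ∀ v' ∈ J, a u ≠ u → a' v ≠ v → a u' ≠ u' →
      a' v' ≠ v' → u < v → v' < u' → False := by
    intro u hu v hv u' hu' v' hv' e1 e2 e3 e4 h1 h2
    rcases lt_trichotomy u v' with h | h | h
    · exact no_pattern ha hf d0 d1 d2 d3 c0 r h h2 e1 e4 e3 (hconv u hu u' hu')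
    · exact (d0 u).elim e1 (h ▸ e4)
    · exact no_pattern ha' hf' d0.symm c2 c1 c3 c0' r' h h1 e4 e1 e2
        (fun p hp hp' => hconv v' hv' v hv p hp ⟨hp'.2.1, hp'.1, hp'.2.2⟩)
  have sX : ⁅z * a * z⁻¹, a'⁆ ∈ Stab J := by
    rw [commutatorElement_def]
    have := mul_mem (mul_mem sz sa) (inv_mem sz)
    exact mul_mem (mul_mem (mul_mem this sa') (inv_mem this)) (inv_mem sa')
  have sY : ⁅z⁻¹ * a * z, a'⁆ ∈ Stab J := by
    rw [commutatorElement_def]
    have := mul_mem (mul_mem (inv_mem sz) sa) sz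
    exact mul_mem (mul_mem (mul_mem this sa') (inv_mem this)) (inv_mem sa')
  by_cases hs : a s = s ∧ a' s = s ∧ z s = s
  · have h1 := (MulAction.stabilizer (Equiv.Perm ℝ) s)
    have ma : a ∈ MulAction.stabilizer (Equiv.Perm ℝ) s := hs.1
    have ma' : a' ∈ MulAction.stabilizer (Equiv.Perm ℝ) s := hs.2.1
    have mz : z ∈ MulAction.stabilizer (Equiv.Perm ℝ) s := hs.2.2
    have mc : ∀ x y, x ∈ MulAction.stabilizer (Equiv.Perm ℝ) s →
        y ∈ MulAction.stabilizer (Equiv.Perm ℝ) s →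
        ⁅x, y⁆ ∈ MulAction.stabilizer (Equiv.Perm ℝ) s := fun x y hx hy => by
      rw [commutatorElement_def]
      exact mul_mem (mul_mem (mul_mem hx hy) (inv_mem hx)) (inv_mem hy)
    exact mc _ _ (mc _ _ (mul_mem (mul_mem mz ma) (inv_mem mz)) ma')
      (mc _ _ (mul_mem (mul_mem (inv_mem mz) ma) mz) ma')
  · have hsJ : s ∈ J := by
      intro p hp
      rw [uIcc_self] at hp
      exact hp ▸ hs
    refine comm_on sX sY ?_ s hsJ
    by_cases hX : ∀ r ∈ J, (z * a * z⁻¹) r = r ∨ a' r = r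
    · exact fun r hr => Or.inl (comm_on (mul_mem (mul_mem sz sa) (inv_mem sz)) sa' hX r hr)
    by_cases hY : ∀ r ∈ J, (z⁻¹ * a * z) r = r ∨ a' r = r
    · exact fun r hr => Or.inr (comm_on (mul_mem (mul_mem (inv_mem sz) sa) sz) sa' hY r hr)
    exfalso
    push Not at hX hY
    obtain ⟨v, hv, e1, e2⟩ := hX
    obtain ⟨v', hv', e3, e4⟩ := hY
    have hu : z⁻¹ v ∈ J := (inv_mem sz v).2 hv
    have hu' : z v' ∈ J := (sz v').2 hv'
    have f1 : a (z⁻¹ v) ≠ z⁻¹ v := fun e => e1 (by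
      simp only [Equiv.Perm.mul_apply]; rw [e]; simp)
    have f2 : a (z v') ≠ z v' := fun e => e3 (by
      simp only [Equiv.Perm.mul_apply]; rw [e]; simp)
    rcases lt_trichotomy (z⁻¹ v) v' with h | h | h
    · exact mixed _ hu _ hv' _ hu' _ hv f1 e4 f2 e2 h (by simpa using hz.1 h)
    · exact (d0 v').elim (h ▸ f1) e4
    · exact mixed _ hu' _ hv _ hu _ hv' f2 e2 f1 e4 (by simpa using hz.1 h) h

end Pool.Agent.H363Z.Res
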