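import Pool.Agent.H363Z.Defs

set_option autoImplicit false

/-!
The universal group of the Squier groupoid. Every diagram group is a retract of it.
-/

namespace Pool.Agent.H363Z

universe u v

variable {A : Type u}

/-- unoriented edges -/
structure Gen (P : Pres A) where
  pre : List A
  lhs : List A
  rhs : List A
  suf : List A
  mem : (lhs, rhs) ∈ P.rel

/-- relators given by the squares -/
def sqRels (P : Pres A) : Set (FreeGroup (Gen P)) :=
  {r | ∃ (a u v b p q c : List A) (h : (u, v) ∈ P.rel) (h' : (p, q) ∈ P.rel),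
    r = FreeGroup.of ⟨a, u, v, b ++ p ++ c, h⟩ * FreeGroup.of ⟨a ++ v ++ b, p, q, c, h'⟩ *
      (FreeGroup.of ⟨a ++ u ++ b, p, q, c, h'⟩ * FreeGroup.of ⟨a, u, v, b ++ q ++ c, h⟩)⁻¹}

/-- the universal group -/
def UG (P : Pres A) : Type u := PresentedGroup (sqRels P)

instance (P : Pres A) : Group (UG P) := inferInstanceAs (Group (PresentedGroup (sqRels P)))

open Classical in
/-- generators -/
noncomputable def gen (P : Pres A) (a u v b : List A) : UG P :=
  if h : (u, v) ∈ P.rel then (PresentedGroup.of (⟨a, u, v, b, h⟩ : Gen P) :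
    PresentedGroup (sqRels P)) else 1

variable {P : Pres A}

theorem gen_of_not {u v : List A} (h : (u, v) ∉ P.rel) (a b : List A) : gen P a u v b = 1 := by
  unfold gen; rw [dif_neg h]

theorem gen_sq {u v p q : List A} (h : (u, v) ∈ P.rel) (h' : (p, q) ∈ P.rel) (a b c : List A) :
    gen P a u v (b ++ p ++ c) * gen P (a ++ v ++ b) p q c =
      gen P (a ++ u ++ b) p q c * gen P a u v (b ++ q ++ c) := by
  unfold gen
  simp only [dif_pos h, dif_pos h']
  have : (PresentedGroup.mk (sqRels P)) (FreeGroup.of ⟨a, u, v, b ++ p ++ c, h⟩ *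
      FreeGroup.of ⟨a ++ v ++ b, p, q, c, h'⟩ *
      (FreeGroup.of ⟨a ++ u ++ b, p, q, c, h'⟩ * FreeGroup.of ⟨a, u, v, b ++ q ++ c, h⟩)⁻¹) = 1 :=
    PresentedGroup.one_of_mem ⟨a, u, v, b, p, q, c, h, h', rfl⟩
  rw [map_mul, map_inv, mul_inv_eq_one, map_mul, map_mul] at this
  exact this

section lift

variable {G : Type v} [Group G]

/-- the condition for a map on edges to define a homomorphism -/
def SqOK (P : Pres A) (f : List A → List A → List A → List A → G) : Prop :=
  ∀ u v p q : List A, (u, v) ∈ P.rel → (p, q) ∈ P.rel → ∀ a b c : List A,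
    f a u v (b ++ p ++ c) * f (a ++ v ++ b) p q c = f (a ++ u ++ b) p q c * f a u v (b ++ q ++ c)

/-- universal property -/
def UG.lift (f : List A → List A → List A → List A → G) (hf : SqOK P f) : UG P →* G :=
  PresentedGroup.toGroup (f := fun g : Gen P => f g.pre g.lhs g.rhs g.suf) (rels := sqRels P) (by
    rintro r ⟨a, u, v, b, p, q, c, h, h', rfl⟩
    simp only [map_mul, map_inv, FreeGroup.lift_apply_of, mul_inv_eq_one]
    exact hf u v p q h h' a b c)

theorem UG.lift_gen (f : List A → List A → List A → List A → G) (hf : SqOK P f)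
    {u v : List A} (h : (u, v) ∈ P.rel) (a b : List A) :
    UG.lift f hf (gen P a u v b) = f a u v b := by
  unfold gen
  rw [dif_pos h]
  exact PresentedGroup.toGroup.of _

theorem UG.hom_ext {f g : UG P →* G}
    (h : ∀ a u v b, (u, v) ∈ P.rel → f (gen P a u v b) = g (gen P a u v b)) : f = g := by
  apply PresentedGroup.ext
  rintro ⟨a, u, v, b, hm⟩
  have := h a u v b hm
  unfold gen at this
  rw [dif_pos hm] at this
  exact this

end lift

/-- the element of an oriented edge -/
noncomputable def st (P : Pres A) (e : Step A) : UG P :=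
  cond e.fwd (gen P e.pre e.lhs e.rhs e.suf) (gen P e.pre e.lhs e.rhs e.suf)⁻¹

theorem st_rev (e : Step A) : st P e.rev = (st P e)⁻¹ := by
  rcases e with ⟨a, u, v, b, _ | _⟩ <;> simp [st, Step.rev]

/-- the element of a path -/
noncomputable def ev (P : Pres A) (l : List (Step A)) : UG P := (l.map (st P)).prod

@[simp] theorem ev_nil : ev P [] = 1 := rfl

@[simp] theorem ev_cons (e : Step A) (l : List (Step A)) : ev P (e :: l) = st P e * ev P l := by
  simp [ev]

@[simp] theorem ev_append (l l' : List (Step A)) : ev P (l ++ l') = ev P l * ev P l' := by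
  simp [ev]

theorem ev_rev (l : List (Step A)) : ev P (revPath l) = (ev P l)⁻¹ := by
  induction l with
  | nil => simp [revPath]
  | cons e l ih => rw [revPath_cons, ev_append, ih]; simp [st_rev]

theorem st_sq {u v p q : List A} (h : (u, v) ∈ P.rel) (h' : (p, q) ∈ P.rel) (a b c : List A)
    (s t : Bool) :
    st P ⟨a, u, v, b ++ cond t p q ++ c, s⟩ * st P ⟨a ++ cond s v u ++ b, p, q, c, t⟩ =
      st P ⟨a ++ cond s u v ++ b, p, q, c, t⟩ * st P ⟨a, u, v, b ++ cond t q p ++ c, s⟩ := by
  have := gen_sq h h' a b c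
  cases s <;> cases t <;> simp only [st, cond_true, cond_false]
  · rw [← mul_inv_rev, ← mul_inv_rev, this]
  · rw [inv_mul_eq_iff_eq_mul, ← mul_assoc, this, mul_inv_cancel_right]
  · rw [eq_comm, inv_mul_eq_iff_eq_mul, ← mul_assoc, ← this, mul_inv_cancel_right]
  · exact this

theorem IsPath.valid {x y : List A} {l : List (Step A)} (h : IsPath P x l y) :
    ∀ e ∈ l, (e.lhs, e.rhs) ∈ P.rel := by
  induction h with
  | nil x => simp
  | cons e l y he _ ih =>
    intro e' h'
    rcases List.mem_cons.1 h' with rfl | h'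
    · exact he
    · exact ih e' h'

theorem ev_swap {l l' : List (Step A)} (hv : ∀ e ∈ l, (e.lhs, e.rhs) ∈ P.rel) (h : Swap l l') :
    ev P l = ev P l' := by
  rcases h with ⟨l, r, a, u, v, b, p, q, c, s, t⟩
  have h1 : (u, v) ∈ P.rel := hv ⟨a, u, v, b ++ cond t p q ++ c, s⟩ (by simp)
  have h2 : (p, q) ∈ P.rel := hv ⟨a ++ cond s v u ++ b, p, q, c, t⟩ (by simp)
  simp only [ev_append, ev_cons]
  rw [← mul_assoc (st P _), ← mul_assoc (st P _), st_sq h1 h2]

theorem ev_move {l l' : List (Step A)} (hv : ∀ e ∈ l, (e.lhs, e.rhs) ∈ P.rel) (h : Move l l') :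
    ev P l = ev P l' := by
  rcases h with ⟨_, _, h⟩ | ⟨l, r, e⟩
  · exact ev_swap hv h
  · simp [st_rev]

/-- the canonical map from a diagram group to the universal group -/
noncomputable def toU (P : Pres A) (w : List A) : DiagramGroup P w →* UG P where
  toFun := Quot.lift (fun γ : Loop P w => ev P γ.1) (fun γ _ h => ev_move γ.2.valid h)
  map_one' := rfl
  map_mul' := by
    rintro ⟨a⟩ ⟨b⟩
    exact ev_append _ _

theorem toU_mk (w : List A) (γ : Loop P w) : toU P w (DiagramGroup.mk γ) = ev P γ.1 := rfl

theorem IsPath.single {e : Step A} (h : (e.lhs, e.rhs) ∈ P.rel) : IsPath P e.src [e] e.tgt :=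
  IsPath.cons e [] _ h (IsPath.nil _)

theorem IsPath.nil_inv {x y : List A} (h : IsPath P x [] y) : x = y := by
  cases h; rfl

theorem IsPath.cons_inv {x y : List A} {e : Step A} {l : List (Step A)}
    (h : IsPath P x (e :: l) y) : x = e.src ∧ (e.lhs, e.rhs) ∈ P.rel ∧ IsPath P e.tgt l y := by
  cases h with
  | cons _ _ _ h1 h2 => exact ⟨rfl, h1, h2⟩

theorem IsPath.split {x z : List A} {l l' : List (Step A)} (h : IsPath P x (l ++ l') z) :
    ∃ y, IsPath P x l y ∧ IsPath P y l' z := by
  induction l generalizing x with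
  | nil => exact ⟨x, IsPath.nil x, h⟩
  | cons e l ih =>
    obtain ⟨rfl, h1, h2⟩ := IsPath.cons_inv h
    obtain ⟨y, h3, h4⟩ := ih h2
    exact ⟨y, IsPath.cons e l y h1 h3, h4⟩

theorem IsPath.end_unique {x y y' : List A} {l : List (Step A)} (h : IsPath P x l y)
    (h' : IsPath P x l y') : y = y' := by
  induction h with
  | nil x => exact h'.nil_inv
  | cons e l y _ _ ih => exact ih h'.cons_inv.2.2

section retraction

variable (P) (w : List A)

/-- `x` lies in the component of `w` -/
def Conn (x : List A) : Prop := ∃ l, IsPath P w l x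

open Classical in
/-- chosen paths from the base word -/
noncomputable def tau (x : List A) : List (Step A) :=
  if x = w then [] else if h : Conn P w x then h.choose else []

variable {P w}

theorem tau_path {x : List A} (h : Conn P w x) : IsPath P w (tau P w x) x := by
  unfold tau
  split_ifs with h1
  · subst h1; exact IsPath.nil _
  · exact h.choose_spec

theorem tau_base : tau P w w = [] := by
  unfold tau; rw [if_pos rfl]

theorem Conn.step {x y : List A} {l : List (Step A)} (h : Conn P w x) (hl : IsPath P x l y) :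
    Conn P w y := by
  obtain ⟨m, hm⟩ := h
  exact ⟨m ++ l, hm.append hl⟩

/-- the loop attached to a path in the component of `w` -/
noncomputable def clo {x y : List A} {l : List (Step A)} (h : Conn P w x) (hl : IsPath P x l y) :
    DiagramGroup P w :=
  DiagramGroup.mk ⟨tau P w x ++ l ++ revPath (tau P w y),
    ((tau_path h).append hl).append (tau_path (h.step hl)).rev⟩

theorem clo_mul {x y z : List A} {l l' : List (Step A)} (h : Conn P w x) (hl : IsPath P x l y)
    (hl' : IsPath P y l' z) :
    clo h hl * clo (h.step hl) hl' = clo h (hl.append hl') := by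
  have := DiagramGroup.rev_cancel (w := w) (tau_path (h.step hl)) (tau P w x ++ l)
    (l' ++ revPath (tau P w z)) ((tau_path h).append hl)
    (hl'.append (tau_path ((h.step hl).step hl')).rev)
  unfold clo
  rw [DiagramGroup.mk_mul]
  refine Eq.trans (congrArg DiagramGroup.mk (Subtype.ext ?_))
    (Eq.trans this (congrArg DiagramGroup.mk (Subtype.ext ?_)))
  · simp [DiagramGroup.cat]
  · simp

theorem clo_nil {x : List A} (h : Conn P w x) : clo h (IsPath.nil x) = 1 := by
  have := clo_mul h (IsPath.nil x) (IsPath.nil x)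
  exact mul_left_cancel (a := clo h (IsPath.nil x)) (by rw [mul_one]; exact this)

theorem clo_move {x y : List A} {l l' : List (Step A)} (h : Conn P w x) (hl : IsPath P x l y)
    (hl' : IsPath P x l' y) (hm : Move l l') : clo h hl = clo h hl' :=
  Quot.sound ((hm.left _).right _)

variable (P w) in
open Classical in
/-- the retraction on oriented edges -/
noncomputable def retE (e : Step A) : DiagramGroup P w :=
  if h : Conn P w e.src ∧ (e.lhs, e.rhs) ∈ P.rel then clo h.1 (IsPath.single h.2) else 1

theorem clo_congr {x x' y y' : List A} {l : List (Step A)} (h : Conn P w x) (h' : Conn P w x')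
    (hl : IsPath P x l y) (hl' : IsPath P x' l y') (e : x = x') : clo h hl = clo h' hl' := by
  subst e
  obtain rfl := hl.end_unique hl'
  rfl

theorem retE_prod {x y : List A} {l : List (Step A)} (hl : IsPath P x l y) (h : Conn P w x) :
    (l.map (retE P w)).prod = clo h hl := by
  induction hl with
  | nil x => exact (clo_nil h).symm
  | cons e l y he hl ih =>
    rw [List.map_cons, List.prod_cons, ih (h.step (IsPath.single he))]
    unfold retE
    rw [dif_pos ⟨h, he⟩]
    exact clo_mul h (IsPath.single he) hl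

theorem retE_not {x y : List A} {l : List (Step A)} (hl : IsPath P x l y) (h : ¬ Conn P w x) :
    (l.map (retE P w)).prod = 1 := by
  induction hl with
  | nil x => rfl
  | cons e l y he hl ih =>
    rw [List.map_cons, List.prod_cons, ih]
    · unfold retE
      rw [dif_neg (fun h' => h h'.1), mul_one]
    · intro h'
      apply h
      have := (IsPath.single he).rev
      exact h'.step this

theorem retE_move {x y : List A} {l l' : List (Step A)} (hl : IsPath P x l y)
    (hl' : IsPath P x l' y) (hm : Move l l') :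
    (l.map (retE P w)).prod = (l'.map (retE P w)).prod := by
  by_cases h : Conn P w x
  · rw [retE_prod hl h, retE_prod hl' h, clo_move h hl hl' hm]
  · rw [retE_not hl h, retE_not hl' h]

theorem retE_rev {e : Step A} (he : (e.lhs, e.rhs) ∈ P.rel) :
    retE P w e.rev = (retE P w e)⁻¹ := by
  have h1 : IsPath P e.src [e, e.rev] e.src := by
    refine IsPath.cons e _ _ he ?_
    have := IsPath.single (P := P) (e := e.rev) he
    rwa [e.rev_src, e.rev_tgt] at this
  have := retE_move (w := w) h1 (IsPath.nil _) (Move.cancel [] [] e)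
  simp only [List.map_cons, List.map_nil, List.prod_cons, List.prod_nil, mul_one] at this
  exact (eq_inv_of_mul_eq_one_right this)

theorem sq_path₁ {u v p q : List A} (h : (u, v) ∈ P.rel) (h' : (p, q) ∈ P.rel) (a b c : List A)
    (s t : Bool) :
    IsPath P (a ++ cond s u v ++ b ++ cond t p q ++ c)
      [⟨a, u, v, b ++ cond t p q ++ c, s⟩, ⟨a ++ cond s v u ++ b, p, q, c, t⟩]
      (a ++ cond s v u ++ b ++ cond t q p ++ c) := by
  have h1 := IsPath.single (P := P) (e := ⟨a, u, v, b ++ cond t p q ++ c, s⟩) h
  have h2 := IsPath.single (P := P) (e := ⟨a ++ cond s v u ++ b, p, q, c, t⟩) h'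
  simp only [Step.src, Step.tgt, List.append_assoc] at h1 h2 ⊢
  exact h1.append h2

theorem sq_path₂ {u v p q : List A} (h : (u, v) ∈ P.rel) (h' : (p, q) ∈ P.rel) (a b c : List A)
    (s t : Bool) :
    IsPath P (a ++ cond s u v ++ b ++ cond t p q ++ c)
      [⟨a ++ cond s u v ++ b, p, q, c, t⟩, ⟨a, u, v, b ++ cond t q p ++ c, s⟩]
      (a ++ cond s v u ++ b ++ cond t q p ++ c) := by
  have h1 := IsPath.single (P := P) (e := ⟨a ++ cond s u v ++ b, p, q, c, t⟩) h'
  have h2 := IsPath.single (P := P) (e := ⟨a, u, v, b ++ cond t q p ++ c, s⟩) h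
  simp only [Step.src, Step.tgt, List.append_assoc] at h1 h2 ⊢
  exact h1.append h2

variable (P w) in
/-- the retraction -/
noncomputable def ret : UG P →* DiagramGroup P w :=
  UG.lift (fun a u v b => retE P w ⟨a, u, v, b, true⟩) (by
    intro u v p q h h' a b c
    have := retE_move (w := w) (sq_path₁ h h' a b c true true) (sq_path₂ h h' a b c true true)
      (Move.swap _ _ (Swap.mk [] [] a u v b p q c true true))
    simpa using this)

theorem ret_st {e : Step A} (he : (e.lhs, e.rhs) ∈ P.rel) : ret P w (st P e) = retE P w e := by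
  rcases e with ⟨a, u, v, b, _ | _⟩
  · have := retE_rev (w := w) (e := ⟨a, u, v, b, true⟩) he
    simp only [st, cond_false, map_inv]
    unfold ret
    rw [UG.lift_gen _ _ he, ← this]
    rfl
  · simp only [st, cond_true]
    unfold ret
    rw [UG.lift_gen _ _ he]

theorem ret_ev {l : List (Step A)} (hv : ∀ e ∈ l, (e.lhs, e.rhs) ∈ P.rel) :
    ret P w (ev P l) = (l.map (retE P w)).prod := by
  induction l with
  | nil => simp
  | cons e l ih =>
    rw [ev_cons, map_mul, ret_st (hv e (by simp)), ih (fun e' h => hv e' (by simp [h]))]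
    simp

theorem ret_toU (g : DiagramGroup P w) : ret P w (toU P w g) = g := by
  obtain ⟨γ⟩ := g
  change ret P w (ev P γ.1) = DiagramGroup.mk γ
  rw [ret_ev γ.2.valid, retE_prod γ.2 ⟨[], IsPath.nil w⟩]
  unfold clo
  refine congrArg DiagramGroup.mk (Subtype.ext ?_)
  simp [tau_base, revPath]

theorem toU_injective : Function.Injective (toU P w) :=
  Function.LeftInverse.injective ret_toU

end retraction

/-- `g` is represented by a path from `x` to `y` -/
def Arr (P : Pres A) (x : List A) (g : UG P) (y : List A) : Prop :=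
  ∃ l, IsPath P x l y ∧ ev P l = g

theorem Arr.refl (x : List A) : Arr P x 1 x := ⟨[], IsPath.nil x, rfl⟩

theorem Arr.mul {x y z : List A} {g h : UG P} (h1 : Arr P x g y) (h2 : Arr P y h z) :
    Arr P x (g * h) z := by
  obtain ⟨l, hl, rfl⟩ := h1
  obtain ⟨l', hl', rfl⟩ := h2
  exact ⟨l ++ l', hl.append hl', ev_append _ _⟩

theorem Arr.inv {x y : List A} {g : UG P} (h : Arr P x g y) : Arr P y g⁻¹ x := by
  obtain ⟨l, hl, rfl⟩ := h
  exact ⟨revPath l, hl.rev, ev_rev l⟩

theorem Arr.st {e : Step A} (h : (e.lhs, e.rhs) ∈ P.rel) : Arr P e.src (st P e) e.tgt :=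
  ⟨[e], IsPath.single h, by simp⟩

theorem Arr.gen {u v : List A} (h : (u, v) ∈ P.rel) (a b : List A) :
    Arr P (a ++ u ++ b) (gen P a u v b) (a ++ v ++ b) :=
  Arr.st (e := ⟨a, u, v, b, true⟩) h

theorem Arr.of_eq {x y x' y' : List A} {g : UG P} (h : Arr P x g y) (hx : x = x') (hy : y = y') :
    Arr P x' g y' := hx ▸ hy ▸ h

theorem Arr.exists_toU {w : List A} {g : UG P} (h : Arr P w g w) : ∃ d, toU P w d = g := by
  obtain ⟨l, hl, rfl⟩ := h
  exact ⟨DiagramGroup.mk ⟨l, hl⟩, rfl⟩

theorem arr_toU {w : List A} (d : DiagramGroup P w) : Arr P w (toU P w d) w := by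
  obtain ⟨γ⟩ := d
  exact ⟨γ.1, γ.2, rfl⟩

theorem Arr.toU_ret {w : List A} {g : UG P} (h : Arr P w g w) : toU P w (ret P w g) = g := by
  obtain ⟨d, rfl⟩ := h.exists_toU
  rw [ret_toU]

theorem Arr.induction {motive : ∀ (x : List A) (g : UG P) (y : List A), Arr P x g y → Prop}
    (refl : ∀ x, motive x 1 x (Arr.refl x))
    (step : ∀ (e : Step A) (g : UG P) (y : List A) (he : (e.lhs, e.rhs) ∈ P.rel)
      (hg : Arr P e.tgt g y), motive e.tgt g y hg →
        motive e.src (Pool.Agent.H363Z.st P e * g) y ((Arr.st he).mul hg))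
    {x : List A} {g : UG P} {y : List A} (h : Arr P x g y) : motive x g y h := by
  obtain ⟨l, hl, rfl⟩ := h
  induction hl with
  | nil x => exact refl x
  | cons e l y he hl ih =>
    have := step e _ y he ⟨l, hl, rfl⟩ ih
    simpa only [ev_cons] using this

variable (P) in
/-- putting a path into a context -/
noncomputable def ctx (a b : List A) : UG P →* UG P :=
  UG.lift (fun x u v y => gen P (a ++ x) u v (y ++ b)) (by
    intro u v p q h h' x y z
    have := gen_sq h h' (a ++ x) y (z ++ b)
    simpa only [List.append_assoc] using this)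

theorem ctx_gen (a b x u v y : List A) :
    ctx P a b (gen P x u v y) = gen P (a ++ x) u v (y ++ b) := by
  by_cases h : (u, v) ∈ P.rel
  · exact UG.lift_gen _ _ h _ _
  · rw [gen_of_not h, gen_of_not h, map_one]

theorem ctx_st (a b : List A) (e : Step A) :
    ctx P a b (st P e) = st P ⟨a ++ e.pre, e.lhs, e.rhs, e.suf ++ b, e.fwd⟩ := by
  rcases e with ⟨x, u, v, y, _ | _⟩ <;> simp [st, ctx_gen]

theorem ctx_ctx (a b a' b' : List A) (g : UG P) :
    ctx P a b (ctx P a' b' g) = ctx P (a ++ a') (b' ++ b) g := by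
  have : (ctx P a b).comp (ctx P a' b') = ctx P (a ++ a') (b' ++ b) := by
    apply UG.hom_ext
    intro x u v y _
    simp [ctx_gen]
  exact DFunLike.congr_fun this g

theorem ctx_nil (g : UG P) : ctx P [] [] g = g := by
  have : ctx P [] [] = MonoidHom.id _ := by
    apply UG.hom_ext
    intro x u v y _
    simp [ctx_gen]
  exact DFunLike.congr_fun this g

theorem Arr.ctx {x y : List A} {g : UG P} (h : Arr P x g y) (a b : List A) :
    Arr P (a ++ x ++ b) (Pool.Agent.H363Z.ctx P a b g) (a ++ y ++ b) := by
  induction h using Arr.induction with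
  | refl x => rw [map_one]; exact Arr.refl _
  | step e g y he _ ih =>
    rw [map_mul, ctx_st]
    refine Arr.mul ((Arr.st (e := ⟨a ++ e.pre, e.lhs, e.rhs, e.suf ++ b, e.fwd⟩) he).of_eq ?_ ?_) ih
    · simp [Step.src]
    · simp [Step.tgt]

theorem interchange_st (e : Step A) (he : (e.lhs, e.rhs) ∈ P.rel) {x y : List A} {h : UG P}
    (hh : Arr P x h y) :
    ctx P [] x (st P e) * ctx P e.tgt [] h = ctx P e.src [] h * ctx P [] y (st P e) := by
  induction hh using Arr.induction with
  | refl x => simp
  | step e' h y he' _ ih =>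
    rw [map_mul, map_mul, ← mul_assoc, mul_assoc _ (ctx P e.src [] h), ← ih, ← mul_assoc]
    congr 1
    have := st_sq he he' e.pre (e.suf ++ e'.pre) e'.suf e.fwd e'.fwd
    simp only [ctx_st, Step.src, Step.tgt, List.append_assoc, List.nil_append,
      List.append_nil] at this ⊢
    exact this

/-- the interchange law -/
theorem interchange₀ {x y x' y' : List A} {g h : UG P} (hg : Arr P x g y) (hh : Arr P x' h y') :
    ctx P [] x' g * ctx P y [] h = ctx P x [] h * ctx P [] y' g := by
  induction hg using Arr.induction with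
  | refl x => simp
  | step e g y he _ ih =>
    rw [map_mul, map_mul, mul_assoc, ih, ← mul_assoc, interchange_st e he hh, mul_assoc]

/-- the interchange law in a context -/
theorem interchange {x y x' y' : List A} {g h : UG P} (hg : Arr P x g y) (hh : Arr P x' h y')
    (a m b : List A) :
    ctx P a (m ++ x' ++ b) g * ctx P (a ++ y ++ m) b h =
      ctx P (a ++ x ++ m) b h * ctx P a (m ++ y' ++ b) g := by
  have := congrArg (ctx P a b) (interchange₀ hg (hh.ctx m []))
  simpa only [map_mul, ctx_ctx, List.append_assoc, List.nil_append, List.append_nil] using this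

theorem commute_ctx {x x' : List A} {g h : UG P} (hg : Arr P x g x) (hh : Arr P x' h x')
    (a m b : List A) : Commute (ctx P a (m ++ x' ++ b) g) (ctx P (a ++ x ++ m) b h) :=
  interchange hg hh a m b

end Pool.Agent.H363Z
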