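import Pool.Agent.H363Z.ResPL
import Pool.Agent.H363Z.Univ

set_option autoImplicit false

/-!
A diagram group that is not residually `PL₊([0,1])`.
-/

namespace Pool.Agent.H363Z.Res

open scoped commutatorElement

/-- the alphabet -/
inductive L | x | y | y'
  deriving DecidableEq

open L

instance : Fintype L := ⟨{x, y, y'}, by intro s; cases s <;> simp⟩

/-- the relations -/
def rels : List (List L × List L) := [([x], [x, x]), ([x], [y]), ([y], [y']), ([y'], [x])]

/-- the presentation -/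
def PD : Pres L := ⟨{p | p ∈ rels}, by
  intro p hp
  simp only [rels, Set.mem_ofPred_eq, List.mem_cons, List.not_mem_nil, or_false] at hp
  rcases hp with rfl | rfl | rfl | rfl <;> simp⟩

theorem mem_PD {p : List L × List L} : p ∈ PD.rel ↔ p ∈ rels := Iff.rfl

theorem r1 : ([x], [x, x]) ∈ PD.rel := by simp [mem_PD, rels]
theorem r2 : ([x], [y]) ∈ PD.rel := by simp [mem_PD, rels]
theorem r3 : ([y], [y']) ∈ PD.rel := by simp [mem_PD, rels]
theorem r4 : ([y'], [x]) ∈ PD.rel := by simp [mem_PD, rels]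

/-- splitting -/
noncomputable def sg : UG PD := gen PD [] [x] [x, x] []

/-- the triangle -/
noncomputable def ze : UG PD := gen PD [] [x] [y] [] * gen PD [] [y] [y'] [] * gen PD [] [y'] [x] []

/-- the triangle one level down -/
noncomputable def qq : UG PD := sg * ctx PD [] [x] ze * sg⁻¹

/-- double splitting -/
noncomputable def ta : UG PD := sg * ctx PD [] [x] sg

/-- the mixing element -/
noncomputable def zz : UG PD := ta⁻¹ * ze * ta

theorem sg_arr : Arr PD [x] sg [x, x] := Arr.gen r1 [] []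

theorem ze_arr : Arr PD [x] ze [x] :=
  ((Arr.gen r2 [] []).mul (Arr.gen r3 [] [])).mul (Arr.gen r4 [] [])

theorem qq_arr : Arr PD [x] qq [x] := (sg_arr.mul (ze_arr.ctx [] [x])).mul sg_arr.inv

theorem ta_arr : Arr PD [x] ta [x, x, x] := sg_arr.mul (sg_arr.ctx [] [x])

theorem zz_arr : Arr PD [x, x, x] zz [x, x, x] := (ta_arr.inv.mul ze_arr).mul ta_arr

theorem Arr.comm {w : List L} {g h : UG PD} (hg : Arr PD w g w) (hh : Arr PD w h w) :
    Arr PD w ⁅g, h⁆ w := ((hg.mul hh).mul hg.inv).mul hh.inv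

theorem AA_arr : Arr PD [x] ⁅ze, qq⁆ [x] := Arr.comm ze_arr qq_arr

/-- position two -/
noncomputable def P2 : UG PD →* UG PD := ctx PD [x] [x, x, x, x, x]
/-- position three -/
noncomputable def P3 : UG PD →* UG PD := ctx PD [x, x] [x, x, x, x]
/-- position five -/
noncomputable def P5 : UG PD →* UG PD := ctx PD [x, x, x, x] [x, x]
/-- position six -/
noncomputable def P6 : UG PD →* UG PD := ctx PD [x, x, x, x, x] [x]
/-- the middle three positions -/
noncomputable def Z : UG PD := ctx PD [x, x] [x, x] zz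
/-- the conjugator on four positions -/
noncomputable def f0 : UG PD := ctx PD [] [x, x] sg⁻¹ * ctx PD [x, x] [] sg

theorem f0_arr : Arr PD [x, x, x, x] f0 [x, x, x, x] :=
  (sg_arr.inv.ctx [] [x, x]).mul (sg_arr.ctx [x, x] [])

theorem f0_conj {g : UG PD} (hg : Arr PD [x] g [x]) :
    ctx PD [x, x] [x] g * f0 = f0 * ctx PD [x] [x, x] g := by
  have h1 := interchange sg_arr.inv hg [] [] [x]
  have h2 := interchange hg sg_arr [x] [] []
  simp only [List.nil_append, List.append_nil, List.cons_append] at h1 h2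
  rw [f0, ← mul_assoc, ← h1, mul_assoc, h2, mul_assoc]

/-- the element -/
noncomputable def W : UG PD :=
  ⁅⁅Z * P3 ⁅ze, qq⁆ * Z⁻¹, P5 ⁅ze, qq⁆⁆, ⁅Z⁻¹ * P3 ⁅ze, qq⁆ * Z, P5 ⁅ze, qq⁆⁆⁆

theorem W_arr : Arr PD [x, x, x, x, x, x, x] W [x, x, x, x, x, x, x] := by
  have hZ : Arr PD [x, x, x, x, x, x, x] Z [x, x, x, x, x, x, x] := zz_arr.ctx [x, x] [x, x]
  have h3 : Arr PD [x, x, x, x, x, x, x] (P3 ⁅ze, qq⁆) [x, x, x, x, x, x, x] :=
    AA_arr.ctx [x, x] [x, x, x, x]
  have h5 : Arr PD [x, x, x, x, x, x, x] (P5 ⁅ze, qq⁆) [x, x, x, x, x, x, x] :=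
    AA_arr.ctx [x, x, x, x] [x, x]
  exact Arr.comm (Arr.comm ((hZ.mul h3).mul hZ.inv) h5) (Arr.comm ((hZ.inv.mul h3).mul hZ) h5)

theorem kill (ψ : UG PD →* Equiv.Perm ℝ) (hψ : ∀ g, ψ g ∈ PLplus) : ψ W = 1 := by
  have dj : ∀ (P : UG PD →* UG PD) (h : UG PD), (∀ g, Arr PD [x] g [x] → Commute (P g) h) →
      Equiv.Perm.Disjoint (ψ (P ⁅ze, qq⁆)) (ψ h) := by
    intro P h hc
    rw [map_commutatorElement, map_commutatorElement]
    exact disj (hψ _) (hψ _) (hψ _) ((hc _ ze_arr).map ψ) ((hc _ qq_arr).map ψ)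
  simp only [W, map_commutatorElement ψ, map_mul, map_inv]
  refine law (d := ψ (P6 ⁅ze, qq⁆)) (f := ψ (ctx PD [x, x, x] [] f0)) (c := ψ (P2 ⁅ze, qq⁆))
    (f' := (ψ (ctx PD [] [x, x, x] f0))⁻¹) (hψ _) (hψ _) (hψ _) (hψ _) (inv_mem (hψ _))
    (dj _ _ ?_) (dj _ _ ?_) (dj _ _ ?_) (dj _ _ ?_) ?_ ?_ (dj _ _ ?_) (dj _ _ ?_) (dj _ _ ?_) ?_ ?_
  · exact fun g hg => commute_ctx hg AA_arr [x, x] [x] [x, x]
  · exact fun g hg => (commute_ctx AA_arr hg [x, x] [x, x] [x]).symm
  · exact fun g hg => (commute_ctx AA_arr hg [x, x, x, x] [] [x]).symm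
  · exact fun g hg => (commute_ctx zz_arr hg [x, x] [] [x]).symm
  · exact (commute_ctx AA_arr f0_arr [x, x] [] []).symm.map ψ
  · rw [← map_mul, ← map_mul]
    have := congrArg (ctx PD [x, x, x] []) (f0_conj AA_arr)
    rw [map_mul, map_mul, ctx_ctx, ctx_ctx] at this
    exact congrArg ψ this
  · exact fun g hg => commute_ctx hg AA_arr [x] [] [x, x, x, x]
  · exact fun g hg => commute_ctx hg AA_arr [x] [x, x] [x, x]
  · exact fun g hg => commute_ctx hg zz_arr [x] [] [x, x]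
  · exact ((commute_ctx f0_arr AA_arr [] [] [x, x]).map ψ).inv_left
  · rw [mul_inv_eq_iff_eq_mul, mul_assoc, eq_inv_mul_iff_mul_eq, ← map_mul, ← map_mul]
    have := congrArg (ctx PD [] [x, x, x]) (f0_conj AA_arr)
    rw [map_mul, map_mul, ctx_ctx, ctx_ctx] at this
    exact congrArg ψ this.symm

/-- merging two columns -/
def Mg (j : ℕ) : Equiv.Perm (ℕ × ℕ) where
  toFun p := if p.1 < j then p else if p.1 = j then (j, 2 * p.2)
    else if p.1 = j + 1 then (j, 2 * p.2 + 1) else (p.1 - 1, p.2)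
  invFun p := if p.1 < j then p else if p.1 = j then (j + p.2 % 2, p.2 / 2) else (p.1 + 1, p.2)
  left_inv := by
    rintro ⟨i, n⟩
    dsimp only
    split_ifs <;> dsimp only at * <;> first | rfl | (ext <;> dsimp only <;> omega)
  right_inv := by
    rintro ⟨i, n⟩
    dsimp only
    split_ifs <;> dsimp only at * <;> first | rfl | (ext <;> dsimp only <;> omega)

/-- a four-cycle -/
def cy (n : ℕ) : ℕ := if n < 3 then n + 1 else if n = 3 then 0 else n

/-- its inverse -/
def cy' (n : ℕ) : ℕ := if n = 0 then 3 else if n ≤ 3 then n - 1 else n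

theorem cy_cy' (n : ℕ) : cy (cy' n) = n := by unfold cy cy'; split_ifs <;> omega

theorem cy'_cy (n : ℕ) : cy' (cy n) = n := by
  unfold cy cy'; split_ifs <;> first | omega | contradiction

/-- permuting one column -/
def Zt (j : ℕ) : Equiv.Perm (ℕ × ℕ) where
  toFun p := if p.1 = j then (p.1, cy p.2) else p
  invFun p := if p.1 = j then (p.1, cy' p.2) else p
  left_inv := by
    rintro ⟨i, n⟩
    by_cases h : i = j <;> simp [h, cy'_cy]
  right_inv := by
    rintro ⟨i, n⟩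
    by_cases h : i = j <;> simp [h, cy_cy']

theorem Mg_apply (j : ℕ) (p : ℕ × ℕ) : Mg j p = if p.1 < j then p else if p.1 = j then (j, 2 * p.2)
    else if p.1 = j + 1 then (j, 2 * p.2 + 1) else (p.1 - 1, p.2) := rfl

theorem Zt_apply (j : ℕ) (p : ℕ × ℕ) : Zt j p = if p.1 = j then (p.1, cy p.2) else p := rfl

theorem MM {j k : ℕ} (h : j < k) : Mg j * Mg (k + 1) = Mg k * Mg j := by
  refine Equiv.ext ?_
  rintro ⟨i, n⟩
  simp only [Equiv.Perm.mul_apply, Mg_apply]
  split_ifs <;> dsimp only at * <;> first | rfl | (ext <;> dsimp only <;> omega)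

theorem MZ {j k : ℕ} (h : j < k) : Mg j * Zt (k + 1) = Zt k * Mg j := by
  refine Equiv.ext ?_
  rintro ⟨i, n⟩
  simp only [Equiv.Perm.mul_apply, Mg_apply, Zt_apply]
  split_ifs <;> dsimp only at * <;> first | rfl | omega | (ext <;> dsimp only <;> omega)

theorem ZM {j k : ℕ} (h : j < k) : Zt j * Mg k = Mg k * Zt j := by
  refine Equiv.ext ?_
  rintro ⟨i, n⟩
  simp only [Equiv.Perm.mul_apply, Mg_apply, Zt_apply]
  split_ifs <;> dsimp only at * <;> first | rfl | omega | (ext <;> dsimp only <;> omega)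

theorem ZZ {j k : ℕ} (h : j < k) : Zt j * Zt k = Zt k * Zt j := by
  refine Equiv.ext ?_
  rintro ⟨i, n⟩
  simp only [Equiv.Perm.mul_apply, Zt_apply]
  split_ifs <;> dsimp only at * <;> first | rfl | omega

/-- the permutation attached to an edge -/
def phE (j : ℕ) (u v : List L) : Equiv.Perm (ℕ × ℕ) :=
  if v = [x, x] then Mg j else if u = [y'] then Zt j else 1

/-- the representation -/
def phi : UG PD →* Equiv.Perm (ℕ × ℕ) :=
  UG.lift (fun a u v _ => phE a.length u v) (by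
    intro u v p q h h' a b c
    simp only [mem_PD, rels, List.mem_cons, List.not_mem_nil, or_false, Prod.mk.injEq] at h h'
    have e1 : a.length + (b.length + 1 + 1) = a.length + (b.length + 1) + 1 := by omega
    have e2 : a.length < a.length + (b.length + 1) := by omega
    rcases h with ⟨rfl, rfl⟩ | ⟨rfl, rfl⟩ | ⟨rfl, rfl⟩ | ⟨rfl, rfl⟩ <;>
    rcases h' with ⟨rfl, rfl⟩ | ⟨rfl, rfl⟩ | ⟨rfl, rfl⟩ | ⟨rfl, rfl⟩ <;>
    simp [phE, e1, MM e2, MZ e2, ZM e2, ZZ e2])

theorem phi_gen {p q : List L} (h : (p, q) ∈ PD.rel) (v w : List L) :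
    phi (gen PD v p q w) = phE v.length p q := UG.lift_gen _ _ h v w

theorem phi_W : phi W ≠ 1 := by
  intro h
  have := DFunLike.congr_fun h (2, 1)
  simp only [W, Z, P3, P5, zz, ta, qq, ze, sg, map_mul, map_inv, ctx_gen, phi_gen r1, phi_gen r2,
    phi_gen r3, phi_gen r4, commutatorElement_def] at this
  revert this
  decide +kernel

theorem final : ∃ (A : Type) (P : Pres A) (w : List A), Finite A ∧ P.rel.Finite ∧
    (∀ p ∈ P.rel, (p.2, p.1) ∉ P.rel) ∧ w ≠ [] ∧
    ∃ g : DiagramGroup P w, g ≠ 1 ∧ ∀ φ : DiagramGroup P w →* PLplus, φ g = 1 := by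
  refine ⟨L, PD, [x, x, x, x, x, x, x], inferInstance, List.finite_toSet rels, ?_, by simp,
    ret PD _ W, ?_, fun φ => ?_⟩
  · intro p hp
    rw [mem_PD] at hp ⊢
    revert p
    decide
  · intro h
    have := W_arr.toU_ret
    rw [h, map_one] at this
    exact phi_W (by rw [← this, map_one])
  · exact Subtype.ext (kill (PLplus.subtype.comp (φ.comp (ret PD _))) (fun g => (φ _).2))

theorem F_le : ThompsonF ≤ PLplus := by
  rintro g ⟨h1, h2, B, -, hB⟩
  exact ⟨h1, h2, B, by simp, fun x y hxy hb => by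
    obtain ⟨s, -, hs⟩ := hB x y hxy hb
    exact ⟨s, trivial, hs⟩⟩

theorem final' : ∃ (A : Type) (P : Pres A) (w : List A), Finite A ∧ P.rel.Finite ∧
    (∀ p ∈ P.rel, (p.2, p.1) ∉ P.rel) ∧ w ≠ [] ∧
    ∃ g : DiagramGroup P w, g ≠ 1 ∧ (∀ φ : DiagramGroup P w →* PLplus, φ g = 1) ∧
      ∀ φ : DiagramGroup P w →* ThompsonF, φ g = 1 := by
  obtain ⟨A, P, w, h1, h2, h3, h4, g, h5, h6⟩ := final
  refine ⟨A, P, w, h1, h2, h3, h4, g, h5, h6, fun φ => ?_⟩
  have := h6 ((Subgroup.inclusion F_le).comp φ)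
  exact Subgroup.inclusion_injective F_le (by simpa using this)

end Pool.Agent.H363Z.Res
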