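import Pool.Agent.H363Z.SubFSign
import Pool.Agent.H363Z.TorsionFree
import Pool.Agent.H363Z.DerivedAlg

set_option autoImplicit false

/-!
A subgroup of Thompson's group `F` whose abelianisation has torsion.
-/

namespace Pool.Agent.H363Z.SubF

open Set Filter Topology
open scoped commutatorElement

/-- the first generator as a function -/
noncomputable def tF (x : ℝ) : ℝ :=
  if x ≤ 0 then x else if x ≤ 1 / 4 then 2 * x else if x ≤ 1 / 2 then x + 1 / 4
  else if x ≤ 1 then x / 2 + 1 / 2 else x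

/-- its inverse -/
noncomputable def tI (y : ℝ) : ℝ :=
  if y ≤ 0 then y else if y ≤ 1 / 2 then y / 2 else if y ≤ 3 / 4 then y - 1 / 4
  else if y ≤ 1 then 2 * y - 1 else y

/-- the second generator as a function -/
noncomputable def bF (x : ℝ) : ℝ :=
  if x ≤ 1 / 2 then x else if x ≤ 11 / 16 then 2 * x - 1 / 2 else if x ≤ 3 / 4 then x + 3 / 16
  else if x ≤ 1 then x / 4 + 3 / 4 else x

/-- its inverse -/
noncomputable def bI (y : ℝ) : ℝ :=
  if y ≤ 1 / 2 then y else if y ≤ 7 / 8 then y / 2 + 1 / 4 else if y ≤ 15 / 16 then y - 3 / 16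
  else if y ≤ 1 then 4 * y - 3 else y

/-- the first generator -/
noncomputable def t : Equiv.Perm ℝ where
  toFun := tF
  invFun := tI
  left_inv := by intro x; unfold tF tI; split_ifs <;> linarith
  right_inv := by intro x; unfold tF tI; split_ifs <;> linarith

/-- the second generator -/
noncomputable def b : Equiv.Perm ℝ where
  toFun := bF
  invFun := bI
  left_inv := by intro x; unfold bF bI; split_ifs <;> linarith
  right_inv := by intro x; unfold bF bI; split_ifs <;> linarith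

theorem t0 {x : ℝ} (h : x ≤ 0) : t x = x := by
  show tF x = _; unfold tF; split_ifs <;> linarith
theorem t1 {x : ℝ} (h : 0 ≤ x) (h' : x ≤ 1 / 4) : t x = 2 * x := by
  show tF x = _; unfold tF; split_ifs <;> linarith
theorem t2 {x : ℝ} (h : 1 / 4 ≤ x) (h' : x ≤ 1 / 2) : t x = x + 1 / 4 := by
  show tF x = _; unfold tF; split_ifs <;> linarith
theorem t3 {x : ℝ} (h : 1 / 2 ≤ x) (h' : x ≤ 1) : t x = x / 2 + 1 / 2 := by
  show tF x = _; unfold tF; split_ifs <;> linarith
theorem t4 {x : ℝ} (h : 1 ≤ x) : t x = x := by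
  show tF x = _; unfold tF; split_ifs <;> linarith

theorem b0 {x : ℝ} (h : x ≤ 1 / 2) : b x = x := by
  show bF x = _; unfold bF; split_ifs <;> linarith
theorem b1 {x : ℝ} (h : 1 / 2 ≤ x) (h' : x ≤ 11 / 16) : b x = 2 * x - 1 / 2 := by
  show bF x = _; unfold bF; split_ifs <;> linarith
theorem b2 {x : ℝ} (h : 11 / 16 ≤ x) (h' : x ≤ 3 / 4) : b x = x + 3 / 16 := by
  show bF x = _; unfold bF; split_ifs <;> linarith
theorem b3 {x : ℝ} (h : 3 / 4 ≤ x) (h' : x ≤ 1) : b x = x / 4 + 3 / 4 := by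
  show bF x = _; unfold bF; split_ifs <;> linarith
theorem b4 {x : ℝ} (h : 1 ≤ x) : b x = x := by
  show bF x = _; unfold bF; split_ifs <;> linarith

theorem t_mono : StrictMono t := by
  intro x y h
  show tF x < tF y
  unfold tF; split_ifs <;> linarith

theorem b_mono : StrictMono b := by
  intro x y h
  show bF x < bF y
  unfold bF; split_ifs <;> linarith

theorem gap {B : Finset ℝ} {x y : ℝ} (hb : ∀ b ∈ B, b ∉ Ioo x y) {p : ℝ} (hp : p ∈ B) :
    p ≤ x ∨ y ≤ p := by
  by_contra hh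
  push Not at hh
  exact hb p hp hh

theorem p0 : (1 : ℝ) ∈ PowTwo := ⟨0, by simp⟩
theorem p1 : (2 : ℝ) ∈ PowTwo := ⟨1, by simp⟩
theorem pm1 : (1 / 2 : ℝ) ∈ PowTwo := ⟨-1, by simp⟩
theorem pm2 : (1 / 4 : ℝ) ∈ PowTwo := ⟨-2, by norm_num⟩

theorem t_brk : Brk t {0, 1 / 4, 1 / 2, 1} := by
  intro x y hxy hb
  rcases gap hb (p := 0) (by simp) with h0 | h0
  · rcases gap hb (p := 1 / 4) (by simp) with h1 | h1
    · rcases gap hb (p := 1 / 2) (by simp) with h2 | h2
      · rcases gap hb (p := 1) (by simp) with h3 | h3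
        · exact ⟨1, p0, fun z hz => by rw [t4 h3, t4 (h3.trans hz.1)]; ring⟩
        · exact ⟨_, pm1, fun z hz => by
            rw [t3 h2 (by linarith), t3 (h2.trans hz.1) (hz.2.trans h3)]; ring⟩
      · exact ⟨1, p0, fun z hz => by
          rw [t2 h1 (by linarith), t2 (h1.trans hz.1) (hz.2.trans h2)]; ring⟩
    · exact ⟨2, p1, fun z hz => by
        rw [t1 h0 (by linarith), t1 (h0.trans hz.1) (hz.2.trans h1)]; ring⟩
  · exact ⟨1, p0, fun z hz => by rw [t0 (by linarith : x ≤ 0), t0 (hz.2.trans h0)]; ring⟩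

theorem b_brk : Brk b {1 / 2, 11 / 16, 3 / 4, 1} := by
  intro x y hxy hb
  rcases gap hb (p := 1 / 2) (by simp) with h0 | h0
  · rcases gap hb (p := 11 / 16) (by simp) with h1 | h1
    · rcases gap hb (p := 3 / 4) (by simp) with h2 | h2
      · rcases gap hb (p := 1) (by simp) with h3 | h3
        · exact ⟨1, p0, fun z hz => by rw [b4 h3, b4 (h3.trans hz.1)]; ring⟩
        · exact ⟨_, pm2, fun z hz => by
            rw [b3 h2 (by linarith), b3 (h2.trans hz.1) (hz.2.trans h3)]; ring⟩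
      · exact ⟨1, p0, fun z hz => by
          rw [b2 h1 (by linarith), b2 (h1.trans hz.1) (hz.2.trans h2)]; ring⟩
    · exact ⟨2, p1, fun z hz => by
        rw [b1 h0 (by linarith), b1 (h0.trans hz.1) (hz.2.trans h1)]; ring⟩
  · exact ⟨1, p0, fun z hz => by rw [b0 (by linarith : x ≤ 1 / 2), b0 (hz.2.trans h0)]; ring⟩

theorem dy (m : ℤ) (e : ℕ) {x : ℝ} (h : x = m / 2 ^ e) : x ∈ Dyadics := ⟨m, e, h⟩

theorem t_mem : t ∈ ThompsonF := by
  refine ⟨t_mono, fun x hx => ?_, _, ?_, t_brk⟩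
  · by_cases h : x ≤ 0
    · exact t0 h
    · exact t4 (by by_contra h'; exact hx ⟨by linarith, by linarith⟩)
  · intro p hp
    simp only [Finset.mem_insert, Finset.mem_singleton] at hp
    rcases hp with rfl | rfl | rfl | rfl
    · exact dy 0 0 (by norm_num)
    · exact dy 1 2 (by norm_num)
    · exact dy 1 1 (by norm_num)
    · exact dy 1 0 (by norm_num)

theorem b_mem : b ∈ ThompsonF := by
  refine ⟨b_mono, fun x hx => ?_, _, ?_, b_brk⟩
  · by_cases h : x ≤ 0
    · exact b0 (by linarith)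
    · exact b4 (by by_contra h'; exact hx ⟨by linarith, by linarith⟩)
  · intro p hp
    simp only [Finset.mem_insert, Finset.mem_singleton] at hp
    rcases hp with rfl | rfl | rfl | rfl
    · exact dy 1 1 (by norm_num)
    · exact dy 11 4 (by norm_num)
    · exact dy 3 2 (by norm_num)
    · exact dy 1 0 (by norm_num)

theorem slR {g : Equiv.Perm ℝ} {x : ℝ} (y : ℝ) (k : ℤ) (s c : ℝ) (hs : (2 : ℝ) ^ k = s) (hxy : x < y)
    (h : ∀ z, x ≤ z → z ≤ y → g z = s * z + c) : HasSl (𝓝[>] x) g x k := by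
  filter_upwards [Ioo_mem_nhdsGT hxy] with z hz
  rw [h z hz.1.le hz.2.le, h x le_rfl hxy.le, hs]
  ring

theorem slL {g : Equiv.Perm ℝ} {x : ℝ} (y : ℝ) (k : ℤ) (s c : ℝ) (hs : (2 : ℝ) ^ k = s) (hxy : y < x)
    (h : ∀ z, y ≤ z → z ≤ x → g z = s * z + c) : HasSl (𝓝[<] x) g x k := by
  filter_upwards [Ioo_mem_nhdsLT hxy] with z hz
  rw [h z hz.1.le hz.2.le, h x hxy.le le_rfl, hs]
  ring

theorem tau2 : tau 2 = 1 := by rw [show 2 = 2 * 1 by rfl, tau_even one_pos, tau_one]; rfl
theorem tau3 : tau 3 = -1 := by rw [show 3 = 2 * 1 + 1 by rfl, tau_odd one_pos, tau_one]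
theorem tau7 : tau 7 = -1 := by rw [show 7 = 2 * 3 + 1 by rfl, tau_odd (by norm_num), tau3]
theorem tau11 : tau 11 = 1 := by
  rw [show 11 = 2 * 5 + 1 by rfl, tau_odd (by norm_num), show 5 = 2 * 2 + 1 by rfl,
    tau_odd (by norm_num), tau2]
theorem tau14 : tau 14 = 1 := by
  rw [show 14 = 2 * 7 by rfl, tau_even (by norm_num), tau7]; rfl
theorem tau15 : tau 15 = -1 := by rw [show 15 = 2 * 7 + 1 by rfl, tau_odd (by norm_num), tau7]

theorem sg14 : sgn (1 / 4) = -1 := by
  have := sig_eq one_pos 2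
  rw [tau_one] at this
  rw [sgn_in (by norm_num) (by norm_num), show (1 / 4 : ℝ) = (1 : ℕ) / 2 ^ 2 by norm_num, this]
  norm_num
theorem sg12 : sgn (1 / 2) = 1 := by
  have := sig_eq one_pos 1
  rw [tau_one] at this
  rw [sgn_in (by norm_num) (by norm_num), show (1 / 2 : ℝ) = (1 : ℕ) / 2 ^ 1 by norm_num, this]
  norm_num
theorem sg34 : sgn (3 / 4) = -1 := by
  have := sig_eq (m := 3) (by norm_num) 2
  rw [tau3] at this
  rw [sgn_in (by norm_num) (by norm_num), show (3 / 4 : ℝ) = (3 : ℕ) / 2 ^ 2 by norm_num, this]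
  norm_num
theorem sg1116 : sgn (11 / 16) = 1 := by
  have := sig_eq (m := 11) (by norm_num) 4
  rw [tau11] at this
  rw [sgn_in (by norm_num) (by norm_num), show (11 / 16 : ℝ) = (11 : ℕ) / 2 ^ 4 by norm_num, this]
  norm_num

theorem del_t : del t = 0 := by
  have j1 : jump t (1 / 4) = -1 := by
    rw [jump_eq (slR (1 / 2) 0 1 (1 / 4) (by norm_num) (by norm_num)
        (fun z h h' => by rw [t2 h h']; ring))
      (slL 0 1 2 0 (by norm_num) (by norm_num) (fun z h h' => by rw [t1 h h']; ring))]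
    rfl
  have j2 : jump t (1 / 2) = -1 := by
    rw [jump_eq (slR 1 (-1) (1 / 2) (1 / 2) (by norm_num) (by norm_num)
        (fun z h h' => by rw [t3 h h']; ring))
      (slL (1 / 4) 0 1 (1 / 4) (by norm_num) (by norm_num) (fun z h h' => by rw [t2 h h']; ring))]
    rfl
  rw [t_brk.del_eq, Finset.sum_insert (by norm_num), Finset.sum_insert (by norm_num),
    Finset.sum_insert (by norm_num), Finset.sum_singleton, j1, j2, sg14, sg12,
    sgn_out (Or.inl le_rfl), sgn_out (Or.inr le_rfl)]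
  norm_num

theorem del_b : del b = 2 := by
  have j1 : jump b (1 / 2) = 1 := by
    rw [jump_eq (slR (11 / 16) 1 2 (-1 / 2) (by norm_num) (by norm_num)
        (fun z h h' => by rw [b1 h h']; ring))
      (slL 0 0 1 0 (by norm_num) (by norm_num) (fun z h h' => by rw [b0 h']; ring))]
    rfl
  have j2 : jump b (11 / 16) = -1 := by
    rw [jump_eq (slR (3 / 4) 0 1 (3 / 16) (by norm_num) (by norm_num)
        (fun z h h' => by rw [b2 h h']; ring))
      (slL (1 / 2) 1 2 (-1 / 2) (by norm_num) (by norm_num)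
        (fun z h h' => by rw [b1 h h']; ring))]
    rfl
  have j3 : jump b (3 / 4) = -2 := by
    rw [jump_eq (slR 1 (-2) (1 / 4) (3 / 4) (by norm_num) (by norm_num)
        (fun z h h' => by rw [b3 h h']; ring))
      (slL (11 / 16) 0 1 (3 / 16) (by norm_num) (by norm_num)
        (fun z h h' => by rw [b2 h h']; ring))]
    rfl
  rw [b_brk.del_eq, Finset.sum_insert (by norm_num), Finset.sum_insert (by norm_num),
    Finset.sum_insert (by norm_num), Finset.sum_singleton, j1, j2, j3, sg12, sg1116, sg34,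
    sgn_out (Or.inr le_rfl)]
  norm_num

theorem shift (a : ℕ) (ha : 0 < a) {u : ℝ} (y : ℝ) (h0 : 0 ≤ y) (h1 : y < 1) (hu : u = a + y) :
    sig u = - tau a * sig (1 + y) := hu ▸ sig_shift ha h0 h1

theorem sgn_t (x : ℝ) : sgn (t x) = -1 * sgn x := by
  by_cases h0 : x ≤ 0
  · rw [t0 h0, sgn_out (Or.inl h0)]; rfl
  by_cases h4 : 1 ≤ x
  · rw [t4 h4, sgn_out (Or.inr h4)]; rfl
  push Not at h0 h4
  rw [sgn_in h0 h4]
  by_cases h1 : x < 1 / 4
  · rw [t1 h0.le h1.le, sgn_in (by linarith) (by linarith), sig_two]; ring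
  by_cases h2 : x < 1 / 2
  · push Not at h1
    rw [t2 h1 h2.le, sgn_in (by linarith) (by linarith), ← sig_four, ← sig_four x,
      shift 2 (by norm_num) (4 * x - 1) (by linarith) (by linarith) (by push_cast; ring),
      shift 1 (by norm_num) (u := 4 * x) (4 * x - 1) (by linarith) (by linarith)
        (by push_cast; ring), tau2, tau_one]
    ring
  · push Not at h2
    have e := sig_two x
    rw [shift 1 (by norm_num) (u := 2 * x) (2 * x - 1) (by linarith) (by linarith)
        (by push_cast; ring), tau_one] at e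
    rw [t3 h2 h4.le, sgn_in (by linarith) (by linarith), ← sig_four,
      shift 3 (by norm_num) (2 * x - 1) (by linarith) (by linarith) (by push_cast; ring), tau3]
    linarith

theorem sgn_b (x : ℝ) : sgn (b x) = 1 * sgn x := by
  rw [one_mul]
  by_cases h0 : x ≤ 1 / 2
  · rw [b0 h0]
  by_cases h4 : 1 ≤ x
  · rw [b4 h4]
  push Not at h0 h4
  rw [sgn_in (x := x) (by linarith) h4]
  by_cases h1 : x < 11 / 16
  · have e := sig_two (2 * x - 1 / 2)
    rw [shift 1 (by norm_num) (4 * x - 2) (by linarith) (by linarith)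
        (by push_cast; ring), tau_one] at e
    rw [b1 h0.le h1.le, sgn_in (by linarith) (by linarith), ← sig_four x,
      shift 2 (by norm_num) (u := 4 * x) (4 * x - 2) (by linarith) (by linarith)
        (by push_cast; ring), tau2]
    linarith
  by_cases h2 : x < 3 / 4
  · push Not at h1
    rw [b2 h1 h2.le, sgn_in (by linarith) (by linarith), ← sig_sixteen, ← sig_sixteen x,
      shift 14 (by norm_num) (16 * x - 11) (by linarith) (by linarith) (by push_cast; ring),
      shift 11 (by norm_num) (u := 16 * x) (16 * x - 11) (by linarith) (by linarith)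
        (by push_cast; ring), tau11, tau14]
  · push Not at h2
    rw [b3 h2 h4.le, sgn_in (by linarith) (by linarith), ← sig_sixteen, ← sig_four x,
      shift 15 (by norm_num) (4 * x - 3) (by linarith) (by linarith) (by push_cast; ring),
      shift 3 (by norm_num) (u := 4 * x) (4 * x - 3) (by linarith) (by linarith)
        (by push_cast; ring), tau15, tau3]

theorem rel_t : Rel t (-1) 0 := ⟨t_mem, Or.inr rfl, sgn_t, del_t⟩

theorem rel_b : Rel b 1 2 := ⟨b_mem, Or.inl rfl, sgn_b, del_b⟩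

/-- the subgroups cut out by a congruence on `del` -/
def HH (n : ℤ) : Subgroup (Equiv.Perm ℝ) where
  carrier := {g | ∃ c d, Rel g c d ∧ n ∣ d}
  one_mem' := ⟨1, 0, Rel.one, dvd_zero n⟩
  mul_mem' := by
    rintro g h ⟨c, d, h1, h2⟩ ⟨c', d', h3, h4⟩
    exact ⟨_, _, h1.mul h3, dvd_add (h2.mul_left _) h4⟩
  inv_mem' := by
    rintro g ⟨c, d, h1, h2⟩
    exact ⟨_, _, h1.inv, (h2.mul_left _).neg_right⟩

theorem HH_le : HH 4 ≤ ThompsonF := fun _ ⟨_, _, h, _⟩ => h.mem

theorem comm_le : ⁅HH 4, HH 4⁆ ≤ HH 8 := by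
  rw [Subgroup.commutator_le]
  rintro g ⟨c, _, h1, d, rfl⟩ h ⟨c', _, h2, d', rfl⟩
  refine ⟨_, _, ((h1.mul h2).mul h1.inv).mul h2.inv, ?_⟩
  rcases h1.sq with rfl | rfl <;> rcases h2.sq with rfl | rfl <;> omega

theorem conj_b : ∀ h ∈ HH 4, b * h * b⁻¹ ∈ HH 4 := by
  rintro g ⟨c, _, h1, d, rfl⟩
  refine ⟨_, _, (rel_b.mul h1).mul rel_b.inv, ?_⟩
  rcases h1.sq with rfl | rfl <;> omega

theorem conj_b' : ∀ h ∈ HH 4, b⁻¹ * h * b ∈ HH 4 := by
  rintro g ⟨c, _, h1, d, rfl⟩
  refine ⟨_, _, (rel_b.inv.mul h1).mul rel_b, ?_⟩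
  rcases h1.sq with rfl | rfl <;> omega

theorem t_memH : t ∈ HH 4 := ⟨_, _, rel_t, by norm_num⟩

theorem rel_comm : Rel ⁅t, b⁆ 1 (-4) := by
  have := ((rel_t.mul rel_b).mul rel_t.inv).mul rel_b.inv
  norm_num at this
  exact this

theorem comm_not_mem : ⁅t, b⁆ ∉ ⁅HH 4, HH 4⁆ := by
  intro h
  obtain ⟨c, d, h1, h2⟩ := comm_le h
  rw [← h1.dl, rel_comm.dl] at h2
  omega

/-- the third element -/
noncomputable def a : Equiv.Perm ℝ := t⁻¹ * b⁻¹ * (t * t * t)

theorem a_fix {x : ℝ} (h : 1 / 2 ≤ x) : a x = x := by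
  simp only [a, Equiv.Perm.mul_apply]
  rw [Equiv.Perm.inv_eq_iff_eq, Equiv.Perm.inv_eq_iff_eq]
  by_cases h1 : 1 ≤ x
  · rw [t4 h1, t4 h1, t4 h1, b4 h1]
  · push Not at h1
    rw [t3 h h1.le, t3 (x := x / 2 + 1 / 2) (by linarith) (by linarith),
      t3 (by linarith) (by linarith), b3 (by linarith) (by linarith)]
    ring

theorem sq_in : ⁅t, b⁆ ^ 2 ∈ ⁅HH 4, HH 4⁆ := by
  refine sq_mem (a := a) conj_b conj_b' t_memH ?_ ?_ ?_ ?_
  · have : b * a = (b * t⁻¹ * b⁻¹) * (t * t * t) := by rw [a]; group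
    rw [this]
    exact mul_mem (conj_b _ (inv_mem t_memH)) (mul_mem (mul_mem t_memH t_memH) t_memH)
  · apply Equiv.Perm.Disjoint.commute
    intro x
    rcases le_total x (1 / 2) with h | h
    · exact Or.inr (b0 h)
    · exact Or.inl (a_fix h)
  · apply Equiv.Perm.Disjoint.commute
    intro x
    rcases le_total x (1 / 2) with h | h
    · right
      simp only [Equiv.Perm.mul_apply]
      have : t⁻¹ x ≤ 1 / 2 := by
        rw [← t_mono.le_iff_le, t3 le_rfl (by norm_num)]
        simp only [Equiv.Perm.coe_inv, Equiv.apply_symm_apply]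
        linarith
      rw [b0 this]
      simp
    · exact Or.inl (a_fix h)
  · rw [a]; group

universe v

theorem final : ∃ H : Subgroup (Equiv.Perm ℝ), H ≤ ThompsonF ∧
    ∀ (B : Type v) (Q : Pres B) (w : List B), w ≠ [] → IsEmpty (H ≃* DiagramGroup Q w) := by
  refine ⟨HH 4, HH_le, fun B Q w _ => ?_⟩
  have key : ∀ g : HH 4, g ∈ commutator (HH 4) ↔ (g : Equiv.Perm ℝ) ∈ ⁅HH 4, HH 4⁆ := by
    intro g
    rw [← Subgroup.map_subtype_commutator]
    exact (Subgroup.mem_map_iff_mem (Subgroup.subtype_injective _)).symm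
  refine not_diagram (g := ⟨⁅t, b⁆, _, _, rel_comm, by norm_num⟩) (n := 2) (by norm_num) ?_ ?_ w
  · rw [key]; exact sq_in
  · rw [key]; exact comm_not_mem

end Pool.Agent.H363Z.SubF
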