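import Pool.Agent.H363Z.PLDefs

set_option autoImplicit false

/-!
A sign function on dyadic rationals and a crossed homomorphism on Thompson's group.
-/

namespace Pool.Agent.H363Z.SubF

open Set Filter Topology

/-- the sign of a positive integer -/
def tau (n : ℕ) : ℤ := if h : n ≤ 1 then -1 else (if n % 2 = 0 then -1 else 1) * tau (n / 2)
  decreasing_by omega

theorem tau_one : tau 1 = -1 := by rw [tau]; simp

theorem tau_even {m : ℕ} (hm : 0 < m) : tau (2 * m) = - tau m := by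
  rw [tau, dif_neg (by omega), if_pos (by omega), show 2 * m / 2 = m by omega]; ring

theorem tau_odd {m : ℕ} (hm : 0 < m) : tau (2 * m + 1) = tau m := by
  rw [tau, dif_neg (by omega), if_neg (by omega), show (2 * m + 1) / 2 = m by omega]; ring

theorem tau_pow {m : ℕ} (hm : 0 < m) (d : ℕ) : tau (m * 2 ^ d) = tau m * (-1) ^ d := by
  induction d with
  | zero => simp
  | succ d ih =>
    rw [show m * 2 ^ (d + 1) = 2 * (m * 2 ^ d) by ring, tau_even (by positivity), ih]; ring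

theorem tau_shift {a : ℕ} (ha : 0 < a) (d : ℕ) :
    ∀ r, r < 2 ^ d → tau (a * 2 ^ d + r) = - tau a * tau (2 ^ d + r) := by
  induction d with
  | zero =>
    intro r hr
    have : r = 0 := by omega
    subst this
    simp [tau_one]
  | succ d ih =>
    intro r hr
    have h2 : 0 < 2 ^ d := by positivity
    have h3 : 0 < a * 2 ^ d := by positivity
    rcases Nat.even_or_odd' r with ⟨q, rfl | rfl⟩
    · rw [show a * 2 ^ (d + 1) + 2 * q = 2 * (a * 2 ^ d + q) by ring,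
        show 2 ^ (d + 1) + 2 * q = 2 * (2 ^ d + q) by ring, tau_even (by omega),
        tau_even (by omega), ih q (by rw [pow_succ] at hr; omega)]
      ring
    · rw [show a * 2 ^ (d + 1) + (2 * q + 1) = 2 * (a * 2 ^ d + q) + 1 by ring,
        show 2 ^ (d + 1) + (2 * q + 1) = 2 * (2 ^ d + q) + 1 by ring, tau_odd (by omega),
        tau_odd (by omega), ih q (by rw [pow_succ] at hr; omega)]

open Classical in
/-- the sign of a positive dyadic rational -/
noncomputable def sig (x : ℝ) : ℤ :=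
  if h : ∃ p : ℕ × ℕ, 0 < p.1 ∧ x = p.1 / 2 ^ p.2 then tau h.choose.1 * (-1) ^ h.choose.2 else 0

theorem sig_eq {m : ℕ} (hm : 0 < m) (e : ℕ) : sig (m / 2 ^ e) = tau m * (-1) ^ e := by
  have h : ∃ p : ℕ × ℕ, 0 < p.1 ∧ (m / 2 ^ e : ℝ) = p.1 / 2 ^ p.2 := ⟨(m, e), hm, rfl⟩
  rw [sig, dif_pos h]
  obtain ⟨h1, h2⟩ := h.choose_spec
  generalize h.choose.1 = m' at *
  generalize h.choose.2 = e' at *
  have h3 : m * 2 ^ e' = m' * 2 ^ e := by
    rw [div_eq_div_iff (by positivity) (by positivity)] at h2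
    exact_mod_cast h2
  have h4 := congrArg tau h3
  rw [tau_pow hm, tau_pow h1] at h4
  have h5 : ((-1 : ℤ) ^ e) * (-1) ^ e = 1 := by rw [← mul_pow]; simp
  have h6 : ((-1 : ℤ) ^ e') * (-1) ^ e' = 1 := by rw [← mul_pow]; simp
  calc tau m' * (-1) ^ e' = (tau m' * (-1) ^ e) * (-1) ^ e * (-1) ^ e' := by
        rw [mul_assoc (tau m'), h5, mul_one]
    _ = tau m * ((-1) ^ e' * (-1) ^ e') * (-1) ^ e := by rw [← h4]; ring
    _ = _ := by rw [h6, mul_one]

theorem sig_zero {x : ℝ} (h : ¬ ∃ p : ℕ × ℕ, 0 < p.1 ∧ x = p.1 / 2 ^ p.2) : sig x = 0 := by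
  rw [sig, dif_neg h]

theorem sig_two (x : ℝ) : sig (2 * x) = - sig x := by
  by_cases h : ∃ p : ℕ × ℕ, 0 < p.1 ∧ x = p.1 / 2 ^ p.2
  · obtain ⟨⟨m, e⟩, hm, rfl⟩ := h
    have := sig_eq (m := 2 * m) (by omega) e
    rw [tau_even hm] at this
    rw [sig_eq hm, show (2 * ((m : ℝ) / 2 ^ e)) = ((2 * m : ℕ) : ℝ) / 2 ^ e by push_cast; ring,
      this]
    ring
  · rw [sig_zero h, sig_zero]
    · simp
    · rintro ⟨⟨m, e⟩, hm, h'⟩
      refine h ⟨(m, e + 1), hm, ?_⟩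
      simp only at h' ⊢
      rw [pow_succ, ← div_div, ← h']
      ring

theorem sig_four (x : ℝ) : sig (4 * x) = sig x := by
  rw [show 4 * x = 2 * (2 * x) by ring, sig_two, sig_two, neg_neg]

theorem sig_sixteen (x : ℝ) : sig (16 * x) = sig x := by
  rw [show 16 * x = 4 * (4 * x) by ring, sig_four, sig_four]

theorem sig_shift {a : ℕ} (ha : 0 < a) {y : ℝ} (h0 : 0 ≤ y) (h1 : y < 1) :
    sig (a + y) = - tau a * sig (1 + y) := by
  by_cases h : ∃ r d : ℕ, y = r / 2 ^ d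
  · obtain ⟨r, d, rfl⟩ := h
    have hr : r < 2 ^ d := by
      rw [div_lt_one (by positivity)] at h1
      exact_mod_cast h1
    have h2 : 0 < 2 ^ d := by positivity
    have h3 : 0 < a * 2 ^ d := by positivity
    have e1 : (a : ℝ) + r / 2 ^ d = ((a * 2 ^ d + r : ℕ) : ℝ) / 2 ^ d := by
      push_cast; field_simp
    have e2 : (1 : ℝ) + r / 2 ^ d = ((2 ^ d + r : ℕ) : ℝ) / 2 ^ d := by
      push_cast; field_simp
    rw [e1, e2, sig_eq (by omega), sig_eq (by omega), tau_shift ha d r hr]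
    ring
  · have key : ∀ a : ℕ, sig (a + y) = 0 := by
      intro a
      apply sig_zero
      rintro ⟨⟨m, e⟩, hm, h'⟩
      simp only at h'
      have h2 : (0 : ℝ) < 2 ^ e := by positivity
      have h3 : a * 2 ^ e ≤ m := by
        have : (a : ℝ) * 2 ^ e ≤ m := by
          rw [← le_div_iff₀ h2, ← h']; linarith
        exact_mod_cast this
      refine h ⟨m - a * 2 ^ e, e, ?_⟩
      push_cast [h3]
      rw [sub_div, ← h']
      field_simp
      ring
    have := key 1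
    rw [Nat.cast_one] at this
    rw [key, this, mul_zero]

open Classical in
/-- the sign function, cut off outside the open unit interval -/
noncomputable def sgn (x : ℝ) : ℤ := if x ∈ Ioo (0 : ℝ) 1 then sig x else 0

theorem sgn_in {x : ℝ} (h0 : 0 < x) (h1 : x < 1) : sgn x = sig x := if_pos ⟨h0, h1⟩

theorem sgn_out {x : ℝ} (h : x ≤ 0 ∨ 1 ≤ x) : sgn x = 0 :=
  if_neg (fun hh => h.elim (fun h => absurd hh.1 (not_lt.2 h)) (fun h => absurd hh.2 (not_lt.2 h)))

/-- one-sided germ with slope `2 ^ k` -/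
def HasSl (l : Filter ℝ) (g : Equiv.Perm ℝ) (x : ℝ) (k : ℤ) : Prop :=
  ∀ᶠ y in l, g y = g x + 2 ^ k * (y - x)

open Classical in
/-- the logarithm of a one-sided slope -/
noncomputable def sl (l : Filter ℝ) (g : Equiv.Perm ℝ) (x : ℝ) : ℤ :=
  if h : ∃ k, HasSl l g x k then h.choose else 0

theorem sl_eq {l : Filter ℝ} [l.NeBot] {g : Equiv.Perm ℝ} {x : ℝ} (hl : ∀ᶠ y in l, y ≠ x) {k : ℤ}
    (h : HasSl l g x k) : sl l g x = k := by
  have h' : ∃ k, HasSl l g x k := ⟨k, h⟩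
  rw [sl, dif_pos h']
  obtain ⟨y, h1, h2, h3⟩ := (hl.and (h'.choose_spec.and h)).exists
  rw [h3, add_right_inj] at h2
  have h4 := mul_right_cancel₀ (sub_ne_zero.2 h1) h2
  exact (zpow_right_injective₀ (by norm_num) (by norm_num) h4).symm

theorem neR (x : ℝ) : ∀ᶠ y in 𝓝[>] x, y ≠ x := by
  filter_upwards [self_mem_nhdsWithin] with y hy using ne_of_gt hy

theorem neL (x : ℝ) : ∀ᶠ y in 𝓝[<] x, y ≠ x := by
  filter_upwards [self_mem_nhdsWithin] with y hy using ne_of_lt hy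

/-- the jump of the logarithm of the slope -/
noncomputable def jump (g : Equiv.Perm ℝ) (x : ℝ) : ℤ := sl (𝓝[>] x) g x - sl (𝓝[<] x) g x

theorem jump_eq {g : Equiv.Perm ℝ} {x : ℝ} {k l : ℤ} (h : HasSl (𝓝[>] x) g x k)
    (h' : HasSl (𝓝[<] x) g x l) : jump g x = k - l := by
  rw [jump, sl_eq (neR x) h, sl_eq (neL x) h']

/-- `B` contains the breakpoints of `g` -/
def Brk (g : Equiv.Perm ℝ) (B : Finset ℝ) : Prop :=
  ∀ x y : ℝ, x < y → (∀ b ∈ B, b ∉ Ioo x y) →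
    ∃ s ∈ PowTwo, ∀ z ∈ Icc x y, g z = g x + s * (z - x)

theorem exists_gap (B : Finset ℝ) (x : ℝ) :
    ∃ u v, u < x ∧ x < v ∧ ∀ b ∈ B, b ∈ Ioo u v → b = x := by
  have h1 : IsClosed ((B : Set ℝ) \ {x}) := (B.finite_toSet.subset diff_subset).isClosed
  have h2 : ((B : Set ℝ) \ {x})ᶜ ∈ 𝓝 x := h1.isOpen_compl.mem_nhds (by simp)
  obtain ⟨u, v, h3, h4⟩ := mem_nhds_iff_exists_Ioo_subset.1 h2
  refine ⟨u, v, h3.1, h3.2, fun b hb hb' => ?_⟩
  by_contra hne
  exact h4 hb' ⟨hb, hne⟩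

theorem Brk.right {g : Equiv.Perm ℝ} {B : Finset ℝ} (h : Brk g B) (x : ℝ) :
    ∃ k, HasSl (𝓝[>] x) g x k := by
  obtain ⟨u, v, hu, hv, hb⟩ := exists_gap B x
  obtain ⟨_, ⟨k, rfl⟩, hs⟩ := h x v hv (fun b hb' hh =>
    absurd (hb b hb' ⟨hu.trans hh.1, hh.2⟩) hh.1.ne')
  refine ⟨k, ?_⟩
  filter_upwards [Ioo_mem_nhdsGT hv] with y hy using hs y ⟨hy.1.le, hy.2.le⟩

theorem Brk.left {g : Equiv.Perm ℝ} {B : Finset ℝ} (h : Brk g B) (x : ℝ) :
    ∃ k, HasSl (𝓝[<] x) g x k := by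
  obtain ⟨u, v, hu, hv, hb⟩ := exists_gap B x
  obtain ⟨_, ⟨k, rfl⟩, hs⟩ := h u x hu (fun b hb' hh =>
    absurd (hb b hb' ⟨hh.1, hh.2.trans hv⟩) hh.2.ne)
  refine ⟨k, ?_⟩
  filter_upwards [Ioo_mem_nhdsLT hu] with y hy
  rw [hs y ⟨hy.1.le, hy.2.le⟩, hs x ⟨hu.le, le_rfl⟩]
  ring

theorem Brk.jump_zero {g : Equiv.Perm ℝ} {B : Finset ℝ} (h : Brk g B) {x : ℝ} (hx : x ∉ B) :
    jump g x = 0 := by
  obtain ⟨u, v, hu, hv, hb⟩ := exists_gap B x
  obtain ⟨_, ⟨k, rfl⟩, hs⟩ := h u v (hu.trans hv) (fun b hb' hh => hx (hb b hb' hh ▸ hb'))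
  have key : HasSl (𝓝 x) g x k := by
    filter_upwards [Ioo_mem_nhds hu hv] with y hy
    rw [hs y ⟨hy.1.le, hy.2.le⟩, hs x ⟨hu.le, hv.le⟩]
    ring
  rw [jump_eq (key.filter_mono nhdsWithin_le_nhds) (key.filter_mono nhdsWithin_le_nhds), sub_self]

theorem HasSl.mul {l l' : Filter ℝ} {g h : Equiv.Perm ℝ} {x : ℝ} {k k' : ℤ}
    (hg : HasSl l' g (h x) k') (hh : HasSl l h x k) (ht : Tendsto h l l') :
    HasSl l (g * h) x (k' + k) := by
  filter_upwards [hh, ht.eventually hg] with y h1 h2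
  simp only [Equiv.Perm.mul_apply]
  rw [h2, h1, zpow_add₀ two_ne_zero]
  ring

theorem jump_mul {g h : Equiv.Perm ℝ} (hg : g ∈ ThompsonF) (hh : h ∈ ThompsonF) (x : ℝ) :
    jump (g * h) x = jump g (h x) + jump h x := by
  obtain ⟨B, -, hB⟩ := hg.2.2
  obtain ⟨C, -, hC⟩ := hh.2.2
  have hc : Continuous h := hh.1.monotone.continuous_of_surjective h.surjective
  obtain ⟨a, ha⟩ := Brk.right hB (h x)
  obtain ⟨b, hb⟩ := Brk.left hB (h x)
  obtain ⟨c, hc1⟩ := Brk.right hC x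
  obtain ⟨d, hd⟩ := Brk.left hC x
  have t1 : Tendsto h (𝓝[>] x) (𝓝[>] (h x)) := by
    refine tendsto_nhdsWithin_iff.2 ⟨(hc.tendsto x).mono_left nhdsWithin_le_nhds, ?_⟩
    filter_upwards [self_mem_nhdsWithin] with y hy using hh.1 hy
  have t2 : Tendsto h (𝓝[<] x) (𝓝[<] (h x)) := by
    refine tendsto_nhdsWithin_iff.2 ⟨(hc.tendsto x).mono_left nhdsWithin_le_nhds, ?_⟩
    filter_upwards [self_mem_nhdsWithin] with y hy using hh.1 hy
  rw [jump_eq (ha.mul hc1 t1) (hb.mul hd t2), jump_eq ha hb, jump_eq hc1 hd]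
  ring

/-- the crossed homomorphism -/
noncomputable def del (g : Equiv.Perm ℝ) : ℤ := ∑ᶠ x, sgn x * jump g x

theorem Brk.supp {g : Equiv.Perm ℝ} {B : Finset ℝ} (h : Brk g B) :
    Function.support (fun x => sgn x * jump g x) ⊆ B := by
  intro x hx
  by_contra hb
  exact hx (by simp [h.jump_zero hb])

theorem Brk.del_eq {g : Equiv.Perm ℝ} {B : Finset ℝ} (h : Brk g B) :
    del g = ∑ x ∈ B, sgn x * jump g x := finsum_eq_sum_of_support_subset _ h.supp

/-- elements of `F` that multiply the sign by `c` and have `del = d` -/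
structure Rel (g : Equiv.Perm ℝ) (c d : ℤ) : Prop where
  mem : g ∈ ThompsonF
  sq : c = 1 ∨ c = -1
  sg : ∀ x, sgn (g x) = c * sgn x
  dl : del g = d

theorem Rel.mul {g h : Equiv.Perm ℝ} {c d c' d' : ℤ} (hg : Rel g c d) (hh : Rel h c' d') :
    Rel (g * h) (c * c') (c' * d + d') := by
  refine ⟨mul_mem hg.mem hh.mem, ?_, fun x => ?_, ?_⟩
  · rcases hg.sq with rfl | rfl <;> rcases hh.sq with rfl | rfl <;> simp
  · rw [Equiv.Perm.mul_apply, hg.sg, hh.sg, mul_assoc]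
  · obtain ⟨B, -, hB⟩ := hg.mem.2.2
    obtain ⟨C, -, hC⟩ := hh.mem.2.2
    have f1 : (Function.support (fun x => sgn x * jump g x)).Finite :=
      B.finite_toSet.subset (Brk.supp hB)
    have f2 : (Function.support (fun x => sgn x * jump h x)).Finite :=
      C.finite_toSet.subset (Brk.supp hC)
    have e : ∀ x, sgn x * jump (g * h) x = c' * (sgn (h x) * jump g (h x)) + sgn x * jump h x := by
      intro x
      rw [jump_mul hg.mem hh.mem, hh.sg]
      rcases hh.sq with rfl | rfl <;> ring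
    have f3 : (Function.support (fun x => sgn (h x) * jump g (h x))).Finite :=
      f1.preimage h.injective.injOn
    have f4 : (Function.support (fun x => c' * (sgn (h x) * jump g (h x)))).Finite :=
      f3.subset (Function.support_mul_subset_right _ _)
    rw [del]
    simp only [e]
    rw [finsum_add_distrib f4 f2, ← mul_finsum' _ _ f3,
      finsum_comp_equiv h (f := fun x => sgn x * jump g x), ← hg.dl, ← hh.dl]
    rfl

theorem Rel.one : Rel 1 1 0 := by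
  refine ⟨one_mem _, Or.inl rfl, fun x => by simp, ?_⟩
  have : Brk 1 ∅ := fun x y _ _ => ⟨1, ⟨0, by simp⟩, fun z _ => by simp⟩
  rw [this.del_eq]
  simp

theorem Rel.inv {g : Equiv.Perm ℝ} {c d : ℤ} (hg : Rel g c d) : Rel g⁻¹ c (-(c * d)) := by
  have h1 : Rel g⁻¹ c (del g⁻¹) := by
    refine ⟨inv_mem hg.mem, hg.sq, fun x => ?_, rfl⟩
    have := hg.sg (g⁻¹ x)
    have e : g (g⁻¹ x) = x := by simp
    rw [e] at this
    rw [this]
    rcases hg.sq with rfl | rfl <;> ring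
  have h2 := (hg.mul h1).dl
  rw [mul_inv_cancel, Rel.one.dl] at h2
  have h3 : del g⁻¹ = -(c * d) := by linarith
  rwa [h3] at h1

end Pool.Agent.H363Z.SubF
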