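import Pool.Agent.H363Z.Univ

set_option autoImplicit false

/-!
Deterministic rewriting systems and their diagram groups; change of alphabet.
-/

namespace Pool.Agent.H363Z

universe u v

section transport

variable {A : Type u} {B : Type v}

/-- relabelling an edge -/
def Step.map (f : A → B) (e : Step A) : Step B :=
  ⟨e.pre.map f, e.lhs.map f, e.rhs.map f, e.suf.map f, e.fwd⟩

theorem Step.map_src (f : A → B) (e : Step A) : (e.map f).src = e.src.map f := by
  rcases e with ⟨a, u, v, b, _ | _⟩ <;> simp [Step.map, Step.src]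

theorem Step.map_tgt (f : A → B) (e : Step A) : (e.map f).tgt = e.tgt.map f := by
  rcases e with ⟨a, u, v, b, _ | _⟩ <;> simp [Step.map, Step.tgt]

theorem IsPath.map {P : Pres A} {Q : Pres B} (f : A → B)
    (hf : ∀ u v, (u, v) ∈ P.rel → (u.map f, v.map f) ∈ Q.rel) {x y : List A} {l : List (Step A)}
    (h : IsPath P x l y) : IsPath Q (x.map f) (l.map (Step.map f)) (y.map f) := by
  induction h with
  | nil x => exact IsPath.nil _
  | cons e l y he _ ih =>
    rw [← Step.map_src, List.map_cons]
    refine IsPath.cons _ _ _ (hf _ _ he) ?_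
    rwa [Step.map_tgt]

theorem Move.map (f : A → B) {l l' : List (Step A)} (h : Move l l') :
    Move (l.map (Step.map f)) (l'.map (Step.map f)) := by
  rcases h with ⟨_, _, ⟨l, r, a, u, v, b, p, q, c, s, t⟩⟩ | ⟨l, r, e⟩
  · have := Swap.mk (l.map (Step.map f)) (r.map (Step.map f)) (a.map f) (u.map f) (v.map f)
      (b.map f) (p.map f) (q.map f) (c.map f) s t
    refine Move.swap _ _ ?_
    cases s <;> cases t <;> simpa [Step.map] using this
  · have := Move.cancel (l.map (Step.map f)) (r.map (Step.map f)) (e.map f)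
    simpa [Step.map, Step.rev] using this

/-- the homomorphism induced by a relabelling -/
def mapHom {P : Pres A} {Q : Pres B} (f : A → B)
    (hf : ∀ u v, (u, v) ∈ P.rel → (u.map f, v.map f) ∈ Q.rel) {w : List A} {w' : List B}
    (hw : w.map f = w') : DiagramGroup P w →* DiagramGroup Q w' where
  toFun := Quot.map (fun γ : Loop P w => (⟨γ.1.map (Step.map f), hw ▸ γ.2.map f hf⟩ : Loop Q w'))
    (fun _ _ h => h.map f)
  map_one' := rfl
  map_mul' := by
    rintro ⟨a⟩ ⟨b⟩
    exact congrArg DiagramGroup.mk (Subtype.ext (List.map_append ..))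

/-- relabelling a presentation along a bijection -/
def Pres.map (P : Pres A) (e : A ≃ B) : Pres B :=
  ⟨{p | (p.1.map e.symm, p.2.map e.symm) ∈ P.rel}, fun p hp => by
    simpa using P.ne_nil _ hp⟩

theorem Step.map_map {C : Type*} (f : A → B) (g : B → C) (e : Step A) :
    (e.map f).map g = e.map (g ∘ f) := by simp [Step.map]

theorem Step.map_id (e : Step A) : e.map id = e := by simp [Step.map]

/-- relabelling along a bijection does not change the diagram group -/
def mapEquiv (P : Pres A) (e : A ≃ B) (w : List A) :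
    DiagramGroup P w ≃* DiagramGroup (P.map e) (w.map e) :=
  MonoidHom.toMulEquiv (mapHom e (fun u v h => by simpa [Pres.map] using h) rfl)
    (mapHom e.symm (fun _ _ h => h) (by simp))
    (by
      ext ⟨γ⟩
      refine congrArg DiagramGroup.mk (Subtype.ext ?_)
      simp [Function.comp_def, Step.map])
    (by
      ext ⟨γ⟩
      refine congrArg DiagramGroup.mk (Subtype.ext ?_)
      simp [Function.comp_def, Step.map])

theorem Pres.map_finite {P : Pres A} (h : P.rel.Finite) (e : A ≃ B) : (P.map e).rel.Finite := by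
  refine h.preimage (f := fun p : List B × List B => (p.1.map e.symm, p.2.map e.symm)) ?_
  intro p _ q _ hpq
  simp only [Prod.mk.injEq] at hpq
  exact Prod.ext ((List.map_injective_iff.2 e.symm.injective) hpq.1)
    ((List.map_injective_iff.2 e.symm.injective) hpq.2)

end transport

section det

variable {A : Type u} {P : Pres A}

/-- forward paths -/
def Fwd (l : List (Step A)) : Prop := ∀ e ∈ l, e.fwd = true

theorem normal_form (S : List A → Prop)
    (hS : ∀ e : Step A, (e.lhs, e.rhs) ∈ P.rel → S e.src → S e.tgt)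
    (hd : ∀ e e' : Step A, (e.lhs, e.rhs) ∈ P.rel → (e'.lhs, e'.rhs) ∈ P.rel → e.fwd = true →
      e'.fwd = true → S e.src → e.src = e'.src → e = e')
    {x y : List A} {l : List (Step A)} (h : IsPath P x l y) (hx : S x) :
    ∃ z f1 f2, IsPath P x f1 z ∧ IsPath P y f2 z ∧ Fwd f1 ∧ Fwd f2 ∧
      ev P l = ev P f1 * (ev P f2)⁻¹ := by
  induction h with
  | nil x => exact ⟨x, [], [], IsPath.nil _, IsPath.nil _, by simp [Fwd], by simp [Fwd], by simp⟩
  | cons e l y he _ ih =>
    obtain ⟨z, f1, f2, h1, h2, h3, h4, h5⟩ := ih (hS e he hx)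
    cases hf : e.fwd
    · have hr : e.rev.fwd = true := by simp [Step.rev, hf]
      cases f1 with
      | nil =>
        obtain rfl := h1.nil_inv
        refine ⟨e.src, [], f2 ++ [e.rev], IsPath.nil _, h2.append ?_, h3, ?_, ?_⟩
        · have := IsPath.single (P := P) (e := e.rev) he
          rwa [e.rev_src, e.rev_tgt] at this
        · intro e' he'
          rcases List.mem_append.1 he' with h | h
          · exact h4 e' h
          · rw [List.mem_singleton.1 h]; exact hr
        · simp [h5, st_rev]
      | cons e' f1 =>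
        obtain ⟨h6, h7, h8⟩ := h1.cons_inv
        have : e.rev = e' := hd _ _ he h7 hr (h3 e' (by simp))
          (by rw [e.rev_src]; exact hS e he hx) (by rw [e.rev_src, h6])
        subst this
        rw [e.rev_tgt] at h8
        exact ⟨z, f1, f2, h8, h2, fun e' h => h3 e' (by simp [h]), h4, by simp [h5, st_rev, mul_assoc]⟩
    · refine ⟨z, e :: f1, f2, IsPath.cons _ _ _ he h1, h2, ?_, h4, by simp [h5, mul_assoc]⟩
      intro e' he'
      rcases List.mem_cons.1 he' with rfl | h
      · exact hf
      · exact h3 e' h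

theorem trivial_of_det (S I : List A → Prop)
    (hS : ∀ e : Step A, (e.lhs, e.rhs) ∈ P.rel → S e.src → S e.tgt)
    (hd : ∀ e e' : Step A, (e.lhs, e.rhs) ∈ P.rel → (e'.lhs, e'.rhs) ∈ P.rel → e.fwd = true →
      e'.fwd = true → S e.src → e.src = e'.src → e = e')
    (hIS : ∀ x, I x → S x)
    (hI : ∀ e : Step A, (e.lhs, e.rhs) ∈ P.rel → e.fwd = true → I e.src →
      I e.tgt ∧ e.src.length < e.tgt.length) {w : List A} (hw : I w) :
    Subsingleton (DiagramGroup P w) := by
  have len : ∀ {x z f}, IsPath P x f z → Fwd f → I x → x.length + f.length ≤ z.length := by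
    intro x z f h
    induction h with
    | nil x => simp
    | cons e l y he _ ih =>
      intro hf hx
      have h1 := hI e he (hf e (by simp)) hx
      have h2 := ih (fun e' h => hf e' (by simp [h])) h1.1
      simp only [List.length_cons]
      omega
  have uniq : ∀ {x z f}, IsPath P x f z → Fwd f → I x → ∀ f', IsPath P x f' z → Fwd f' →
      f = f' := by
    intro x z f h
    induction h with
    | nil x =>
      intro _ hx f' h' hf'
      have := len h' hf' hx
      exact (List.length_eq_zero_iff.1 (by omega)).symm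
    | cons e l y he hl ih =>
      intro hf hx f' h' hf'
      cases f' with
      | nil =>
        have h1 := len (IsPath.cons e l y he hl) hf hx
        rw [← h'.nil_inv] at h1
        simp at h1
      | cons e' l' =>
        obtain ⟨h1, h2, h3⟩ := h'.cons_inv
        obtain rfl := hd e e' he h2 (hf e (by simp)) (hf' e' (by simp)) (hIS _ hx) h1
        rw [ih (fun e' h => hf e' (by simp [h])) (hI e he (hf e (by simp)) hx).1 l' h3
          (fun e' h => hf' e' (by simp [h]))]
  refine subsingleton_of_forall_eq 1 ?_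
  rintro ⟨γ⟩
  apply toU_injective
  obtain ⟨z, f1, f2, h1, h2, h3, h4, h5⟩ := normal_form S hS hd γ.2 (hIS _ hw)
  rw [map_one]
  change ev P γ.1 = 1
  rw [h5, uniq h1 h3 hw f2 h2 h4, mul_inv_cancel]

/-- counting the uses of a family of relations -/
def cnt (P : Pres A) (c : List A → List A → ℤ) : UG P →* Multiplicative ℤ :=
  UG.lift (fun _ u v _ => Multiplicative.ofAdd (c u v)) (fun _ _ _ _ _ _ _ _ _ => mul_comm _ _)

theorem cnt_gen (c : List A → List A → ℤ) {u v : List A} (h : (u, v) ∈ P.rel) (a b : List A) :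
    cnt P c (gen P a u v b) = Multiplicative.ofAdd (c u v) := UG.lift_gen _ _ h a b

end det

section machine

variable {T Q : Type}

open Sum

/-- the word of a configuration; the left part is stored reversed -/
def word (l : List T) (q : Q) (r : List T) : List (T ⊕ Q) :=
  l.reverse.map inl ++ inr q :: r.map inl

variable (dir : Q → Bool) (δ : Q → T → List T × Q × List T)

/-- left side of a rule -/
def lhsOf (q : Q) (a : T) : List (T ⊕ Q) := cond (dir q) [inr q, inl a] [inl a, inr q]

/-- right side of a rule -/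
def rhsOf (q : Q) (a : T) : List (T ⊕ Q) := word (δ q a).1 (δ q a).2.1 (δ q a).2.2

/-- the presentation of a machine -/
def PM : Pres (T ⊕ Q) :=
  ⟨{p | ∃ q a, p = (lhsOf dir q a, rhsOf δ q a)}, by
    rintro _ ⟨q, a, rfl⟩
    constructor
    · unfold lhsOf; cases dir q <;> simp
    · simp [rhsOf, word]⟩

theorem PM_finite [Finite T] [Finite Q] : (PM dir δ).rel.Finite :=
  (Set.finite_range (fun p : Q × T => (lhsOf dir p.1 p.2, rhsOf δ p.1 p.2))).subset (by
    rintro _ ⟨q, a, rfl⟩
    exact ⟨(q, a), rfl⟩)

theorem count_word (l : List T) (q : Q) (r : List T) :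
    (word l q r).countP Sum.isRight = 1 := by
  simp [word, List.countP_map, Function.comp_def]

theorem PM_one (e : Step (T ⊕ Q)) (he : (e.lhs, e.rhs) ∈ (PM dir δ).rel)
    (h : e.src.countP Sum.isRight = 1) : e.tgt.countP Sum.isRight = 1 := by
  obtain ⟨q, a, he⟩ := he
  rcases e with ⟨p, u, v, s, f⟩
  simp only [Prod.mk.injEq] at he
  obtain ⟨rfl, rfl⟩ := he
  have h1 : (lhsOf dir q a).countP Sum.isRight = 1 := by unfold lhsOf; cases dir q <;> simp
  have h2 : (rhsOf δ q a).countP Sum.isRight = 1 := count_word ..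
  cases f <;> simp only [Step.src, Step.tgt, List.countP_append, cond_true, cond_false] at h ⊢ <;>
    omega

theorem split_unique {q q' : Q} : ∀ {p p' s s' : List (T ⊕ Q)}, p.countP Sum.isRight = 0 →
    p'.countP Sum.isRight = 0 → p ++ inr q :: s = p' ++ inr q' :: s' → p = p' ∧ q = q' ∧ s = s'
  | [], [], _, _, _, _, h => by simpa using h
  | [], a :: p', _, _, _, h2, h => by
    simp only [List.nil_append, List.cons_append, List.cons.injEq] at h
    rw [← h.1] at h2
    simp at h2
  | a :: p, [], _, _, h1, _, h => by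
    simp only [List.nil_append, List.cons_append, List.cons.injEq] at h
    rw [h.1] at h1
    simp at h1
  | a :: p, b :: p', _, _, h1, h2, h => by
    simp only [List.cons_append, List.cons.injEq] at h
    rw [List.countP_cons] at h1 h2
    obtain ⟨e1, e2, e3⟩ := split_unique (by omega) (by omega) h.2
    exact ⟨by rw [h.1, e1], e2, e3⟩

theorem PM_det (e e' : Step (T ⊕ Q)) (he : (e.lhs, e.rhs) ∈ (PM dir δ).rel)
    (he' : (e'.lhs, e'.rhs) ∈ (PM dir δ).rel) (hf : e.fwd = true) (hf' : e'.fwd = true)
    (h : e.src.countP Sum.isRight = 1) (hh : e.src = e'.src) : e = e' := by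
  obtain ⟨q, a, he⟩ := he
  obtain ⟨q', a', he'⟩ := he'
  have h' := hh ▸ h
  rcases e with ⟨p, u, v, s, f⟩
  rcases e' with ⟨p', u', v', s', f'⟩
  simp only [Prod.mk.injEq] at he he' hf hf'
  obtain ⟨rfl, rfl⟩ := he
  obtain ⟨rfl, rfl⟩ := he'
  subst hf hf'
  simp only [Step.src, cond_true, lhsOf] at h h' hh
  have key : ∀ (q : Q) (a : T) (p s : List (T ⊕ Q)),
      (p ++ cond (dir q) [inr q, inl a] [inl a, inr q] ++ s).countP Sum.isRight = 1 →
      (p ++ cond (dir q) [] [inl a]).countP Sum.isRight = 0 ∧
      p ++ cond (dir q) [inr q, inl a] [inl a, inr q] ++ s =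
        (p ++ cond (dir q) [] [inl a]) ++ inr q :: (cond (dir q) [inl a] [] ++ s) := by
    intro q a p s
    cases dir q <;> simp only [cond_true, cond_false, List.countP_append, List.countP_cons,
      List.countP_nil, Sum.isRight_inl, Sum.isRight_inr] <;> intro h <;>
      exact ⟨by simp only [Bool.false_eq_true, if_false, if_true] at h ⊢; omega, by simp⟩
  obtain ⟨k1, k2⟩ := key q a p s h
  obtain ⟨k3, k4⟩ := key q' a' p' s' h'
  rw [k2, k4] at hh
  obtain ⟨e1, rfl, e3⟩ := split_unique k1 k3 hh
  revert e1 e3
  cases dir q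
  · intro e1 e3
    simp only [cond_false, List.nil_append] at e1 e3
    obtain ⟨rfl, e4⟩ := List.append_inj' e1 rfl
    simp only [List.cons.injEq, inl.injEq, and_true] at e4
    rw [e3, e4]
  · intro e1 e3
    simp only [cond_true, List.append_nil, List.cons_append, List.nil_append, List.cons.injEq,
      inl.injEq] at e1 e3
    rw [e1, e3.1, e3.2]

/-- the edge given by a rule reading to the right -/
def stepR (l : List T) (q : Q) (a : T) (r : List T) : Step (T ⊕ Q) :=
  ⟨l.reverse.map inl, lhsOf dir q a, rhsOf δ q a, r.map inl, true⟩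

theorem stepR_src {q : Q} (h : dir q = true) (l : List T) (a : T) (r : List T) :
    (stepR dir δ l q a r).src = word l q (a :: r) := by
  simp [stepR, Step.src, lhsOf, h, word]

theorem stepL_src {q : Q} (h : dir q = false) (l : List T) (a : T) (r : List T) :
    (stepR dir δ l q a r).src = word (a :: l) q r := by
  simp [stepR, Step.src, lhsOf, h, word]

theorem stepR_tgt (q : Q) (l : List T) (a : T) (r : List T) :
    (stepR dir δ l q a r).tgt = word ((δ q a).1 ++ l) (δ q a).2.1 ((δ q a).2.2 ++ r) := by
  simp [stepR, Step.tgt, rhsOf, word]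

theorem stepR_mem (q : Q) (l : List T) (a : T) (r : List T) :
    ((stepR dir δ l q a r).lhs, (stepR dir δ l q a r).rhs) ∈ (PM dir δ).rel := ⟨q, a, rfl⟩

end machine

end Pool.Agent.H363Z
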