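import Pool.Agent.H363Z.UndecA
import Pool.Agent.Helper147.Univ

set_option autoImplicit false

/-!
Simulation of a Turing machine by a deterministic rewriting system.
-/

namespace Pool.Agent.H363Z.Und

open Turing Sum

/-- tape letters -/
inductive TL (Γ : Type) | s (a : Γ) | j | lft | rgt

/-- state letters -/
inductive QL (Λ : Type) | R (q : Λ) | L (q : Λ) | h0 | h1 | h2

open TL QL

variable {Γ Λ : Type}

instance [Finite Γ] : Finite (TL Γ) :=
  Finite.of_surjective (fun x : Γ ⊕ Fin 3 => Sum.elim TL.s ![TL.j, TL.lft, TL.rgt] x) (by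
    rintro (a | _ | _ | _)
    exacts [⟨inl a, rfl⟩, ⟨inr 0, rfl⟩, ⟨inr 1, rfl⟩, ⟨inr 2, rfl⟩])

instance [Finite Λ] : Finite (QL Λ) :=
  Finite.of_surjective (fun x : (Λ ⊕ Λ) ⊕ Fin 3 =>
    Sum.elim (Sum.elim QL.R QL.L) ![QL.h0, QL.h1, QL.h2] x) (by
    rintro (a | a | _ | _ | _)
    exacts [⟨inl (inl a), rfl⟩, ⟨inl (inr a), rfl⟩, ⟨inr 0, rfl⟩, ⟨inr 1, rfl⟩, ⟨inr 2, rfl⟩])

/-- reading direction -/
def dir : QL Λ → Bool
  | L _ => false
  | _ => true

variable [Inhabited Γ] [Inhabited Λ] (M : TM0.Machine Γ Λ)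

/-- effect of an instruction -/
def act (a : Γ) : Option (Λ × TM0.Stmt Γ) → List (TL Γ) × QL Λ × List (TL Γ)
  | none => ([j], h0, [s a])
  | some (q, TM0.Stmt.write b) => ([j], R q, [s b])
  | some (q, TM0.Stmt.move Dir.right) => ([j, s a], R q, [])
  | some (q, TM0.Stmt.move Dir.left) => ([], L q, [j, s a])

/-- the rules -/
def del : QL Λ → TL Γ → List (TL Γ) × QL Λ × List (TL Γ)
  | R q, s a => act a (M q a)
  | R q, j => ([j, j], R q, [])
  | R q, rgt => ([], R q, [s default, rgt])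
  | R q, lft => ([j], R q, [lft])
  | L q, s a => ([j], R q, [s a])
  | L q, j => ([], L q, [j, j])
  | L q, lft => ([lft], R q, [s default])
  | L q, rgt => ([rgt], L q, [j])
  | h0, a => ([], h1, [a])
  | h1, a => ([], h2, [a])
  | h2, a => ([], h0, [a])

/-- the presentation -/
def PT : Pres (TL Γ ⊕ QL Λ) := PM dir (del M)

theorem rhs_len (q : Λ) (a : TL Γ) :
    (rhsOf (del M) (R q) a).length = 3 ∧ (rhsOf (del M) (L q) a).length = 3 := by
  rcases a with a | _ | _ | _
  · refine ⟨?_, rfl⟩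
    simp only [rhsOf, del]
    rcases M q a with _ | ⟨q', (_ | _) | b⟩ <;> rfl
  all_goals exact ⟨rfl, rfl⟩

theorem lhs_len (q : QL Λ) (a : TL Γ) : (lhsOf dir q a).length = 2 := by
  unfold lhsOf; cases dir q <;> rfl

theorem PT_asym : ∀ p ∈ (PT M).rel, (p.2, p.1) ∉ (PT M).rel := by
  rintro _ ⟨q, a, rfl⟩ ⟨q', a', h⟩
  simp only [Prod.mk.injEq] at h
  obtain ⟨e1, e2⟩ := h
  have l1 := congrArg List.length e1
  have l2 := congrArg List.length e2
  rw [lhs_len] at l1 l2
  rcases q with q | q | _ | _ | _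
  · rw [(rhs_len M q a).1] at l1; omega
  · rw [(rhs_len M q a).2] at l1; omega
  all_goals
    rcases q' with q' | q' | _ | _ | _
    · rw [(rhs_len M q' a').1] at l2; omega
    · rw [(rhs_len M q' a').2] at l2; omega
    all_goals simp [lhsOf, rhsOf, del, dir, word] at e1 e2

/-- one side of the tape -/
inductive Side (e : TL Γ) : List (TL Γ) → ListBlank Γ → Prop
  | fin : Side e [e] (ListBlank.mk [])
  | junk {l : List (TL Γ)} {L : ListBlank Γ} : Side e l L → Side e (j :: l) L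
  | sym (a : Γ) {l : List (TL Γ)} {L : ListBlank Γ} : Side e l L → Side e (s a :: l) (L.cons a)

theorem blank_cons : (ListBlank.mk ([] : List Γ)).cons default = ListBlank.mk [] :=
  ListBlank.cons_head_tail (ListBlank.mk [])

theorem side_map (e : TL Γ) (l : List Γ) : Side e (l.map s ++ [e]) (ListBlank.mk l) := by
  induction l with
  | nil => exact Side.fin
  | cons a l ih => exact Side.sym a ih

/-- words representing a configuration -/
inductive Rep : List (TL Γ ⊕ QL Λ) → TM0.Cfg Γ Λ → Prop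
  | right {l r : List (TL Γ)} {A B : ListBlank Γ} (q : Λ) : Side lft l A → Side rgt r B →
      Rep (word l (R q) r) ⟨q, Tape.mk' A B⟩
  | left {l r : List (TL Γ)} {A B : ListBlank Γ} (q : Λ) : Side lft l A → Side rgt r B →
      Rep (word l (L q) r) ⟨q, Tape.mk' A.tail (B.cons A.head)⟩

theorem Rep.one {x : List (TL Γ ⊕ QL Λ)} {c : TM0.Cfg Γ Λ} (h : Rep x c) :
    x.countP Sum.isRight = 1 := by
  cases h <;> exact count_word ..

/-- the step that simulates an instruction -/
theorem sim_step {l r : List (TL Γ)} {A B : ListBlank Γ} (q : Λ) (a : Γ) (hl : Side lft l A)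
    (hr : Side rgt r B) {c : TM0.Cfg Γ Λ}
    (hc : TM0.step M ⟨q, Tape.mk' A (B.cons a)⟩ = some c) :
    Rep (stepR dir (del M) l (R q) (s a) r).tgt c := by
  rw [stepR_tgt]
  simp only [TM0.step, Tape.mk'_head, ListBlank.head_cons, del] at hc ⊢
  rcases hM : M q a with _ | ⟨q', (_ | _) | b⟩ <;> rw [hM] at hc <;>
    simp only [Option.map_none, Option.map_some, Option.some.injEq, reduceCtorEq] at hc <;>
    subst hc
  · rw [Tape.move_left_mk']
    exact Rep.left q' hl ((hr.sym a).junk)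
  · rw [Tape.move_right_mk', ListBlank.head_cons, ListBlank.tail_cons]
    exact Rep.right q' ((hl.sym a).junk) hr
  · rw [Tape.write_mk', ListBlank.tail_cons]
    exact Rep.right q' hl.junk (hr.sym b)

theorem next {x : List (TL Γ ⊕ QL Λ)} {c : TM0.Cfg Γ Λ} (h : Rep x c)
    (hc : TM0.step M c ≠ none) : ∃ e : Step (TL Γ ⊕ QL Λ), (e.lhs, e.rhs) ∈ (PT M).rel ∧
      e.fwd = true ∧ e.src = x ∧ e.src.length < e.tgt.length ∧
      (Rep e.tgt c ∨ ∃ c', TM0.step M c = some c' ∧ Rep e.tgt c') := by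
  have len : ∀ (l r : List (TL Γ)) (q : Λ) (a : TL Γ),
      (stepR dir (del M) l (R q) a r).src.length < (stepR dir (del M) l (R q) a r).tgt.length ∧
      (stepR dir (del M) l (L q) a r).src.length < (stepR dir (del M) l (L q) a r).tgt.length := by
    intro l r q a
    simp [stepR, Step.src, Step.tgt, lhs_len, rhs_len]
  cases h with
  | @right l r A B q hl hr =>
    cases hr with
    | fin =>
      refine ⟨stepR dir (del M) l (R q) rgt [], stepR_mem .., rfl, stepR_src _ _ rfl ..,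
        (len ..).1, Or.inl ?_⟩
      rw [stepR_tgt, ← blank_cons]
      exact Rep.right q hl (Side.fin.sym _)
    | @junk r _ hr =>
      refine ⟨stepR dir (del M) l (R q) j r, stepR_mem .., rfl, stepR_src _ _ rfl ..,
        (len ..).1, Or.inl ?_⟩
      rw [stepR_tgt]
      exact Rep.right q hl.junk.junk hr
    | @sym a r B hr =>
      obtain ⟨c', hc'⟩ := Option.ne_none_iff_exists'.1 hc
      exact ⟨stepR dir (del M) l (R q) (s a) r, stepR_mem .., rfl, stepR_src _ _ rfl ..,
        (len ..).1, Or.inr ⟨c', hc', sim_step M q a hl hr hc'⟩⟩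
  | @left l r A B q hl hr =>
    cases hl with
    | fin =>
      refine ⟨stepR dir (del M) [] (L q) lft r, stepR_mem .., rfl, stepL_src _ _ rfl ..,
        (len ..).2, Or.inl ?_⟩
      rw [stepR_tgt]
      exact Rep.right q Side.fin (hr.sym _)
    | @junk l _ hl =>
      refine ⟨stepR dir (del M) l (L q) j r, stepR_mem .., rfl, stepL_src _ _ rfl ..,
        (len ..).2, Or.inl ?_⟩
      rw [stepR_tgt]
      exact Rep.left q hl hr.junk.junk
    | @sym a l A hl =>
      refine ⟨stepR dir (del M) l (L q) (s a) r, stepR_mem .., rfl, stepL_src _ _ rfl ..,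
        (len ..).2, Or.inl ?_⟩
      rw [stepR_tgt, ListBlank.head_cons, ListBlank.tail_cons]
      exact Rep.right q hl.junk (hr.sym _)

theorem trivial_of_not_dom {x : List (TL Γ ⊕ QL Λ)} {c : TM0.Cfg Γ Λ} (h : Rep x c)
    (hd : ¬ (StateTransition.eval (TM0.step M) c).Dom) :
    Subsingleton (DiagramGroup (PT M) x) := by
  refine trivial_of_det (fun x => x.countP Sum.isRight = 1)
    (fun x => ∃ c', StateTransition.Reaches (TM0.step M) c c' ∧ Rep x c')
    (PM_one _ _) (PM_det _ _) (fun x ⟨_, _, h⟩ => h.one) ?_ ⟨c, Relation.ReflTransGen.refl, h⟩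
  rintro e he hf ⟨c', h1, h2⟩
  have hc : TM0.step M c' ≠ none := fun h0 =>
    hd (Part.dom_iff_mem.2 ⟨c', StateTransition.mem_eval.2 ⟨h1, h0⟩⟩)
  obtain ⟨e', k1, k2, k3, k4, k5⟩ := next M h2 hc
  obtain rfl := PM_det _ _ e e' he k1 hf k2 h2.one k3.symm
  refine ⟨?_, k4⟩
  rcases k5 with k5 | ⟨c'', k5, k6⟩
  · exact ⟨c', h1, k5⟩
  · exact ⟨c'', h1.tail k5, k6⟩

/-- joined by a path -/
def Jn (x y : List (TL Γ ⊕ QL Λ)) : Prop := ∃ g, Arr (PT M) x g y

theorem Jn.refl (x : List (TL Γ ⊕ QL Λ)) : Jn M x x := ⟨1, Arr.refl x⟩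

variable {M} in
theorem Jn.trans {x y z : List (TL Γ ⊕ QL Λ)} (h : Jn M x y) (h' : Jn M y z) : Jn M x z :=
  let ⟨_, k1⟩ := h; let ⟨_, k2⟩ := h'; ⟨_, k1.mul k2⟩

theorem jn_R {q : QL Λ} (h : dir q = true) (l : List (TL Γ)) (a : TL Γ) (r : List (TL Γ)) :
    Jn M (word l q (a :: r)) (word ((del M q a).1 ++ l) (del M q a).2.1 ((del M q a).2.2 ++ r)) :=
  ⟨_, (Arr.st (stepR_mem dir (del M) q l a r)).of_eq (stepR_src _ _ h ..) (stepR_tgt ..)⟩

theorem jn_L {q : QL Λ} (h : dir q = false) (l : List (TL Γ)) (a : TL Γ) (r : List (TL Γ)) :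
    Jn M (word (a :: l) q r) (word ((del M q a).1 ++ l) (del M q a).2.1 ((del M q a).2.2 ++ r)) :=
  ⟨_, (Arr.st (stepR_mem dir (del M) q l a r)).of_eq (stepL_src _ _ h ..) (stepR_tgt ..)⟩

theorem norm_R (q : Λ) {r : List (TL Γ)} {B : ListBlank Γ} (hr : Side rgt r B) :
    ∀ {l : List (TL Γ)} {A : ListBlank Γ}, Side lft l A → ∃ l' r' a B', Side lft l' A ∧
      Side rgt r' B' ∧ B = B'.cons a ∧ Jn M (word l (R q) r) (word l' (R q) (s a :: r')) := by
  induction hr with
  | fin =>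
    intro l A hl
    exact ⟨l, [rgt], default, _, hl, Side.fin, blank_cons.symm, jn_R M rfl l rgt []⟩
  | @junk r B _ ih =>
    intro l A hl
    obtain ⟨l', r', a, B', h1, h2, h3, h4⟩ := ih hl.junk.junk
    exact ⟨l', r', a, B', h1, h2, h3, (jn_R M rfl l j r).trans h4⟩
  | @sym a r B hr _ =>
    intro l A hl
    exact ⟨l, r, a, B, hl, hr, rfl, Jn.refl M _⟩

theorem norm_L (q : Λ) {l : List (TL Γ)} {A : ListBlank Γ} (hl : Side lft l A) :
    ∀ {r : List (TL Γ)} {B : ListBlank Γ}, Side rgt r B → ∃ l' r', Side lft l' A.tail ∧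
      Side rgt r' B ∧ Jn M (word l (L q) r) (word l' (R q) (s A.head :: r')) := by
  induction hl with
  | fin =>
    intro r B hr
    exact ⟨[lft], r, Side.fin, hr, jn_L M rfl [] lft r⟩
  | @junk l A _ ih =>
    intro r B hr
    obtain ⟨l', r', h1, h2, h4⟩ := ih hr.junk.junk
    exact ⟨l', r', h1, h2, (jn_L M rfl l j r).trans h4⟩
  | @sym a l A hl _ =>
    intro r B hr
    rw [ListBlank.head_cons, ListBlank.tail_cons]
    exact ⟨j :: l, r, hl.junk, hr, jn_L M rfl l (s a) r⟩

theorem norm {x : List (TL Γ ⊕ QL Λ)} {c : TM0.Cfg Γ Λ} (h : Rep x c) :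
    ∃ l r q a A B, Side lft l A ∧ Side rgt r B ∧ c = ⟨q, Tape.mk' A (B.cons a)⟩ ∧
      Jn M x (word l (R q) (s a :: r)) := by
  cases h with
  | right q hl hr =>
    obtain ⟨l', r', a, B', h1, h2, rfl, h4⟩ := norm_R M q hr hl
    exact ⟨l', r', q, a, _, B', h1, h2, rfl, h4⟩
  | left q hl hr =>
    obtain ⟨l', r', h1, h2, h4⟩ := norm_L M q hl hr
    exact ⟨l', r', q, _, _, _, h1, h2, rfl, h4⟩

theorem reach {c c' : TM0.Cfg Γ Λ} (h : StateTransition.Reaches (TM0.step M) c c')
    {x : List (TL Γ ⊕ QL Λ)} (hx : Rep x c) : ∃ y, Rep y c' ∧ Jn M x y := by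
  induction h with
  | refl => exact ⟨x, hx, Jn.refl M x⟩
  | tail _ h ih =>
    obtain ⟨y, h1, h2⟩ := ih
    obtain ⟨l, r, q, a, A, B, k1, k2, rfl, k4⟩ := norm M h1
    refine ⟨_, sim_step M q a k1 k2 h, h2.trans (k4.trans ?_)⟩
    rw [stepR_tgt]
    exact jn_R M rfl l (s a) r

theorem hom_of_dom {x : List (TL Γ ⊕ QL Λ)} {c : TM0.Cfg Γ Λ} (h : Rep x c)
    (hd : (StateTransition.eval (TM0.step M) c).Dom) :
    ∃ (χ : DiagramGroup (PT M) x →* Multiplicative ℤ) (g : DiagramGroup (PT M) x), χ g ≠ 1 := by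
  classical
  obtain ⟨c', hc'⟩ := Part.dom_iff_mem.1 hd
  obtain ⟨h1, h2⟩ := StateTransition.mem_eval.1 hc'
  obtain ⟨y, h3, h4⟩ := reach M h1 h
  obtain ⟨l, r, q, a, A, B, -, -, rfl, k4⟩ := norm M h3
  have hM : M q a = none := by simpa [TM0.step] using h2
  have k5 := jn_R M (q := R q) rfl l (s a) r
  simp only [del, hM, act] at k5
  obtain ⟨g, hg⟩ := h4.trans (k4.trans k5)
  have a0 := (Arr.st (stepR_mem dir (del M) QL.h0 ([j] ++ l) (s a) r)).of_eq
    (stepR_src _ _ rfl ..) (stepR_tgt ..)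
  have a1 := (Arr.st (stepR_mem dir (del M) QL.h1 ([j] ++ l) (s a) r)).of_eq
    (stepR_src _ _ rfl ..) (stepR_tgt ..)
  have a2 := (Arr.st (stepR_mem dir (del M) QL.h2 ([j] ++ l) (s a) r)).of_eq
    (stepR_src _ _ rfl ..) (stepR_tgt ..)
  obtain ⟨d, hd⟩ := ((hg.mul ((a0.mul a1).mul a2)).mul hg.inv).exists_toU
  refine ⟨(cnt (PT M) (fun u _ => if u.head? = some (inr h0) then 1 else 0)).comp (toU _ _), d, ?_⟩
  rw [MonoidHom.comp_apply, hd]
  have hm : ∀ q a, (lhsOf dir q a, rhsOf (del M) q a) ∈ (PM dir (del M)).rel :=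
    fun q a => ⟨q, a, rfl⟩
  unfold PT
  simp only [map_mul, map_inv, mul_inv_cancel_comm, st, stepR, cond_true, cnt_gen _ (hm _ _)]
  simp [lhsOf, dir]

open Turing.PartrecToTM2 (trNat) in
theorem digits_primrec {α : Type} [Primcodable α] (κ : PartrecToTM2.Γ' → α) :
    Primrec (fun n : ℕ => (trNat n).map κ) := by
  suffices h : Primrec₂ (fun (_ : Unit) (n : ℕ) => (trNat n).map κ) from
    h.comp (Primrec.const ()) Primrec.id
  refine Primrec.nat_strong_rec _ (g := fun _ (l : List (List α)) =>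
    if l.length = 0 then some []
    else (l[l.length / 2]?).map (fun v =>
      (if l.length % 2 = 1 then κ PartrecToTM2.Γ'.bit1 else κ PartrecToTM2.Γ'.bit0) :: v)) ?_ ?_
  · refine Primrec.ite (PrimrecRel.comp Primrec.eq
      (Primrec.list_length.comp Primrec.snd) (Primrec.const 0)) (Primrec.const _) ?_
    refine Primrec.option_map (Primrec.list_getElem?.comp Primrec.snd
      (Primrec.nat_div.comp (Primrec.list_length.comp Primrec.snd) (Primrec.const 2))) ?_
    refine Primrec.list_cons.comp (Primrec.ite (PrimrecRel.comp Primrec.eq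
      (Primrec.nat_mod.comp (Primrec.list_length.comp (Primrec.snd.comp Primrec.fst))
        (Primrec.const 2)) (Primrec.const 1)) (Primrec.const _) (Primrec.const _)) Primrec.snd
  · intro _ n
    rcases n with _ | n
    · simp
    · have : (n + 1) / 2 < n + 1 := by omega
      simp only [List.length_map, List.length_range]
      rw [if_neg (by omega)]
      rw [List.getElem?_map, List.getElem?_range this, Helper147.Univ.trNat_rec n]
      simp only [Option.map_some, List.map_cons]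
      split_ifs <;> rfl

/-- The main reduction. -/
theorem reduction : ∃ (k : ℕ) (P : Pres (Fin k)) (f : ℕ → List (Fin k)), P.rel.Finite ∧
    (∀ p ∈ P.rel, (p.2, p.1) ∉ P.rel) ∧ Computable f ∧ ∀ n, f n ≠ [] ∧
      ((Helper147.Univ.u n).Dom → ∃ (χ : DiagramGroup P (f n) →* Multiplicative ℤ)
        (g : DiagramGroup P (f n)), χ g ≠ 1) ∧
      (¬ (Helper147.Univ.u n).Dom → Subsingleton (DiagramGroup P (f n))) := by
  classical
  obtain ⟨Λ, i1, i2, M, hM⟩ := Helper147.Univ.exists_machine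
  let _ : Fintype PartrecToTM2.K' := ⟨{.main, .rev, .aux, .stack}, by intro k; cases k <;> simp⟩
  obtain ⟨k, ⟨e⟩⟩ := Finite.exists_equiv_fin
    (TL (TM2to1.Γ' PartrecToTM2.K' (fun _ => PartrecToTM2.Γ')) ⊕ QL Λ)
  let inp : ℕ → List (TM2to1.Γ' PartrecToTM2.K' (fun _ => PartrecToTM2.Γ')) := fun n =>
    Helper147.Univ.sym true .cons :: (PartrecToTM2.trNat n).reverse.map (Helper147.Univ.sym false)
  let w : ℕ → List (TL (TM2to1.Γ' PartrecToTM2.K' (fun _ => PartrecToTM2.Γ')) ⊕ QL Λ) :=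
    fun n => word [lft] (R default) ((inp n).map s ++ [rgt])
  have hrep : ∀ n, Rep (w n) (TM0.init (inp n)) := fun n =>
    Rep.right default Side.fin (side_map _ _)
  refine ⟨k, (PT M).map e, fun n => (w n).map e, Pres.map_finite (PM_finite _ _) e,
    fun p hp hp' => PT_asym M _ hp hp', ?_, fun n => ⟨by simp [w, word], fun h => ?_, fun h => ?_⟩⟩
  · have h1 := digits_primrec (fun a => e (inl (s (Helper147.Univ.sym false a))))
    have h2 : Primrec (fun n : ℕ => [e (inl lft), e (inr (R default)),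
        e (inl (s (Helper147.Univ.sym true .cons)))] ++
        (((PartrecToTM2.trNat n).map (fun a => e (inl (s (Helper147.Univ.sym false a))))).reverse
          ++ [e (inl rgt)])) :=
      Primrec.list_append.comp (Primrec.const _) (Primrec.list_append.comp
        (Primrec.list_reverse.comp h1) (Primrec.const _))
    refine h2.to_comp.of_eq (fun n => ?_)
    simp [w, word, inp, Function.comp_def]
  · obtain ⟨χ, g, hg⟩ := hom_of_dom M (hrep n) ((hM n).2 h)
    exact ⟨χ.comp (mapEquiv (PT M) e (w n)).symm.toMonoidHom, mapEquiv (PT M) e (w n) g,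
      by simpa using hg⟩
  · have := trivial_of_not_dom M (hrep n) (fun h' => h ((hM n).1 h'))
    exact (mapEquiv (PT M) e (w n)).symm.injective.subsingleton

theorem triv_undec : ∃ (k : ℕ) (P : Pres (Fin k)), P.rel.Finite ∧
    (∀ p ∈ P.rel, (p.2, p.1) ∉ P.rel) ∧
    ¬ ComputablePred (fun w : List (Fin k) => w ≠ [] ∧ Nontrivial (DiagramGroup P w)) := by
  obtain ⟨k, P, f, h1, h2, h3, h4⟩ := reduction
  refine ⟨k, P, h1, h2, fun h => Helper147.Univ.u_not_computable ?_⟩
  refine ComputablePred.computable_of_manyOneReducible ⟨f, h3, fun n => ⟨fun hn => ?_, fun hn => ?_⟩⟩ h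
  · obtain ⟨χ, g, hg⟩ := (h4 n).2.1 hn
    exact ⟨(h4 n).1, g, 1, fun e => hg (by rw [e, map_one])⟩
  · by_contra hh
    exact not_subsingleton_iff_nontrivial.2 hn.2 ((h4 n).2.2 hh)

theorem rank_ne_zero {G : Type} [Group G] (χ : G →* Multiplicative ℤ) {g : G} (hg : χ g ≠ 1) :
    Module.rank ℚ (TensorProduct ℤ ℚ (Additive (Abelianization G))) ≠ 0 := by
  intro h
  have hs := rank_zero_iff.1 h
  let l : Additive (Abelianization G) →ₗ[ℤ] ℤ :=
    (MonoidHom.toAdditiveLeft (Abelianization.lift χ)).toIntLinearMap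
  have h1 := Subsingleton.elim ((1 : ℚ) ⊗ₜ[ℤ] (Additive.ofMul (Abelianization.of g))) 0
  have h2 := congrArg ((TensorProduct.rid ℤ ℚ) ∘ (LinearMap.lTensor ℚ l)) h1
  simp [l] at h2
  exact hg h2

theorem rank_undec : ∃ (k : ℕ) (P : Pres (Fin k)), P.rel.Finite ∧
    (∀ p ∈ P.rel, (p.2, p.1) ∉ P.rel) ∧
    ¬ ∃ r : List (Fin k) → Option ℕ, Computable r ∧ ∀ w : List (Fin k), w ≠ [] →
      Cardinal.toENat (Module.rank ℚ
        (TensorProduct ℤ ℚ (Additive (Abelianization (DiagramGroup P w))))) =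
        (r w).elim ⊤ (fun m => (m : ℕ∞)) := by
  obtain ⟨k, P, f, h1, h2, h3, h4⟩ := reduction
  refine ⟨k, P, h1, h2, fun ⟨r, hr, hr'⟩ => Helper147.Univ.u_not_computable ?_⟩
  have key : ∀ n, (Helper147.Univ.u n).Dom ↔ ¬ r (f n) = some 0 := by
    intro n
    have e := hr' (f n) (h4 n).1
    constructor
    · intro hn h0
      obtain ⟨χ, g, hg⟩ := (h4 n).2.1 hn
      rw [h0] at e
      exact rank_ne_zero χ hg (by simpa using e)
    · intro hn
      by_contra hh
      have := (h4 n).2.2 hh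
      have hs : Subsingleton (Abelianization (DiagramGroup P (f n))) :=
        (QuotientGroup.mk_surjective).subsingleton
      rw [rank_subsingleton'] at e
      apply hn
      cases hrf : r (f n) with
      | none => rw [hrf] at e; simp at e
      | some m =>
        rw [hrf] at e
        simp only [map_zero, Option.elim_some] at e
        exact congrArg some (by exact_mod_cast e.symm)
  have : ComputablePred (fun n => r (f n) = some 0) :=
    Computable.computablePred ((Primrec.eq.decide.to_comp).comp (hr.comp h3) (Computable.const _))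
  exact (funext (fun n => propext (key n))) ▸ this.not

end Pool.Agent.H363Z.Und
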