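import Pool.Agent.H363Z.Left
import Pool.Agent.H363Z.Magnus
import Pool.Agent.H363Z.Resid

set_option autoImplicit false

/-!
A diagram group without infinite rank free abelian subgroups that does not embed into a
right-angled Artin group.
-/

namespace Pool.Agent.H363Z.ZbZ

/-- the alphabet -/
inductive L | a1 | a2 | a3 | b1 | b2 | b3 | p
  deriving DecidableEq

open L

/-- the relations -/
def rels : List (List L × List L) :=
  [([a1], [a2]), ([a2], [a3]), ([a3], [a1]), ([a1], [a1, p]),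
    ([b1], [b2]), ([b2], [b3]), ([b3], [b1]), ([b1], [p, b1])]

/-- the presentation -/
def PZ : Pres L := ⟨{p | p ∈ rels}, by
  intro q hq
  simp only [rels, Set.mem_ofPred_eq, List.mem_cons, List.not_mem_nil, or_false] at hq
  rcases hq with rfl | rfl | rfl | rfl | rfl | rfl | rfl | rfl <;> simp⟩

theorem mem_PZ {q : List L × List L} : q ∈ PZ.rel ↔ q ∈ rels := Iff.rfl

/-- left letters -/
def isA (s : L) : Prop := s = a1 ∨ s = a2 ∨ s = a3

/-- right letters -/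
def isB (s : L) : Prop := s = b1 ∨ s = b2 ∨ s = b3

/-- left words -/
def AW (x : List L) : Prop := ∃ α y, x = α :: y ∧ isA α ∧ ∀ s ∈ y, s = p

/-- right words -/
def BW (x : List L) : Prop := ∃ y β, x = y ++ [β] ∧ isB β ∧ ∀ s ∈ y, s = p

theorem rel_cases {u v : List L} (h : (u, v) ∈ PZ.rel) : (AW u ∧ AW v) ∨ (BW u ∧ BW v) := by
  simp only [mem_PZ, rels, List.mem_cons, List.not_mem_nil, or_false, Prod.mk.injEq] at h
  have ha : ∀ s, isA s → AW [s] := fun s hs => ⟨s, [], rfl, hs, by simp⟩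
  have hb : ∀ s, isB s → BW [s] := fun s hs => ⟨[], s, rfl, hs, by simp⟩
  rcases h with ⟨rfl, rfl⟩ | ⟨rfl, rfl⟩ | ⟨rfl, rfl⟩ | ⟨rfl, rfl⟩ | ⟨rfl, rfl⟩ | ⟨rfl, rfl⟩ |
    ⟨rfl, rfl⟩ | ⟨rfl, rfl⟩
  · exact Or.inl ⟨ha _ (by simp [isA]), ha _ (by simp [isA])⟩
  · exact Or.inl ⟨ha _ (by simp [isA]), ha _ (by simp [isA])⟩
  · exact Or.inl ⟨ha _ (by simp [isA]), ha _ (by simp [isA])⟩
  · exact Or.inl ⟨ha _ (by simp [isA]), a1, [p], rfl, by simp [isA], by simp⟩
  · exact Or.inr ⟨hb _ (by simp [isB]), hb _ (by simp [isB])⟩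
  · exact Or.inr ⟨hb _ (by simp [isB]), hb _ (by simp [isB])⟩
  · exact Or.inr ⟨hb _ (by simp [isB]), hb _ (by simp [isB])⟩
  · exact Or.inr ⟨hb _ (by simp [isB]), [p], b1, rfl, by simp [isB], by simp⟩

theorem AW.not_B {x : List L} (h : AW x) {β : L} (hβ : isB β) : β ∉ x := by
  obtain ⟨α, y, rfl, hα, hy⟩ := h
  intro hm
  rcases List.mem_cons.1 hm with rfl | hm
  · rcases hα with rfl | rfl | rfl <;> simp [isB] at hβ
  · rw [hy β hm] at hβ; simp [isB] at hβ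

theorem AW.inner {a u s : List L} (h : AW (a ++ u ++ s)) (hu : AW u) :
    a = [] ∧ ∀ c ∈ s, c = p := by
  obtain ⟨α, y, e, hα, hy⟩ := h
  obtain ⟨α', y', rfl, hα', hy'⟩ := hu
  cases a with
  | nil =>
    simp only [List.nil_append, List.cons_append, List.cons.injEq] at e
    exact ⟨rfl, fun c hc => hy c (by rw [← e.2]; simp [hc])⟩
  | cons c a =>
    simp only [List.cons_append, List.cons.injEq] at e
    have := hy α' (by rw [← e.2]; simp)
    subst this
    simp [isA] at hα'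

theorem AW.app {u s : List L} (hu : AW u) (hs : ∀ c ∈ s, c = p) : AW (u ++ s) := by
  obtain ⟨α, y, rfl, hα, hy⟩ := hu
  refine ⟨α, y ++ s, rfl, hα, fun c hc => ?_⟩
  rcases List.mem_append.1 hc with h | h
  exacts [hy c h, hs c h]

theorem AW.pre {a s : List L} (h : AW (a ++ s)) (hs : ∀ c ∈ s, c = p) : a ≠ [] ∧ AW a := by
  obtain ⟨α, y, e, hα, hy⟩ := h
  cases a with
  | nil =>
    have := hs α (by rw [List.nil_append] at e; rw [e]; simp)
    subst this
    simp [isA] at hα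
  | cons c a =>
    simp only [List.cons_append, List.cons.injEq] at e
    obtain ⟨rfl, rfl⟩ := e
    exact ⟨by simp, c, a, rfl, hα, fun d hd => hy d (by simp [hd])⟩

theorem AW.step {a u v s : List L} (h : (AW u ∧ AW v) ∨ (BW u ∧ BW v)) (hx : AW (a ++ u ++ s)) :
    a = [] ∧ AW (a ++ v ++ s) := by
  rcases h with ⟨h1, h2⟩ | ⟨⟨y, β, rfl, hβ, -⟩, -⟩
  · obtain ⟨rfl, hs⟩ := hx.inner h1
    exact ⟨rfl, h2.app hs⟩
  · exact absurd (by simp) (hx.not_B hβ)

theorem hW (e : Step L) (he : (e.lhs, e.rhs) ∈ PZ.rel) (hx : AW e.src) : e.pre = [] ∧ AW e.tgt := by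
  rcases e with ⟨a, u, v, s, _ | _⟩
  · exact AW.step ((rel_cases he).imp And.symm And.symm) hx
  · exact AW.step (rel_cases he) hx

/-- words in the component of the base word -/
def Good (w : List L) : Prop := ∃ x β, w = x ++ [β] ∧ AW x ∧ isB β

theorem good_cases {a u v s : List L} (h : (AW u ∧ AW v) ∨ (BW u ∧ BW v))
    (hx : Good (a ++ u ++ s)) :
    (a = [] ∧ ∃ s' β, s = s' ++ [β] ∧ isB β ∧ AW (u ++ s') ∧ AW (v ++ s')) ∨
    (s = [] ∧ a ≠ [] ∧ ∃ u' β v' β', u = u' ++ [β] ∧ v = v' ++ [β'] ∧ isB β ∧ isB β' ∧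
      AW (a ++ u') ∧ AW (a ++ v')) := by
  obtain ⟨x, β, e, hx, hβ⟩ := hx
  rcases List.eq_nil_or_concat s with rfl | ⟨s', c, rfl⟩
  · rcases h with ⟨h1, h2⟩ | ⟨⟨y, γ, rfl, hγ, hy⟩, ⟨y', γ', rfl, hγ', hy'⟩⟩
    · exfalso
      rcases List.eq_nil_or_concat u with rfl | ⟨u', c, rfl⟩
      · obtain ⟨_, _, h, _⟩ := h1
        simp at h
      · rw [List.append_nil, List.concat_eq_append, ← List.append_assoc] at e
        obtain ⟨-, e2⟩ := List.append_inj' e rfl
        simp only [List.cons.injEq, and_true] at e2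
        exact h1.not_B hβ (by simp [e2])
    · rw [List.append_nil, ← List.append_assoc] at e
      obtain ⟨rfl, -⟩ := List.append_inj' e rfl
      obtain ⟨h1, h2⟩ := hx.pre hy
      exact Or.inr ⟨rfl, h1, y, γ, y', γ', rfl, rfl, hγ, hγ', hx, h2.app hy'⟩
  · rw [List.concat_eq_append, ← List.append_assoc] at e
    obtain ⟨rfl, e2⟩ := List.append_inj' e rfl
    simp only [List.cons.injEq, and_true] at e2
    subst e2
    obtain ⟨rfl, h2⟩ := AW.step h hx
    exact Or.inl ⟨rfl, s', c, by simp, hβ, hx, h2⟩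

theorem fac_step (e : Step L) (he : (e.lhs, e.rhs) ∈ PZ.rel) (hx : Good e.src) :
    Good e.tgt ∧ Fac PZ e.src (st PZ e) e.tgt := by
  rcases e with ⟨a, u, v, s, _ | _⟩
  · rcases good_cases ((rel_cases he).imp And.symm And.symm) hx with
      ⟨rfl, s', β, rfl, h1, h2, h3⟩ | ⟨rfl, ha, v', β', u', β, rfl, rfl, h1, h2, h3, h4⟩
    · refine ⟨⟨u ++ s', β, by simp [Step.tgt], h3, h1⟩, ?_⟩
      simpa [Step.src, Step.tgt, st] using (fac_left AW hW he h2 β).inv
    · refine ⟨⟨a ++ u', β, by simp [Step.tgt], h4, h2⟩, ?_⟩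
      simpa [Step.src, Step.tgt, st] using (fac_right AW hW he ha h4 h3).inv
  · rcases good_cases (rel_cases he) hx with
      ⟨rfl, s', β, rfl, h1, h2, h3⟩ | ⟨rfl, ha, u', β, v', β', rfl, rfl, h1, h2, h3, h4⟩
    · refine ⟨⟨v ++ s', β, by simp [Step.tgt], h3, h1⟩, ?_⟩
      simpa [Step.src, Step.tgt, st] using fac_left AW hW he h3 β
    · refine ⟨⟨a ++ v', β', by simp [Step.tgt], h4, h2⟩, ?_⟩
      simpa [Step.src, Step.tgt, st] using fac_right AW hW he ha h3 h4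

theorem fac_arr {x y : List L} {g : UG PZ} (h : Arr PZ x g y) (hx : Good x) : Fac PZ x g y := by
  induction h using Arr.induction with
  | refl x => exact Fac.one x
  | step e g y he _ ih => exact (fac_step e he hx).2.mul (ih (fac_step e he hx).1)

theorem no_abelian (κ : Multiplicative (ℤ →₀ ℤ) →* DiagramGroup PZ [a1, b1]) :
    ¬ Function.Injective κ :=
  no_big_abelian (fun _ h => fac_arr h
    ⟨[a1], b1, rfl, ⟨a1, [], rfl, by simp [isA], by simp⟩, by simp [isB]⟩) κ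

theorem r1 : ([a1], [a2]) ∈ PZ.rel := by simp [mem_PZ, rels]
theorem r2 : ([a2], [a3]) ∈ PZ.rel := by simp [mem_PZ, rels]
theorem r3 : ([a3], [a1]) ∈ PZ.rel := by simp [mem_PZ, rels]
theorem r4 : ([a1], [a1, p]) ∈ PZ.rel := by simp [mem_PZ, rels]
theorem r5 : ([b1], [b2]) ∈ PZ.rel := by simp [mem_PZ, rels]
theorem r6 : ([b2], [b3]) ∈ PZ.rel := by simp [mem_PZ, rels]
theorem r7 : ([b3], [b1]) ∈ PZ.rel := by simp [mem_PZ, rels]
theorem r8 : ([b1], [p, b1]) ∈ PZ.rel := by simp [mem_PZ, rels]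

/-- left triangle -/
noncomputable def za : UG PZ :=
  gen PZ [] [a1] [a2] [] * gen PZ [] [a2] [a3] [] * gen PZ [] [a3] [a1] []
/-- right triangle -/
noncomputable def zb : UG PZ :=
  gen PZ [] [b1] [b2] [] * gen PZ [] [b2] [b3] [] * gen PZ [] [b3] [b1] []
/-- left emission -/
noncomputable def l : UG PZ := gen PZ [] [a1] [a1, p] []
/-- right emission -/
noncomputable def r : UG PZ := gen PZ [] [b1] [p, b1] []
/-- translation -/
noncomputable def t : UG PZ := ctx PZ [] [b1] l * (ctx PZ [a1] [] r)⁻¹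

theorem za_arr : Arr PZ [a1] za [a1] :=
  ((Arr.gen r1 [] []).mul (Arr.gen r2 [] [])).mul (Arr.gen r3 [] [])
theorem zb_arr : Arr PZ [b1] zb [b1] :=
  ((Arr.gen r5 [] []).mul (Arr.gen r6 [] [])).mul (Arr.gen r7 [] [])
theorem l_arr : Arr PZ [a1] l [a1, p] := Arr.gen r4 [] []
theorem r_arr : Arr PZ [b1] r [p, b1] := Arr.gen r8 [] []
theorem t_arr : Arr PZ [a1, b1] t [a1, b1] := (l_arr.ctx [] [b1]).mul (r_arr.ctx [a1] []).inv

theorem conj_pow (n : ℕ) : ∃ h, Arr PZ [a1] h [a1] ∧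
    t ^ n * ctx PZ [] [b1] za * (t ^ n)⁻¹ = ctx PZ [] [b1] h := by
  induction n with
  | zero => exact ⟨za, za_arr, by simp⟩
  | succ n ih =>
    obtain ⟨h, h1, h2⟩ := ih
    refine ⟨l * ctx PZ [] [p] h * l⁻¹, (l_arr.mul (h1.ctx [] [p])).mul l_arr.inv, ?_⟩
    have hi := interchange₀ h1 r_arr
    rw [pow_succ', mul_inv_rev, mul_assoc t, mul_assoc t, ← mul_assoc _ (t ^ n)⁻¹, h2, map_mul,
      map_mul, map_inv, ctx_ctx, t]
    simp only [List.nil_append, List.cons_append]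
    rw [mul_inv_rev, inv_inv, ← mul_assoc (ctx PZ [] [b1] h), hi]
    group

/-- the permutation attached to an edge -/
def phE (j : ℕ) (u v : List L) : Equiv.Perm (ℕ × ℕ) :=
  if v.length = 2 then Res.Mg j else if u = [a3] ∨ u = [b3] then Res.Zt j else 1

/-- the representation -/
def phi : UG PZ →* Equiv.Perm (ℕ × ℕ) :=
  UG.lift (fun a u v _ => phE a.length u v) (by
    intro u v p q h h' a b c
    simp only [mem_PZ, rels, List.mem_cons, List.not_mem_nil, or_false, Prod.mk.injEq] at h h'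
    have e1 : a.length + (b.length + 1 + 1) = a.length + (b.length + 1) + 1 := by omega
    have e2 : a.length < a.length + (b.length + 1) := by omega
    rcases h with ⟨rfl, rfl⟩ | ⟨rfl, rfl⟩ | ⟨rfl, rfl⟩ | ⟨rfl, rfl⟩ | ⟨rfl, rfl⟩ | ⟨rfl, rfl⟩ |
      ⟨rfl, rfl⟩ | ⟨rfl, rfl⟩ <;>
    rcases h' with ⟨rfl, rfl⟩ | ⟨rfl, rfl⟩ | ⟨rfl, rfl⟩ | ⟨rfl, rfl⟩ | ⟨rfl, rfl⟩ | ⟨rfl, rfl⟩ |
      ⟨rfl, rfl⟩ | ⟨rfl, rfl⟩ <;>
    simp [phE, e1, Res.MM e2, Res.MZ e2, Res.ZM e2, Res.ZZ e2])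

theorem phi_gen {u v : List L} (h : (u, v) ∈ PZ.rel) (a b : List L) :
    phi (gen PZ a u v b) = phE a.length u v := UG.lift_gen _ _ h a b

theorem not_comm : ¬ Commute (ctx PZ [a1] [] zb) (t⁻¹ * ctx PZ [] [b1] za * t) := by
  intro h
  have := DFunLike.congr_fun (h.map phi).eq (0, 0)
  simp only [t, za, zb, l, r, map_mul, map_inv, ctx_gen, phi_gen r1, phi_gen r2,
    phi_gen r3, phi_gen r4, phi_gen r5, phi_gen r6, phi_gen r7, phi_gen r8] at this
  revert this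
  decide +kernel

theorem no_raag {V : Type} (Γ : SimpleGraph V)
    (f : DiagramGroup PZ [a1, b1] →* PresentedGroup (Mag.rels Γ)) : ¬ Function.Injective f := by
  intro hf
  let ψ := f.comp (ret PZ [a1, b1])
  have h1 : Commute (ψ (ctx PZ [a1] [] zb)) ((ψ t)⁻¹ * ψ (ctx PZ [] [b1] za) * ψ t) := by
    refine Mag.raag_law (fun n => ?_)
    obtain ⟨h, h1, h2⟩ := conj_pow n
    rw [← map_pow, ← map_inv, ← map_mul, ← map_mul, h2]
    exact ((commute_ctx h1 zb_arr [] [] []).symm).map ψ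
  rw [← map_inv, ← map_mul, ← map_mul] at h1
  have h2 := (h1.of_map hf).map (toU PZ [a1, b1])
  have hb : Arr PZ [a1, b1] (ctx PZ [a1] [] zb) [a1, b1] := zb_arr.ctx [a1] []
  have ha : Arr PZ [a1, b1] (t⁻¹ * ctx PZ [] [b1] za * t) [a1, b1] :=
    (t_arr.inv.mul (za_arr.ctx [] [b1])).mul t_arr
  rw [hb.toU_ret, ha.toU_ret] at h2
  exact not_comm h2

end Pool.Agent.H363Z.ZbZ
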